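import Mathlib

/-! Averages over the binary extensions of an integer, and a logarithmic law of large numbers for
functions of the binary prefixes of a real number. -/

set_option autoImplicit false

namespace Pool.Agent.V8H9.DP

open Finset Filter Topology MeasureTheory

/-- the average of `F` over the integers `k 2^j + r`, `0 ≤ r < 2^j` -/
noncomputable def ce (j : ℕ) (F : ℕ → ℝ) (k : ℕ) : ℝ :=
  (∑ r ∈ range (2 ^ j), F (k * 2 ^ j + r)) / 2 ^ j

lemma sum_blocks (f : ℕ → ℝ) (a b : ℕ) :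
    ∑ r ∈ range (a * b), f r = ∑ i ∈ range a, ∑ s ∈ range b, f (i * b + s) := by
  induction a with
  | zero => simp
  | succ a ih =>
    rw [Nat.succ_mul, sum_range_succ, ← ih, Finset.sum_range_add]

lemma ce_zero (F : ℕ → ℝ) (k : ℕ) : ce 0 F k = F k := by
  simp [ce]

lemma ce_tower (i j : ℕ) (F : ℕ → ℝ) (k : ℕ) : ce i (ce j F) k = ce (i + j) F k := by
  unfold ce
  rw [pow_add, sum_blocks, ← Finset.sum_div, div_div, pow_add, mul_comm ((2 : ℝ) ^ j)]
  congr 1
  refine sum_congr rfl fun r _ => sum_congr rfl fun s _ => ?_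
  congr 1
  ring

lemma ce_pull (j : ℕ) (F H : ℕ → ℝ) (k : ℕ) :
    ce j (fun l => F l * H (l / 2 ^ j)) k = ce j F k * H k := by
  unfold ce
  rw [div_mul_eq_mul_div, Finset.sum_mul]
  congr 1
  refine sum_congr rfl fun r hr => ?_
  rw [mem_range] at hr
  have : (k * 2 ^ j + r) / 2 ^ j = k := by
    rw [mul_comm, Nat.mul_add_div (by positivity), Nat.div_eq_of_lt hr, add_zero]
  simp only [this]

lemma ce_add (j : ℕ) (F G : ℕ → ℝ) (k : ℕ) :
    ce j (fun l => F l + G l) k = ce j F k + ce j G k := by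
  unfold ce
  rw [sum_add_distrib, add_div]

lemma ce_sub (j : ℕ) (F G : ℕ → ℝ) (k : ℕ) :
    ce j (fun l => F l - G l) k = ce j F k - ce j G k := by
  unfold ce
  rw [sum_sub_distrib, sub_div]

lemma ce_smul (j : ℕ) (c : ℝ) (F : ℕ → ℝ) (k : ℕ) :
    ce j (fun l => c * F l) k = c * ce j F k := by
  unfold ce
  rw [← mul_sum, mul_div_assoc]

lemma ce_sum {ι : Type*} (s : Finset ι) (j : ℕ) (F : ι → ℕ → ℝ) (k : ℕ) :
    ce j (fun l => ∑ i ∈ s, F i l) k = ∑ i ∈ s, ce j (F i) k := by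
  unfold ce
  rw [sum_comm, sum_div]

lemma ce_mono (j : ℕ) {F G : ℕ → ℝ} (k : ℕ) (h : ∀ l, F l ≤ G l) : ce j F k ≤ ce j G k := by
  unfold ce
  gcongr
  exact h _

lemma ce_mono' (j : ℕ) {F G : ℕ → ℝ} (k : ℕ) (h : ∀ l, l / 2 ^ j = k → F l ≤ G l) :
    ce j F k ≤ ce j G k := by
  unfold ce
  refine div_le_div_of_nonneg_right (sum_le_sum fun r hr => h _ ?_) (by positivity)
  rw [mem_range] at hr
  rw [mul_comm, Nat.mul_add_div (by positivity), Nat.div_eq_of_lt hr, add_zero]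

lemma ce_nonneg (j : ℕ) {F : ℕ → ℝ} (k : ℕ) (h : ∀ l, 0 ≤ F l) : 0 ≤ ce j F k := by
  unfold ce
  exact div_nonneg (sum_nonneg fun _ _ => h _) (by positivity)

lemma ce_const (j : ℕ) (c : ℝ) (k : ℕ) : ce j (fun _ => c) k = c := by
  unfold ce
  rw [sum_const, card_range, nsmul_eq_mul]
  push_cast
  field_simp

lemma ce_const_comp (j : ℕ) (H : ℕ → ℝ) (k : ℕ) : ce j (fun l => H (l / 2 ^ j)) k = H k := by
  have := ce_pull j (fun _ => 1) H k
  simpa [ce_const] using this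

/-- Cauchy-Schwarz -/
lemma ce_sq_le (j : ℕ) (F : ℕ → ℝ) (k : ℕ) : (ce j F k) ^ 2 ≤ ce j (fun l => F l ^ 2) k := by
  have h := ce_nonneg j (F := fun l => (F l - ce j F k) ^ 2) k (fun _ => by positivity)
  have e : ce j (fun l => (F l - ce j F k) ^ 2) k =
      ce j (fun l => F l ^ 2) k - (ce j F k) ^ 2 := by
    have e1 : (fun l => (F l - ce j F k) ^ 2) =
        fun l => (F l ^ 2 - (2 * ce j F k) * F l) + (ce j F k) ^ 2 := by
      funext l; ring
    rw [e1, ce_add (F := fun l => F l ^ 2 - (2 * ce j F k) * F l), ce_const,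
      ce_sub (F := fun l => F l ^ 2), ce_smul]
    ring
  linarith

/-- the conditional difference at level `n`, with respect to the level `n / K` -/
noncomputable def dd (K : ℕ) (G : ℕ → ℕ → ℝ) (n k : ℕ) : ℝ :=
  G n k - ce (n - n / K) (G n) (k / 2 ^ (n - n / K))

lemma ce_dd (K : ℕ) (G : ℕ → ℕ → ℝ) (n k : ℕ) : ce (n - n / K) (dd K G n) k = 0 := by
  unfold dd
  rw [ce_sub, ce_const_comp, sub_self]

/-- second moment of the differences -/
lemma dd_sq (K : ℕ) (G : ℕ → ℕ → ℝ) (n a A : ℕ) (ha : a ≤ n / K) :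
    ce (n - a) (fun k => dd K G n k ^ 2) A ≤ 4 * ce (n - a) (fun k => G n k ^ 2) A := by
  have hK : n / K ≤ n := Nat.div_le_self _ _
  set m := n / K with hm
  have h1 : ∀ k, dd K G n k ^ 2 ≤ 2 * G n k ^ 2 +
      2 * (fun u => ce (n - m) (fun l => G n l ^ 2) u) (k / 2 ^ (n - m)) := by
    intro k
    have h2 := ce_sq_le (n - m) (G n) (k / 2 ^ (n - m))
    unfold dd
    simp only
    rw [← hm]
    nlinarith [sq_nonneg (G n k + ce (n - m) (G n) (k / 2 ^ (n - m)))]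
  refine (ce_mono _ _ h1).trans ?_
  rw [ce_add (F := fun k => 2 * G n k ^ 2), ce_smul, ce_smul]
  have e : n - a = (m - a) + (n - m) := by omega
  have e2 : ce (n - a) (fun k => (fun u => ce (n - m) (fun l => G n l ^ 2) u) (k / 2 ^ (n - m))) A =
      ce (n - a) (fun k => G n k ^ 2) A := by
    rw [e, ← ce_tower, ← ce_tower]
    congr 1
    funext u
    rw [ce_const_comp]
  rw [e2]
  linarith

/-- orthogonality -/
lemma dd_orth (K : ℕ) (G : ℕ → ℕ → ℝ) (n n' a A : ℕ) (ha : a ≤ n) (h : n ≤ n' / K) (H : ℕ → ℝ) :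
    ce (n' - a) (fun k => dd K G n' k * H (k / 2 ^ (n' - n))) A = 0 := by
  have hK : n' / K ≤ n' := Nat.div_le_self _ _
  set m := n' / K with hm
  have e : n' - a = (m - a) + (n' - m) := by omega
  have e1 : (fun k => dd K G n' k * H (k / 2 ^ (n' - n))) =
      fun k => dd K G n' k * (fun u => H (u / 2 ^ (m - n))) (k / 2 ^ (n' - m)) := by
    funext k
    simp only
    rw [Nat.div_div_eq_div_mul, ← pow_add]
    congr 4
    omega
  rw [e, ← ce_tower, e1]
  have e2 : (ce (n' - m) fun k => dd K G n' k * (fun u => H (u / 2 ^ (m - n))) (k / 2 ^ (n' - m))) =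
      fun _ => 0 := by
    funext u
    have e3 := ce_pull (n' - m) (dd K G n') (fun u => H (u / 2 ^ (m - n))) u
    rw [e3, hm, ce_dd, zero_mul]
  rw [e2, ce_const]

/-- the logarithmic sum of the differences at level `N` -/
noncomputable def ss (K : ℕ) (G : ℕ → ℕ → ℝ) (n0 N k : ℕ) : ℝ :=
  ∑ n ∈ Icc n0 N, dd K G n (k / 2 ^ (N - n)) / n

lemma ce_lift (F : ℕ → ℝ) (n N a A : ℕ) (ha : a ≤ n) (hN : n ≤ N) :
    ce (N - a) (fun k => F (k / 2 ^ (N - n))) A = ce (n - a) F A := by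
  have e : N - a = (n - a) + (N - n) := by omega
  rw [e, ← ce_tower]
  congr 1
  funext u
  rw [ce_const_comp]

lemma ss_sq_eq (K : ℕ) (G : ℕ → ℕ → ℝ) (n0 N a A : ℕ) :
    ce (N - a) (fun k => ss K G n0 N k ^ 2) A = ∑ n ∈ Icc n0 N, ∑ n' ∈ Icc n0 N,
      ce (N - a) (fun k => dd K G n (k / 2 ^ (N - n)) / n * (dd K G n' (k / 2 ^ (N - n')) / n')) A := by
  have e : (fun k => ss K G n0 N k ^ 2) = fun k => ∑ n ∈ Icc n0 N, ∑ n' ∈ Icc n0 N,
      (dd K G n (k / 2 ^ (N - n)) / n * (dd K G n' (k / 2 ^ (N - n')) / n')) := by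
    funext k
    unfold ss
    rw [sq, sum_mul_sum]
  rw [e, ce_sum]
  refine sum_congr rfl fun n _ => ?_
  rw [ce_sum]

lemma pair_zero (K : ℕ) (G : ℕ → ℕ → ℝ) (n n' N a A : ℕ) (ha : a ≤ n) (h : n ≤ n' / K) (hN : n' ≤ N) :
    ce (N - a) (fun k => dd K G n (k / 2 ^ (N - n)) / n * (dd K G n' (k / 2 ^ (N - n')) / n')) A = 0 := by
  have hK : n' / K ≤ n' := Nat.div_le_self _ _
  have e : (fun k => dd K G n (k / 2 ^ (N - n)) / n * (dd K G n' (k / 2 ^ (N - n')) / n')) =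
      fun k => (fun u => dd K G n' u * (fun v => dd K G n v / (n * n')) (u / 2 ^ (n' - n)))
        (k / 2 ^ (N - n')) := by
    funext k
    simp only
    rw [Nat.div_div_eq_div_mul, ← pow_add]
    have : N - n' + (n' - n) = N - n := by omega
    rw [this]
    ring
  rw [e, ce_lift (fun u => dd K G n' u * (fun v => dd K G n v / (n * n')) (u / 2 ^ (n' - n))) n' N a A
    (by omega) hN]
  exact dd_orth K G n n' a A ha h (fun v => dd K G n v / (n * n'))

lemma pair_le (K : ℕ) (G : ℕ → ℕ → ℝ) (n n' N a A : ℕ) (C : ℝ) (ha : a ≤ n / K) (ha' : a ≤ n' / K)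
    (hN : n ≤ N) (hN' : n' ≤ N) (h1 : 1 ≤ n) (h1' : 1 ≤ n')
    (hC : ce (n - a) (fun k => G n k ^ 2) A ≤ C) (hC' : ce (n' - a) (fun k => G n' k ^ 2) A ≤ C) :
    ce (N - a) (fun k => dd K G n (k / 2 ^ (N - n)) / n * (dd K G n' (k / 2 ^ (N - n')) / n')) A ≤
      4 * C / (n * n') := by
  have hK : n / K ≤ n := Nat.div_le_self _ _
  have hK' : n' / K ≤ n' := Nat.div_le_self _ _
  have hn : (0 : ℝ) < n := by exact_mod_cast h1
  have hn' : (0 : ℝ) < n' := by exact_mod_cast h1'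
  have hb : ∀ k, dd K G n (k / 2 ^ (N - n)) / n * (dd K G n' (k / 2 ^ (N - n')) / n') ≤
      (1 / (2 * (n * n'))) * (fun u => dd K G n u ^ 2) (k / 2 ^ (N - n)) +
        (1 / (2 * (n * n'))) * (fun u => dd K G n' u ^ 2) (k / 2 ^ (N - n')) := by
    intro k
    simp only
    set x := dd K G n (k / 2 ^ (N - n))
    set y := dd K G n' (k / 2 ^ (N - n'))
    have : x / n * (y / n') = (1 / (2 * (n * n'))) * (2 * x * y) := by
      field_simp
    rw [this, ← mul_add]
    apply mul_le_mul_of_nonneg_left _ (by positivity)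
    nlinarith [sq_nonneg (x - y)]
  refine (ce_mono _ _ hb).trans ?_
  rw [ce_add (F := fun k => (1 / (2 * ((n : ℝ) * n'))) * (fun u => dd K G n u ^ 2) (k / 2 ^ (N - n))),
    ce_smul, ce_smul,
    ce_lift (fun u => dd K G n u ^ 2) n N a A (by omega) hN,
    ce_lift (fun u => dd K G n' u ^ 2) n' N a A (by omega) hN']
  have h2 := dd_sq K G n a A ha
  have h3 := dd_sq K G n' a A ha'
  have h4 : ce (n - a) (fun u => dd K G n u ^ 2) A + ce (n' - a) (fun u => dd K G n' u ^ 2) A ≤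
      8 * C := by linarith
  calc _ = (1 / (2 * ((n : ℝ) * n'))) * (ce (n - a) (fun u => dd K G n u ^ 2) A +
        ce (n' - a) (fun u => dd K G n' u ^ 2) A) := by ring
    _ ≤ (1 / (2 * ((n : ℝ) * n'))) * (8 * C) := mul_le_mul_of_nonneg_left h4 (by positivity)
    _ = _ := by field_simp; ring

/-- the variance of the logarithmic sum -/
lemma ss_var (K : ℕ) (hK : 1 ≤ K) (G : ℕ → ℕ → ℝ) (n0 N a A : ℕ) (C : ℝ) (hC0 : 0 ≤ C) (hn0 : 1 ≤ n0)
    (ha : a ≤ n0 / K) (hC : ∀ n, n0 ≤ n → ce (n - a) (fun k => G n k ^ 2) A ≤ C) :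
    ce (N - a) (fun k => ss K G n0 N k ^ 2) A ≤ 4 * C * K ^ 2 * (1 + Real.log N) := by
  rw [ss_sq_eq]
  have hha : ∀ n, n0 ≤ n → a ≤ n / K := fun n hn => ha.trans (Nat.div_le_div_right hn)
  have hKr : (1 : ℝ) ≤ K := by exact_mod_cast hK
  have hrow : ∀ n ∈ Icc n0 N, ∑ n' ∈ Icc n0 N,
      ce (N - a) (fun k => dd K G n (k / 2 ^ (N - n)) / n * (dd K G n' (k / 2 ^ (N - n')) / n')) A ≤
      4 * C * K ^ 2 * (1 / (n : ℝ)) := by
    intro n hn
    rw [mem_Icc] at hn
    have hn1 : (1 : ℝ) ≤ n := by exact_mod_cast (by omega : 1 ≤ n)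
    have h1 : ∀ n' ∈ Icc n0 N, ce (N - a) (fun k => dd K G n (k / 2 ^ (N - n)) / n *
        (dd K G n' (k / 2 ^ (N - n')) / n')) A ≤
        if (n' < n * K ∧ n < n' * K) then 4 * C * K / n * (1 / n) else 0 := by
      intro n' hn'
      rw [mem_Icc] at hn'
      have hn1' : (1 : ℝ) ≤ n' := by exact_mod_cast (by omega : 1 ≤ n')
      split_ifs with hc
      · refine (pair_le K G n n' N a A C (hha n hn.1) (hha n' hn'.1) hn.2 hn'.2 (by omega) (by omega)
          (hC n hn.1) (hC n' hn'.1)).trans ?_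
        have h3 : (n : ℝ) ≤ n' * K := by exact_mod_cast hc.2.le
        rw [div_mul_div_comm, mul_one, div_le_div_iff₀ (by positivity) (by positivity)]
        have h4 : 0 ≤ 4 * C * n := by positivity
        nlinarith
      · rw [not_and_or, not_lt, not_lt] at hc
        rcases hc with hc | hc
        · rw [pair_zero K G n n' N a A ((hha n hn.1).trans (Nat.div_le_self _ _))
            ((Nat.le_div_iff_mul_le (by omega)).2 hc) hn'.2]
        · have h5 := pair_zero K G n' n N a A ((hha n' hn'.1).trans (Nat.div_le_self _ _))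
            ((Nat.le_div_iff_mul_le (by omega)).2 hc) hn.2
          have h6 : (fun k => dd K G n (k / 2 ^ (N - n)) / n * (dd K G n' (k / 2 ^ (N - n')) / n')) =
              fun k => dd K G n' (k / 2 ^ (N - n')) / n' * (dd K G n (k / 2 ^ (N - n)) / n) := by
            funext k; ring
          rw [h6, h5]
    refine (sum_le_sum h1).trans ?_
    rw [← sum_filter, sum_const, nsmul_eq_mul]
    have h2 : ((Icc n0 N).filter (fun n' => n' < n * K ∧ n < n' * K)).card ≤ n * K := by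
      calc _ ≤ (range (n * K)).card := card_le_card fun x hx => by
            rw [mem_filter] at hx
            rw [mem_range]
            exact hx.2.1
        _ = n * K := card_range _
    have h3 : (((Icc n0 N).filter (fun n' => n' < n * K ∧ n < n' * K)).card : ℝ) ≤ n * K := by
      exact_mod_cast h2
    calc _ ≤ (n * K : ℝ) * (4 * C * K / n * (1 / n)) := mul_le_mul_of_nonneg_right h3 (by positivity)
      _ = _ := by field_simp
  refine (sum_le_sum hrow).trans ?_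
  rw [← mul_sum]
  apply mul_le_mul_of_nonneg_left _ (by positivity)
  have h4 : ∑ n ∈ Icc n0 N, 1 / (n : ℝ) ≤ ∑ n ∈ Icc 1 N, 1 / (n : ℝ) :=
    sum_le_sum_of_subset_of_nonneg (Icc_subset_Icc hn0 le_rfl) fun _ _ _ => by positivity
  refine h4.trans ?_
  have h5 := harmonic_le_one_add_log N
  rw [harmonic_eq_sum_Icc] at h5
  push_cast at h5
  simpa [one_div] using h5

/-- the cell of reals -/
def cell (a A : ℕ) : Set ℝ := Set.Ico ((A : ℝ) / 2 ^ a) ((A + 1) / 2 ^ a)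

lemma cell_subset (a A N : ℕ) (hN : a ≤ N) :
    cell a A ⊆ ⋃ r ∈ range (2 ^ (N - a)), Set.Ico (((A * 2 ^ (N - a) + r : ℕ) : ℝ) / 2 ^ N)
      (((A * 2 ^ (N - a) + r : ℕ) + 1 : ℝ) / 2 ^ N) := by
  intro x hx
  unfold cell at hx
  have h2 : (2 : ℝ) ^ N = 2 ^ a * 2 ^ (N - a) := by rw [← pow_add]; congr 1; omega
  have hx0 : 0 ≤ x := le_trans (by positivity) hx.1
  have h3 : (A : ℝ) * 2 ^ (N - a) ≤ x * 2 ^ N := by
    have := (div_le_iff₀ (by positivity)).1 hx.1
    rw [h2, ← mul_assoc]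
    exact mul_le_mul_of_nonneg_right this (by positivity)
  have h4 : x * 2 ^ N < (A + 1) * 2 ^ (N - a) := by
    have := (lt_div_iff₀ (by positivity)).1 hx.2
    rw [h2, ← mul_assoc]
    exact mul_lt_mul_of_pos_right this (by positivity)
  have h5 : A * 2 ^ (N - a) ≤ ⌊x * 2 ^ N⌋₊ := Nat.le_floor (by push_cast; exact h3)
  have h6 : ⌊x * 2 ^ N⌋₊ < (A + 1) * 2 ^ (N - a) := by
    rw [Nat.floor_lt (by positivity)]
    push_cast
    exact h4
  simp only [Set.mem_iUnion, mem_range, Set.mem_Ico, exists_prop]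
  refine ⟨⌊x * 2 ^ N⌋₊ - A * 2 ^ (N - a), ?_, ?_, ?_⟩
  · rw [add_mul, one_mul] at h6
    omega
  · rw [Nat.add_sub_cancel' h5, div_le_iff₀ (by positivity)]
    exact Nat.floor_le (by positivity)
  · rw [Nat.add_sub_cancel' h5, lt_div_iff₀ (by positivity)]
    exact Nat.lt_floor_add_one _

lemma lint_union (s : Finset ℕ) (t : ℕ → Set ℝ) (f : ℝ → ENNReal) :
    ∫⁻ x in ⋃ r ∈ s, t r, f x ≤ ∑ r ∈ s, ∫⁻ x in t r, f x := by
  classical
  induction s using Finset.induction_on with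
  | empty => simp
  | insert r s hr ih =>
    rw [Finset.set_biUnion_insert, sum_insert hr]
    exact (lintegral_union_le _ _ _).trans (add_le_add le_rfl ih)

/-- integrals of functions of the prefix -/
lemma lint_le (a A N : ℕ) (hN : a ≤ N) (F : ℕ → ℝ) (hF : ∀ k, 0 ≤ F k) :
    ∫⁻ x in cell a A, ENNReal.ofReal (F ⌊x * 2 ^ N⌋₊) ≤ ENNReal.ofReal (ce (N - a) F A) := by
  refine (lintegral_mono_set (cell_subset a A N hN)).trans ?_
  refine (lint_union _ _ _).trans ?_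
  have h1 : ∀ r ∈ range (2 ^ (N - a)), ∫⁻ x in Set.Ico (((A * 2 ^ (N - a) + r : ℕ) : ℝ) / 2 ^ N)
      (((A * 2 ^ (N - a) + r : ℕ) + 1 : ℝ) / 2 ^ N), ENNReal.ofReal (F ⌊x * 2 ^ N⌋₊) =
      ENNReal.ofReal (F (A * 2 ^ (N - a) + r) * (1 / 2 ^ N)) := by
    intro r _
    set k := A * 2 ^ (N - a) + r with hk
    have h2 : ∫⁻ x in Set.Ico ((k : ℝ) / 2 ^ N) (((k : ℝ) + 1) / 2 ^ N),
        ENNReal.ofReal (F ⌊x * 2 ^ N⌋₊) =
        ∫⁻ x in Set.Ico ((k : ℝ) / 2 ^ N) (((k : ℝ) + 1) / 2 ^ N), ENNReal.ofReal (F k) := by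
      refine setLIntegral_congr_fun measurableSet_Ico fun x hx => ?_
      have h3 : ⌊x * 2 ^ N⌋₊ = k := by
        have h4 := (div_le_iff₀ (by positivity)).1 hx.1
        have h5 := (lt_div_iff₀ (by positivity)).1 hx.2
        rw [Nat.floor_eq_iff (le_trans (by positivity) h4)]
        exact ⟨h4, h5⟩
      simp only [h3]
    rw [h2, setLIntegral_const, Real.volume_Ico, ← ENNReal.ofReal_mul (hF _)]
    congr 2
    field_simp
    ring
  rw [sum_congr rfl h1, ← ENNReal.ofReal_sum_of_nonneg (fun _ _ => mul_nonneg (hF _) (by positivity))]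
  apply ENNReal.ofReal_le_ofReal
  unfold ce
  rw [← sum_mul, mul_one_div]
  have h6 : (2 : ℝ) ^ (N - a) ≤ 2 ^ N := pow_le_pow_right₀ (by norm_num) (by omega)
  exact div_le_div_of_nonneg_left (sum_nonneg fun _ _ => hF _) (by positivity) h6

lemma floor_pre (x : ℝ) (n N : ℕ) (h : n ≤ N) : ⌊x * 2 ^ N⌋₊ / 2 ^ (N - n) = ⌊x * 2 ^ n⌋₊ := by
  have h1 := Nat.floor_div_natCast (x * 2 ^ N) (2 ^ (N - n))
  rw [← h1]
  congr 1
  push_cast
  have h2 : (2 : ℝ) ^ N = 2 ^ n * 2 ^ (N - n) := by rw [← pow_add]; congr 1; omega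
  rw [h2]
  field_simp

lemma ae_tendsto (a A : ℕ) (N : ℕ → ℕ) (hN : ∀ j, a ≤ N j) (F : ℕ → ℕ → ℝ) (hF : ∀ j k, 0 ≤ F j k)
    (b : ℕ → ℝ) (hb : ∀ j, ce (N j - a) (F j) A ≤ b j) (hs : Summable b) :
    ∀ᵐ x : ℝ, x ∈ cell a A → Tendsto (fun j => F j ⌊x * 2 ^ (N j)⌋₊) atTop (𝓝 0) := by
  have hmeas : ∀ j, Measurable (fun x : ℝ => ENNReal.ofReal (F j ⌊x * 2 ^ (N j)⌋₊)) := by
    intro j
    refine ENNReal.measurable_ofReal.comp ?_
    refine (measurable_from_nat (f := F j)).comp ?_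
    exact Nat.measurable_floor.comp (measurable_id.mul_const _)
  have hb0 : ∀ j, 0 ≤ b j := fun j => (ce_nonneg _ _ (hF j)).trans (hb j)
  have h1 : ∑' j, ∫⁻ x in cell a A, ENNReal.ofReal (F j ⌊x * 2 ^ (N j)⌋₊) ≠ ⊤ := by
    refine ne_top_of_le_ne_top ?_ (ENNReal.tsum_le_tsum fun j =>
      (lint_le a A (N j) (hN j) (F j) (hF j)).trans (ENNReal.ofReal_le_ofReal (hb j)))
    exact hs.tsum_ofReal_ne_top
  rw [← lintegral_tsum fun j => (hmeas j).aemeasurable] at h1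
  have h2 := ae_lt_top (Measurable.tsum hmeas) h1
  have hcell : MeasurableSet (cell a A) := measurableSet_Ico
  rw [ae_restrict_iff' hcell] at h2
  filter_upwards [h2] with x hx hxc
  have h3 := ENNReal.tendsto_atTop_zero_of_tsum_ne_top (hx hxc).ne
  have h4 := (ENNReal.tendsto_toReal ENNReal.zero_ne_top).comp h3
  simp only [ENNReal.toReal_zero] at h4
  refine h4.congr fun j => ?_
  simp only [Function.comp]
  exact ENNReal.toReal_ofReal (hF _ _)

end Pool.Agent.V8H9.DP
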