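import Mathlib
import Pool.Agent.V8H9.DP.Avg

/-! The logarithmic law of large numbers along the binary prefixes. -/

set_option autoImplicit false

namespace Pool.Agent.V8H9.DP

open Finset Filter Topology MeasureTheory

theorem lln (K : ℕ) (hK : 1 ≤ K) (G : ℕ → ℕ → ℝ) (n0 a A : ℕ) (C : ℝ) (hC0 : 0 ≤ C) (hn0 : 1 ≤ n0)
    (ha : a ≤ n0 / K) (hC : ∀ n, n0 ≤ n → ce (n - a) (fun k => G n k ^ 2) A ≤ C) :
    ∀ᵐ x : ℝ, x ∈ cell a A → Tendsto (fun j : ℕ => (∑ n ∈ Icc n0 (2 ^ (j ^ 2)),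
      (G n ⌊x * 2 ^ n⌋₊ - ce (n - n / K) (G n) ⌊x * 2 ^ (n / K)⌋₊) / n) / (j : ℝ) ^ 2) atTop (𝓝 0) := by
  set N : ℕ → ℕ := fun j => 2 ^ ((j + (a + 1)) ^ 2) with hN
  have hNa : ∀ j, a ≤ N j := by
    intro j
    have h1 : (j + (a + 1)) ^ 2 < 2 ^ ((j + (a + 1)) ^ 2) := Nat.lt_two_pow_self
    have h2 := Nat.le_self_pow two_ne_zero (j + (a + 1))
    simp only [hN]
    omega
  set F : ℕ → ℕ → ℝ := fun j k => (ss K G n0 (N j) k / ((j + (a + 1) : ℕ) : ℝ) ^ 2) ^ 2 with hF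
  have hK1 : (1 : ℝ) ≤ K := by exact_mod_cast hK
  have h1 := ae_tendsto a A N hNa F (fun _ _ => by positivity)
    (fun j => 8 * C * K ^ 2 * (1 / (((j + (a + 1) : ℕ) : ℝ)) ^ 2)) (by
      intro j
      set t : ℝ := ((j + (a + 1) : ℕ) : ℝ) with ht
      have ht1 : 1 ≤ t := by rw [ht]; push_cast; linarith [(Nat.cast_nonneg j : (0:ℝ) ≤ j), (Nat.cast_nonneg a : (0:ℝ) ≤ a)]
      have h2 := ss_var K hK G n0 (N j) a A C hC0 hn0 ha hC
      have e1 : ce (N j - a) (F j) A = (1 / t ^ 4) * ce (N j - a) (fun k => ss K G n0 (N j) k ^ 2) A := by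
        rw [← ce_smul]
        congr 1
        funext k
        simp only [hF]
        rw [← ht]
        field_simp
      have e2 : Real.log (N j : ℝ) = t ^ 2 * Real.log 2 := by
        simp only [hN]
        push_cast
        rw [Real.log_pow, ht]
        push_cast
        ring
      rw [e1]
      rw [e2] at h2
      have hl : Real.log 2 ≤ 1 := by
        have := Real.log_two_lt_d9
        linarith
      have h3 : 4 * C * (K : ℝ) ^ 2 * (1 + t ^ 2 * Real.log 2) ≤ 4 * C * (K : ℝ) ^ 2 * (2 * t ^ 2) := by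
        apply mul_le_mul_of_nonneg_left _ (by positivity)
        nlinarith
      calc (1 / t ^ 4) * ce (N j - a) (fun k => ss K G n0 (N j) k ^ 2) A
          ≤ (1 / t ^ 4) * (4 * C * (K : ℝ) ^ 2 * (2 * t ^ 2)) :=
            mul_le_mul_of_nonneg_left (h2.trans h3) (by positivity)
        _ = _ := by field_simp; ring)
    (by
      apply Summable.mul_left
      have := (summable_nat_add_iff (f := fun n : ℕ => 1 / (n : ℝ) ^ 2) (a + 1)).2
        (Real.summable_one_div_nat_pow.2 (by norm_num))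
      exact this)
  filter_upwards [h1] with x hx hxc
  have h2 := hx hxc
  have h3 : Tendsto (fun j => ss K G n0 (N j) ⌊x * 2 ^ (N j)⌋₊ / ((j + (a + 1) : ℕ) : ℝ) ^ 2) atTop (𝓝 0) := by
    rw [tendsto_zero_iff_abs_tendsto_zero]
    have h4 := (Real.continuous_sqrt.tendsto 0).comp h2
    rw [Real.sqrt_zero] at h4
    refine h4.congr fun j => ?_
    simp only [Function.comp, hF]
    rw [Real.sqrt_sq_eq_abs]
  rw [← tendsto_add_atTop_iff_nat (a + 1)]
  refine h3.congr fun j => ?_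
  congr 1
  unfold ss
  refine sum_congr rfl fun n hn => ?_
  rw [mem_Icc] at hn
  unfold dd
  rw [floor_pre x n (N j) hn.2, floor_pre x (n / K) n (Nat.div_le_self _ _)]

/-- interpolation, lower bounds -/
lemma interp_lb (f : ℕ → ℝ) (hf : Monotone f) (c : ℝ) (hc : 0 < c)
    (h : ∀ᶠ j : ℕ in atTop, c * (j : ℝ) ^ 2 ≤ f (2 ^ (j ^ 2))) :
    ∀ᶠ N : ℕ in atTop, (c / 4) * Real.log N ≤ f N := by
  obtain ⟨j0, hj0⟩ := eventually_atTop.1 h
  filter_upwards [eventually_ge_atTop (2 ^ ((j0 + 1) ^ 2))] with N hN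
  have hN1 : 1 ≤ N := le_trans Nat.one_le_two_pow hN
  set j := Nat.sqrt (Nat.log 2 N) with hj
  have h1 : j ^ 2 ≤ Nat.log 2 N := by rw [hj, sq]; exact Nat.sqrt_le _
  have h2 : Nat.log 2 N < (j + 1) ^ 2 := by rw [hj, sq]; exact Nat.lt_succ_sqrt _
  have h3 : 2 ^ (j ^ 2) ≤ N := (Nat.pow_le_pow_right (by norm_num) h1).trans
    (Nat.pow_log_le_self 2 (by omega))
  have h4 : N < 2 ^ ((j + 1) ^ 2) := by
    refine (Nat.lt_pow_succ_log_self (by norm_num : 1 < 2) N).trans_le ?_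
    exact Nat.pow_le_pow_right (by norm_num) h2
  have h5 : j0 + 1 ≤ j := by
    have h6 : (j0 + 1) ^ 2 ≤ Nat.log 2 N := (Nat.le_log_iff_pow_le (by norm_num) (by omega)).2 hN
    rw [hj, Nat.le_sqrt']
    exact h6
  have h6 := hj0 j (by omega)
  have hj1 : (1 : ℝ) ≤ j := by exact_mod_cast (by omega : 1 ≤ j)
  have h7 : Real.log N ≤ (j + 1 : ℝ) ^ 2 := by
    have h8 : Real.log N ≤ Real.log ((2 : ℝ) ^ ((j + 1) ^ 2)) := by
      apply Real.log_le_log (by exact_mod_cast hN1)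
      exact_mod_cast h4.le
    rw [Real.log_pow] at h8
    push_cast at h8
    have hl : Real.log 2 ≤ 1 := by
      have := Real.log_two_lt_d9
      linarith
    have : ((j : ℝ) + 1) ^ 2 * Real.log 2 ≤ ((j : ℝ) + 1) ^ 2 * 1 :=
      mul_le_mul_of_nonneg_left hl (by positivity)
    linarith
  have h9 : (c / 4) * Real.log N ≤ c * (j : ℝ) ^ 2 := by
    have : (j + 1 : ℝ) ^ 2 ≤ 4 * (j : ℝ) ^ 2 := by nlinarith
    nlinarith
  exact h9.trans (h6.trans (hf h3))

end Pool.Agent.V8H9.DP
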