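import Mathlib
import Pool.Agent.R105.GD.Pairs
import Pool.Agent.H295R3.Hoheisel

/-! Short intervals around the integers of a window: first and second moments. -/

set_option autoImplicit false

namespace Pool.Agent.V8H9.DP

open Finset Filter Topology Pool.Agent.Y851.DK Pool.Agent.R105.GD

/-- number of primes in `(l, l + h]` -/
def rr (h l : ℕ) : ℕ := ((Ioc l (l + h)).filter Nat.Prime).card

lemma rr_eq (h l : ℕ) : (rr h l : ℝ) = ∑ i ∈ Icc 1 h, if (l + i).Prime then (1 : ℝ) else 0 := by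
  rw [← sum_filter, sum_const, nsmul_eq_mul, mul_one]
  unfold rr
  congr 1
  apply card_bij' (fun p _ => p - l) (fun i _ => l + i)
  · intro p hp
    rw [mem_filter, mem_Ioc] at hp
    rw [mem_filter, mem_Icc]
    have : l + (p - l) = p := by omega
    rw [this]
    exact ⟨by omega, hp.2⟩
  · intro i hi
    rw [mem_filter, mem_Icc] at hi
    rw [mem_filter, mem_Ioc]
    exact ⟨by omega, hi.2⟩
  · intro p hp
    rw [mem_filter, mem_Ioc] at hp
    omega
  · intro i hi
    omega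

/-- pairs of primes at a fixed distance, in a short interval anywhere -/
lemma pair_shift : ∃ C : ℝ, 1 ≤ C ∧ ∀ᶠ Y : ℕ in atTop, ∀ b d : ℕ, 1 ≤ d →
    (((Icc 1 Y).filter (fun n : ℕ => (n + b).Prime ∧ (n + b + d).Prime)).card : ℝ)
      ≤ C * Real.exp (C * sg d) * (Y / Real.log Y ^ 2) := by
  classical
  obtain ⟨C, hC, hh⟩ := Pool.Agent.Y949.DK.t_SV 2
  refine ⟨2 * C, by linarith, ?_⟩
  have h2 := (tendsto_natCast_atTop_atTop (R := ℝ)).eventually hh
  filter_upwards [h2, eventually_ge_atTop 2] with Y hY hY2 b d hd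
  set F : Finset (ℤ × ℤ) := {(1, (b : ℤ)), (1, (b : ℤ) + d)} with hF
  have hne : ((1 : ℤ), (b : ℤ)) ≠ (1, (b : ℤ) + d) := by
    intro h0
    have := congrArg Prod.snd h0
    simp only at this
    omega
  have h3 := hY F (by rw [hF, card_pair hne]) (by
      intro f hf
      rw [hF, mem_insert, mem_singleton] at hf
      rcases hf with rfl | rfl <;> simp) (by
      intro f hf g hg hfg
      rw [hF, mem_insert, mem_singleton] at hf hg
      rcases hf with rfl | rfl <;> rcases hg with rfl | rfl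
      · exact absurd rfl hfg
      · simp only; omega
      · simp only; omega
      · exact absurd rfl hfg)
  rw [Nat.floor_natCast] at h3
  have hs1 : sg 1 = 0 := by unfold sg; simp
  have hs0 : sg 0 = 0 := by unfold sg; simp
  have hsum : ∑ f ∈ F, sg f.1.natAbs + ∑ f ∈ F, ∑ g ∈ F,
      sg (f.1 * g.2 - g.1 * f.2).natAbs = 2 * sg d := by
    rw [hF, sum_pair hne, sum_pair hne, sum_pair hne, sum_pair hne]
    simp only [Int.natAbs_one, one_mul, sub_self, Int.natAbs_zero, hs1, hs0]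
    have e1 : ((b : ℤ) + d - b).natAbs = d := by omega
    have e2 : ((b : ℤ) - (b + d)).natAbs = d := by omega
    rw [e1, e2]
    ring
  rw [hsum] at h3
  have hcard : (((Icc 1 Y).filter (fun n : ℕ => (n + b).Prime ∧ (n + b + d).Prime)).card : ℝ) ≤
      (((Icc 1 Y).filter (fun n : ℕ => ∀ f ∈ F, (f.1 * (n : ℤ) + f.2).toNat.Prime)).card : ℝ) := by
    rw [Nat.cast_le]
    apply card_le_card
    intro n hn
    rw [mem_filter] at hn ⊢
    refine ⟨hn.1, fun f hf => ?_⟩
    rw [hF, mem_insert, mem_singleton] at hf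
    rcases hf with rfl | rfl
    · have : ((1 : ℤ) * (n : ℤ) + (b : ℤ)).toNat = n + b := by omega
      simp only [this]
      exact hn.2.1
    · have : ((1 : ℤ) * (n : ℤ) + ((b : ℤ) + d)).toNat = n + b + d := by omega
      simp only [this]
      exact hn.2.2
  refine hcard.trans (h3.trans ?_)
  have hY2' : (2 : ℝ) ≤ Y := by exact_mod_cast hY2
  have hlog : 0 < Real.log Y := Real.log_pos (by linarith)
  apply mul_le_mul_of_nonneg_right _ (by positivity)
  have e3 : C * (2 * sg d) = 2 * C * sg d := by ring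
  rw [e3]
  have := Real.exp_pos (2 * C * sg d)
  nlinarith

/-- primes in a short interval anywhere -/
lemma single_shift : ∃ C : ℝ, 1 ≤ C ∧ ∀ᶠ Y : ℕ in atTop, ∀ b : ℕ,
    (((Icc 1 Y).filter (fun n : ℕ => (n + b).Prime)).card : ℝ) ≤ C * (Y / Real.log Y) := by
  classical
  obtain ⟨C, hC, hh⟩ := Pool.Agent.Y949.DK.t_SV 1
  refine ⟨C, hC, ?_⟩
  have h2 := (tendsto_natCast_atTop_atTop (R := ℝ)).eventually hh
  filter_upwards [h2, eventually_ge_atTop 2] with Y hY hY2 b
  set F : Finset (ℤ × ℤ) := {(1, (b : ℤ))} with hF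
  have h3 := hY F (by rw [hF, card_singleton]) (by
      intro f hf
      rw [hF, mem_singleton] at hf
      subst hf; simp) (by
      intro f hf g hg hfg
      rw [hF, mem_singleton] at hf hg
      exact absurd (hf.trans hg.symm) hfg)
  rw [Nat.floor_natCast] at h3
  have hs1 : sg 1 = 0 := by unfold sg; simp
  have hs0 : sg 0 = 0 := by unfold sg; simp
  have hsum : ∑ f ∈ F, sg f.1.natAbs + ∑ f ∈ F, ∑ g ∈ F,
      sg (f.1 * g.2 - g.1 * f.2).natAbs = 0 := by
    rw [hF, sum_singleton, sum_singleton, sum_singleton]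
    simp [hs1, hs0]
  rw [hsum, mul_zero, Real.exp_zero, mul_one, pow_one] at h3
  refine le_trans ?_ h3
  rw [Nat.cast_le]
  apply card_le_card
  intro n hn
  rw [mem_filter] at hn ⊢
  refine ⟨hn.1, fun f hf => ?_⟩
  rw [hF, mem_singleton] at hf
  subst hf
  have : ((1 : ℤ) * (n : ℤ) + (b : ℤ)).toNat = n + b := by omega
  simp only [this]
  exact hn.2

/-- reindexing of the window -/
lemma win_count (X Y i : ℕ) (hi : 1 ≤ i) (Q : ℕ → Prop) [DecidablePred Q] :
    ∑ l ∈ Ico X (X + Y), (if Q (l + i) then (1 : ℝ) else 0) =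
      (((Icc 1 Y).filter (fun n : ℕ => Q (n + (X + i - 1)))).card : ℝ) := by
  rw [← sum_filter, sum_const, nsmul_eq_mul, mul_one]
  congr 1
  apply card_bij' (fun l _ => l - X + 1) (fun n _ => n + X - 1)
  · intro l hl
    rw [mem_filter, mem_Ico] at hl
    rw [mem_filter, mem_Icc]
    have : l - X + 1 + (X + i - 1) = l + i := by omega
    rw [this]
    exact ⟨by omega, hl.2⟩
  · intro n hn
    rw [mem_filter, mem_Icc] at hn
    rw [mem_filter, mem_Ico]
    have : n + X - 1 + i = n + (X + i - 1) := by omega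
    rw [this]
    exact ⟨by omega, hn.2⟩
  · intro l hl
    rw [mem_filter, mem_Ico] at hl
    omega
  · intro n hn
    rw [mem_filter, mem_Icc] at hn
    omega

/-- second moment in a window -/
lemma mom2_raw : ∃ C : ℝ, 1 ≤ C ∧ ∀ᶠ Y : ℕ in atTop, ∀ X h : ℕ,
    ∑ l ∈ Ico X (X + Y), (rr h l : ℝ) ^ 2 ≤
      C * (h * (Y / Real.log Y) + (h : ℝ) ^ 2 * (Y / Real.log Y ^ 2)) := by
  classical
  obtain ⟨C1, hC1, hs⟩ := single_shift
  obtain ⟨C2, hC2, hp⟩ := pair_shift
  obtain ⟨C3, hC3, hav⟩ := exp_avg C2 (by linarith)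
  refine ⟨C1 + 2 * C2 * C3, by nlinarith, ?_⟩
  filter_upwards [hs, hp, eventually_ge_atTop 2] with Y hY1 hY2 hYge X h
  have hY2' : (2 : ℝ) ≤ Y := by exact_mod_cast hYge
  have hlog : 0 < Real.log Y := Real.log_pos (by linarith)
  set U : ℝ := Y / Real.log Y with hU
  set V : ℝ := Y / Real.log Y ^ 2 with hV
  have hU0 : 0 < U := by rw [hU]; positivity
  have hV0 : 0 < V := by rw [hV]; positivity
  have e1 : ∑ l ∈ Ico X (X + Y), (rr h l : ℝ) ^ 2 = ∑ i ∈ Icc 1 h, ∑ i' ∈ Icc 1 h,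
      ∑ l ∈ Ico X (X + Y), (if (l + i).Prime then (1 : ℝ) else 0) *
        (if (l + i').Prime then (1 : ℝ) else 0) := by
    have : ∀ l ∈ Ico X (X + Y), (rr h l : ℝ) ^ 2 = ∑ i ∈ Icc 1 h, ∑ i' ∈ Icc 1 h,
        (if (l + i).Prime then (1 : ℝ) else 0) * (if (l + i').Prime then (1 : ℝ) else 0) := by
      intro l _
      rw [rr_eq, sq, sum_mul_sum]
    rw [sum_congr rfl this, sum_comm]
    refine sum_congr rfl fun i _ => ?_
    rw [sum_comm]
  -- a pair with `i < i'`
  have hlt : ∀ i i' : ℕ, 1 ≤ i → i < i' → ∑ l ∈ Ico X (X + Y),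
      (if (l + i).Prime then (1 : ℝ) else 0) * (if (l + i').Prime then (1 : ℝ) else 0) ≤
      C2 * Real.exp (C2 * sg (i' - i)) * V := by
    intro i i' hi hii
    have h1 := hY2 (X + i - 1) (i' - i) (by omega)
    refine le_trans (le_of_eq ?_) h1
    rw [← win_count X Y i hi (fun n => n.Prime ∧ (n + (i' - i)).Prime)]
    refine sum_congr rfl fun l _ => ?_
    have : l + i + (i' - i) = l + i' := by omega
    rw [this]
    by_cases h1 : (l + i).Prime <;> by_cases h2 : (l + i').Prime <;> simp [h1, h2]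
  have hrow : ∀ i ∈ Icc 1 h, ∑ i' ∈ Icc 1 h, ∑ l ∈ Ico X (X + Y),
      (if (l + i).Prime then (1 : ℝ) else 0) * (if (l + i').Prime then (1 : ℝ) else 0) ≤
      C1 * U + 2 * (C2 * C3) * (h * V) := by
    intro i hi
    rw [mem_Icc] at hi
    have hterm : ∀ i' ∈ Icc 1 h, ∑ l ∈ Ico X (X + Y),
        (if (l + i).Prime then (1 : ℝ) else 0) * (if (l + i').Prime then (1 : ℝ) else 0) ≤
        (if i' = i then C1 * U else 0) + ((if i < i' then C2 * Real.exp (C2 * sg (i' - i)) * V else 0) +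
          (if i' < i then C2 * Real.exp (C2 * sg (i - i')) * V else 0)) := by
      intro i' hi'
      rw [mem_Icc] at hi'
      rcases lt_trichotomy i i' with h1 | h1 | h1
      · rw [if_neg (by omega), if_pos h1, if_neg (by omega)]
        have := hlt i i' hi.1 h1
        linarith
      · subst h1
        rw [if_pos rfl, if_neg (by omega)]
        have h2 := hY1 (X + i - 1)
        rw [← win_count X Y i hi.1 (fun n => n.Prime)] at h2
        have h3 : ∑ l ∈ Ico X (X + Y), (if (l + i).Prime then (1 : ℝ) else 0) *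
            (if (l + i).Prime then (1 : ℝ) else 0) =
            ∑ l ∈ Ico X (X + Y), (if (l + i).Prime then (1 : ℝ) else 0) := by
          refine sum_congr rfl fun l _ => ?_
          split_ifs <;> simp
        rw [h3]
        linarith
      · rw [if_neg (by omega), if_neg (by omega), if_pos h1]
        have h2 := hlt i' i hi'.1 h1
        have h3 : ∑ l ∈ Ico X (X + Y), (if (l + i).Prime then (1 : ℝ) else 0) *
            (if (l + i').Prime then (1 : ℝ) else 0) = ∑ l ∈ Ico X (X + Y),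
            (if (l + i').Prime then (1 : ℝ) else 0) * (if (l + i).Prime then (1 : ℝ) else 0) :=
          sum_congr rfl fun l _ => mul_comm _ _
        rw [h3]
        linarith
    refine (sum_le_sum hterm).trans ?_
    rw [sum_add_distrib, sum_add_distrib, sum_ite_eq' (Icc 1 h) i, if_pos (mem_Icc.2 hi),
      ← sum_filter, ← sum_filter]
    have hg : ∀ s : Finset ℕ, ∀ f : ℕ → ℕ, (∀ x ∈ s, f x ∈ Icc 1 h) → Set.InjOn f s →
        ∑ x ∈ s, C2 * Real.exp (C2 * sg (f x)) * V ≤ C2 * C3 * (h * V) := by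
      intro s f hf hinj
      rw [← sum_mul, ← mul_sum]
      have h4 : ∑ x ∈ s, Real.exp (C2 * sg (f x)) ≤ ∑ y ∈ Icc 1 h, Real.exp (C2 * sg y) := by
        rw [← sum_image (f := fun y => Real.exp (C2 * sg y)) hinj]
        apply sum_le_sum_of_subset_of_nonneg
        · intro y hy
          rw [mem_image] at hy
          obtain ⟨x, hx, rfl⟩ := hy
          exact hf x hx
        · intro _ _ _
          exact (Real.exp_pos _).le
      have h5 := h4.trans (hav h)
      calc C2 * (∑ x ∈ s, Real.exp (C2 * sg (f x))) * V ≤ C2 * (C3 * h) * V := by gcongr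
        _ = _ := by ring
    have h6 := hg ((Icc 1 h).filter (fun i' => i < i')) (fun i' => i' - i) (by
      intro x hx
      rw [mem_filter, mem_Icc] at hx
      rw [mem_Icc]
      omega) (by
      intro x hx y hy hxy
      rw [mem_coe, mem_filter, mem_Icc] at hx hy
      simp only at hxy
      omega)
    have h7 := hg ((Icc 1 h).filter (fun i' => i' < i)) (fun i' => i - i') (by
      intro x hx
      rw [mem_filter, mem_Icc] at hx
      rw [mem_Icc]
      omega) (by
      intro x hx y hy hxy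
      rw [mem_coe, mem_filter, mem_Icc] at hx hy
      simp only at hxy
      omega)
    linarith
  rw [e1]
  refine (sum_le_sum hrow).trans ?_
  rw [sum_const, Nat.card_Icc, nsmul_eq_mul, Nat.add_sub_cancel]
  have hh0 : (0 : ℝ) ≤ h := Nat.cast_nonneg h
  have h8 : 0 ≤ (h : ℝ) * U := by positivity
  have h9 : 0 ≤ (h : ℝ) ^ 2 * V := by positivity
  have h10 : 0 ≤ C2 * C3 := by positivity
  nlinarith [mul_nonneg h10 h8, mul_nonneg (by linarith : 0 ≤ C1) h9]

/-- second moment in a dyadic window -/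
lemma mom2 (lam : ℝ) (hlam : 0 < lam) : ∃ C : ℝ, 0 < C ∧ ∀ᶠ n : ℕ in atTop, ∀ m X h : ℕ,
    2 * m ≤ n → lam * n ≤ h →
    ∑ l ∈ Ico X (X + 2 ^ (n - m)), (rr h l : ℝ) ^ 2 ≤ C * ((h : ℝ) / n) ^ 2 * 2 ^ (n - m) := by
  obtain ⟨C, hC, hraw⟩ := mom2_raw
  refine ⟨C * (3 / lam + 9), by positivity, ?_⟩
  obtain ⟨Y0, hY0⟩ := eventually_atTop.1 hraw
  filter_upwards [eventually_ge_atTop (2 * Y0 + 4)] with n hn m X h hm hh
  have hnm : n ≤ 2 * (n - m) := by omega
  have h1 : Y0 ≤ 2 ^ (n - m) := by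
    have := (Nat.lt_two_pow_self (n := n - m)).le
    omega
  have h2 := hY0 (2 ^ (n - m)) h1 X h
  refine h2.trans ?_
  have hn0 : (0 : ℝ) < n := by exact_mod_cast (by omega : 0 < n)
  have hh0 : (0 : ℝ) < h := lt_of_lt_of_le (by positivity) hh
  have hlog : (n : ℝ) / 3 ≤ Real.log ((2 ^ (n - m) : ℕ) : ℝ) := by
    push_cast
    rw [Real.log_pow]
    have h3 : (n : ℝ) ≤ 2 * ((n - m : ℕ) : ℝ) := by exact_mod_cast hnm
    have h4 := Real.log_two_gt_d9
    nlinarith
  have hY : ((2 ^ (n - m) : ℕ) : ℝ) = 2 ^ (n - m) := by push_cast; rfl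
  set Y : ℝ := 2 ^ (n - m) with hYdef
  rw [hY] at hlog ⊢
  have hYpos : 0 < Y := by rw [hYdef]; positivity
  have hL : 0 < Real.log Y := lt_of_lt_of_le (by positivity) hlog
  have h5 : Y / Real.log Y ≤ 3 * Y / n := by
    rw [div_le_div_iff₀ hL hn0]
    nlinarith
  have h6 : Y / Real.log Y ^ 2 ≤ 9 * Y / n ^ 2 := by
    rw [div_le_div_iff₀ (by positivity) (by positivity)]
    have : (n : ℝ) ^ 2 ≤ 9 * Real.log Y ^ 2 := by nlinarith
    nlinarith
  have h7 : (h : ℝ) * (Y / Real.log Y) ≤ (3 / lam) * (((h : ℝ) / n) ^ 2 * Y) := by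
    calc (h : ℝ) * (Y / Real.log Y) ≤ h * (3 * Y / n) := mul_le_mul_of_nonneg_left h5 hh0.le
      _ = (3 / lam) * ((h * Y / n ^ 2) * (lam * n)) := by field_simp
      _ ≤ (3 / lam) * ((h * Y / n ^ 2) * h) := by
        apply mul_le_mul_of_nonneg_left _ (by positivity)
        exact mul_le_mul_of_nonneg_left hh (by positivity)
      _ = _ := by field_simp
  have h8 : (h : ℝ) ^ 2 * (Y / Real.log Y ^ 2) ≤ 9 * (((h : ℝ) / n) ^ 2 * Y) := by
    calc (h : ℝ) ^ 2 * (Y / Real.log Y ^ 2) ≤ h ^ 2 * (9 * Y / n ^ 2) :=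
          mul_le_mul_of_nonneg_left h6 (by positivity)
      _ = _ := by field_simp
  calc C * (h * (Y / Real.log Y) + (h : ℝ) ^ 2 * (Y / Real.log Y ^ 2))
      ≤ C * ((3 / lam) * (((h : ℝ) / n) ^ 2 * Y) + 9 * (((h : ℝ) / n) ^ 2 * Y)) :=
        mul_le_mul_of_nonneg_left (add_le_add h7 h8) (by linarith)
    _ = _ := by ring

/-- first moment in a window -/
lemma mom1_eq (X Y h : ℕ) : ∑ l ∈ Ico X (X + Y), (rr h l : ℝ) =
    ∑ i ∈ Icc 1 h, (((Ioc (X + i - 1) (X + i - 1 + Y)).filter Nat.Prime).card : ℝ) := by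
  have : ∀ l ∈ Ico X (X + Y), (rr h l : ℝ) = ∑ i ∈ Icc 1 h, if (l + i).Prime then (1 : ℝ) else 0 :=
    fun l _ => rr_eq h l
  rw [sum_congr rfl this, sum_comm]
  refine sum_congr rfl fun i hi => ?_
  rw [mem_Icc] at hi
  rw [win_count X Y i hi.1 (fun n => n.Prime)]
  have h1 := rr_eq Y (X + i - 1)
  unfold rr at h1
  rw [h1, ← sum_filter, sum_const, nsmul_eq_mul, mul_one]
  congr 2
  ext n
  rw [mem_filter, mem_filter, add_comm n]

/-- lower bound for the first moment in a dyadic window -/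
lemma mom1 : ∃ (η : ℝ) (K : ℕ), 0 < η ∧ 2 ≤ K ∧ ∀ B : ℕ, ∀ᶠ n : ℕ in atTop, ∀ X h : ℕ,
    h ≤ 2 ^ n → 2 ^ n ≤ 2 ^ B * X → X ≤ 2 ^ (n + B) →
    η * (h / n) * 2 ^ (n - n / K) ≤ ∑ l ∈ Ico X (X + 2 ^ (n - n / K)), (rr h l : ℝ) := by
  obtain ⟨δ, η, hδ, hδ1, hη, X0, hX0, hH⟩ := Pool.Agent.H295R3.D.hoheisel
  obtain ⟨K, hK⟩ := exists_nat_gt (max 2 (2 / δ))
  have hK2 : (2 : ℝ) < K := lt_of_le_of_lt (le_max_left _ _) hK
  have hKδ : 2 / δ < K := lt_of_le_of_lt (le_max_right _ _) hK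
  have hK2' : 2 < K := by exact_mod_cast hK2
  refine ⟨η, K, hη, hK2'.le, fun B => ?_⟩
  have t1 : ∀ᶠ n : ℕ in atTop, 2 * ((B : ℝ) + 1) / δ ≤ n :=
    (tendsto_natCast_atTop_atTop (R := ℝ)).eventually (eventually_ge_atTop _)
  filter_upwards [t1, eventually_ge_atTop (K * (B + 1)), eventually_ge_atTop (X0 + B + 4),
    eventually_ge_atTop (3 * (B + 1))] with n hn1 hn2 hn3 hn4 X h hh hX1 hX2
  have hm : B + 1 ≤ n / K := by
    rw [Nat.le_div_iff_mul_le (by omega), mul_comm]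
    exact hn2
  have hmn : n / K ≤ n := Nat.div_le_self _ _
  set Y := 2 ^ (n - n / K) with hY
  rw [mom1_eq]
  have hYX : Y ≤ X := by
    have h1 : 2 ^ B * Y ≤ 2 ^ B * X := by
      refine le_trans ?_ hX1
      rw [hY, ← pow_add]
      exact Nat.pow_le_pow_right (by norm_num) (by omega)
    exact Nat.le_of_mul_le_mul_left h1 (by positivity)
  have hX0' : X0 ≤ X := by
    have h1 : 2 ^ B * X0 ≤ 2 ^ B * X := by
      refine le_trans ?_ hX1
      have h2 : X0 ≤ 2 ^ (n - B) := (by omega : X0 ≤ n - B).trans (Nat.lt_two_pow_self (n := n - B)).le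
      calc 2 ^ B * X0 ≤ 2 ^ B * 2 ^ (n - B) := Nat.mul_le_mul_left _ h2
        _ = 2 ^ n := by rw [← pow_add]; congr 1; omega
    exact Nat.le_of_mul_le_mul_left h1 (by positivity)
  have hn0 : (0 : ℝ) < n := by exact_mod_cast (by omega : 0 < n)
  have hterm : ∀ i ∈ Icc 1 h, η * (Y : ℝ) / n ≤
      (((Ioc (X + i - 1) (X + i - 1 + Y)).filter Nat.Prime).card : ℝ) := by
    intro i hi
    rw [mem_Icc] at hi
    set Z := X + i - 1 with hZ
    have hZX : X ≤ Z := by omega
    have hZ2 : Z ≤ 2 ^ (n + B + 1) := by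
      have : 2 ^ n ≤ 2 ^ (n + B) := Nat.pow_le_pow_right (by norm_num) (by omega)
      have h2 : 2 ^ (n + B + 1) = 2 ^ (n + B) + 2 ^ (n + B) := by rw [pow_succ]; ring
      omega
    have hZ1 : 1 ≤ Z := by omega
    have hZr : (1 : ℝ) ≤ Z := by exact_mod_cast hZ1
    have hZ2r : (Z : ℝ) ≤ (2 : ℝ) ^ ((n + B + 1 : ℕ) : ℝ) := by
      rw [Real.rpow_natCast]
      exact_mod_cast hZ2
    have hpow : (Z : ℝ) ^ (1 - δ) ≤ Y := by
      calc (Z : ℝ) ^ (1 - δ) ≤ ((2 : ℝ) ^ ((n + B + 1 : ℕ) : ℝ)) ^ (1 - δ) :=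
            Real.rpow_le_rpow (by linarith) hZ2r (by linarith)
        _ = (2 : ℝ) ^ (((n + B + 1 : ℕ) : ℝ) * (1 - δ)) := by rw [← Real.rpow_mul (by norm_num)]
        _ ≤ (2 : ℝ) ^ ((n - n / K : ℕ) : ℝ) := by
          apply Real.rpow_le_rpow_of_exponent_le (by norm_num)
          rw [Nat.cast_sub hmn]
          push_cast
          have h3 : ((n / K : ℕ) : ℝ) ≤ n / K := Nat.cast_div_le
          have h4 : (n : ℝ) / K ≤ δ / 2 * n := by
            rw [div_le_iff₀ (by linarith)]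
            have h5 : 2 < K * δ := by rwa [div_lt_iff₀ hδ] at hKδ
            nlinarith
          have h6 : 2 * ((B : ℝ) + 1) ≤ n * δ := by rwa [div_le_iff₀ hδ] at hn1
          have h7 : 0 ≤ (B : ℝ) * δ := by positivity
          nlinarith
        _ = Y := by rw [Real.rpow_natCast, hY]; push_cast; rfl
    have h1 := hH Z Y (hX0'.trans hZX) hpow (hYX.trans hZX)
    refine le_trans ?_ h1
    have hlogZ : 0 < Real.log Z := by
      apply Real.log_pos
      have : 2 ≤ Z := by omega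
      have : (2 : ℝ) ≤ Z := by exact_mod_cast this
      linarith
    apply div_le_div_of_nonneg_left (by positivity) hlogZ
    have h2 : Real.log Z ≤ ((n + B + 1 : ℕ) : ℝ) * Real.log 2 := by
      rw [Real.rpow_natCast] at hZ2r
      rw [← Real.log_pow]
      exact Real.log_le_log (by linarith) hZ2r
    have h3 := Real.log_two_lt_d9
    have h4 : (3 : ℝ) * (B + 1) ≤ n := by exact_mod_cast hn4
    push_cast at h2
    nlinarith
  calc η * (h / n) * ((2 : ℝ) ^ (n - n / K)) = ∑ i ∈ Icc 1 h, η * (Y : ℝ) / n := by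
        rw [sum_const, Nat.card_Icc, nsmul_eq_mul, Nat.add_sub_cancel, hY]
        push_cast
        ring
    _ ≤ _ := sum_le_sum hterm

/-- Paley-Zygmund -/
lemma pz (s : Finset ℕ) (f : ℕ → ℝ) (μ S : ℝ) (hS : 0 < S)
    (h1 : μ * s.card ≤ ∑ l ∈ s, f l) (h2 : ∑ l ∈ s, f l ^ 2 ≤ S * s.card) (hμ : 0 ≤ μ) :
    μ ^ 2 / (4 * S) * s.card ≤ ((s.filter (fun l => μ / 2 ≤ f l)).card : ℝ) := by
  classical
  rcases Nat.eq_zero_or_pos s.card with h0 | h0
  · rw [h0]; simp
  have hs : (0 : ℝ) < s.card := by exact_mod_cast h0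
  have h3 : ∑ l ∈ s.filter (fun l => ¬ μ / 2 ≤ f l), f l ≤ μ / 2 * s.card := by
    calc _ ≤ ∑ l ∈ s.filter (fun l => ¬ μ / 2 ≤ f l), μ / 2 := by
          apply sum_le_sum
          intro l hl
          rw [mem_filter] at hl
          exact (not_le.1 hl.2).le
      _ = ((s.filter (fun l => ¬ μ / 2 ≤ f l)).card : ℝ) * (μ / 2) := by rw [sum_const, nsmul_eq_mul]
      _ ≤ s.card * (μ / 2) := by
          apply mul_le_mul_of_nonneg_right _ (by positivity)
          exact_mod_cast card_filter_le _ _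
      _ = _ := by ring
  have h4 := sum_filter_add_sum_filter_not s (fun l => μ / 2 ≤ f l) f
  have h5 : μ / 2 * s.card ≤ ∑ l ∈ s.filter (fun l => μ / 2 ≤ f l), f l := by linarith
  have h6 := sum_mul_sq_le_sq_mul_sq (s.filter (fun l => μ / 2 ≤ f l)) (fun _ => (1 : ℝ)) f
  simp only [one_mul, one_pow, sum_const, nsmul_eq_mul, mul_one] at h6
  have h7 : ∑ l ∈ s.filter (fun l => μ / 2 ≤ f l), f l ^ 2 ≤ S * s.card :=
    (sum_le_sum_of_subset_of_nonneg (filter_subset _ _) fun _ _ _ => by positivity).trans h2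
  set g : ℝ := ((s.filter (fun l => μ / 2 ≤ f l)).card : ℝ) with hg
  have hg0 : 0 ≤ g := Nat.cast_nonneg _
  have h8 : (μ / 2 * s.card) ^ 2 ≤ g * (S * s.card) :=
    (pow_le_pow_left₀ (by positivity) h5 2).trans (h6.trans (mul_le_mul_of_nonneg_left h7 hg0))
  rw [div_mul_eq_mul_div, div_le_iff₀ (by positivity)]
  have h9 : (μ ^ 2 * s.card) * s.card ≤ (g * (4 * S)) * s.card := by nlinarith
  exact le_of_mul_le_mul_right h9 hs

end Pool.Agent.V8H9.DP
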