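import Mathlib
import Pool.Agent.V8H9.DP.Lln
import Pool.Agent.V8H9.DP.Win

/-! Primes just above the dilated powers of two: positive lower logarithmic density. -/

set_option autoImplicit false

namespace Pool.Agent.V8H9.DP

open Finset Filter Topology MeasureTheory

lemma floor_cell {a A m : ℕ} {x : ℝ} (hx : x ∈ cell a A) (hm : a ≤ m) :
    A * 2 ^ (m - a) ≤ ⌊x * 2 ^ m⌋₊ ∧ ⌊x * 2 ^ m⌋₊ < (A + 1) * 2 ^ (m - a) := by
  unfold cell at hx
  have h2 : (2 : ℝ) ^ m = 2 ^ a * 2 ^ (m - a) := by rw [← pow_add]; congr 1; omega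
  have hx0 : 0 ≤ x := le_trans (by positivity) hx.1
  have h3 : (A : ℝ) * 2 ^ (m - a) ≤ x * 2 ^ m := by
    have := (div_le_iff₀ (by positivity)).1 hx.1
    rw [h2, ← mul_assoc]
    exact mul_le_mul_of_nonneg_right this (by positivity)
  have h4 : x * 2 ^ m < (A + 1) * 2 ^ (m - a) := by
    have := (lt_div_iff₀ (by positivity)).1 hx.2
    rw [h2, ← mul_assoc]
    exact mul_lt_mul_of_pos_right this (by positivity)
  constructor
  · exact Nat.le_floor (by push_cast; exact h3)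
  · rw [Nat.floor_lt (by positivity)]
    push_cast
    exact h4

lemma log_sum_lb (n0 N : ℕ) : Real.log (N + 1) - n0 ≤ ∑ n ∈ Icc n0 N, 1 / (n : ℝ) := by
  have h1 := log_add_one_le_harmonic N
  rw [harmonic_eq_sum_Icc] at h1
  push_cast at h1
  have h2 : ∑ n ∈ Icc 1 N, ((n : ℝ))⁻¹ ≤ ∑ n ∈ Icc n0 N, 1 / (n : ℝ) + ∑ n ∈ Icc 1 n0, (1 : ℝ) := by
    have h3 : Icc 1 N ⊆ Icc n0 N ∪ Icc 1 n0 := by
      intro n hn
      rw [mem_Icc] at hn
      rw [mem_union, mem_Icc, mem_Icc]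
      omega
    calc ∑ n ∈ Icc 1 N, ((n : ℝ))⁻¹ ≤ ∑ n ∈ Icc n0 N ∪ Icc 1 n0, ((n : ℝ))⁻¹ :=
          sum_le_sum_of_subset_of_nonneg h3 fun _ _ _ => by positivity
      _ ≤ ∑ n ∈ Icc n0 N, ((n : ℝ))⁻¹ + ∑ n ∈ Icc 1 n0, ((n : ℝ))⁻¹ := by
          rw [← sum_union_inter]
          have : 0 ≤ ∑ n ∈ Icc n0 N ∩ Icc 1 n0, ((n : ℝ))⁻¹ := sum_nonneg fun _ _ => by positivity
          linarith
      _ ≤ _ := by
          refine add_le_add (le_of_eq (sum_congr rfl fun n _ => by rw [one_div]))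
            (sum_le_sum fun n hn => ?_)
          rw [mem_Icc] at hn
          exact inv_le_one_of_one_le₀ (by exact_mod_cast hn.1)
  rw [sum_const, Nat.card_Icc, nsmul_eq_mul, mul_one, Nat.add_sub_cancel] at h2
  linarith

/-- the conditional probability that the short interval at level `n` has many primes -/
lemma cond_lb (lam : ℝ) (hlam : 0 < lam) : ∃ (η c : ℝ) (K : ℕ), 0 < η ∧ 0 < c ∧ 2 ≤ K ∧
    ∀ a A : ℕ, 1 ≤ A → ∀ᶠ n : ℕ in atTop, ∀ h : ℕ, lam * n ≤ h → h ≤ 2 ^ n → ∀ x ∈ cell a A,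
      c ≤ ce (n - n / K) (fun l => if η * (h / n) ≤ (rr h l : ℝ) then (1 : ℝ) else 0)
        ⌊x * 2 ^ (n / K)⌋₊ := by
  obtain ⟨η, K, hη, hK, h1⟩ := mom1
  obtain ⟨C, hC, h2⟩ := mom2 lam hlam
  refine ⟨η / 2, η ^ 2 / (4 * C), K, by positivity, by positivity, hK, fun a A hA => ?_⟩
  filter_upwards [h1 (a + A + 1), h2, eventually_ge_atTop (K * (a + 1))] with n hn1 hn2 hn3 h hh1 hh2
    x hx
  have hm : a + 1 ≤ n / K := by
    rw [Nat.le_div_iff_mul_le (by omega), mul_comm]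
    exact hn3
  have hmn : n / K ≤ n := Nat.div_le_self _ _
  have hm2 : 2 * (n / K) ≤ n := by
    calc 2 * (n / K) ≤ K * (n / K) := Nat.mul_le_mul_right _ hK
      _ ≤ n := Nat.mul_div_le n K
  obtain ⟨hf1, hf2⟩ := floor_cell hx (by omega : a ≤ n / K)
  set k := ⌊x * 2 ^ (n / K)⌋₊ with hk
  set X := k * 2 ^ (n - n / K) with hX
  have e1 : (2 : ℕ) ^ n = 2 ^ a * 2 ^ (n / K - a) * 2 ^ (n - n / K) := by
    rw [← pow_add, ← pow_add]; congr 1; omega
  have hX1 : 2 ^ n ≤ 2 ^ (a + A + 1) * X := by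
    calc 2 ^ n = 2 ^ a * (1 * 2 ^ (n / K - a)) * 2 ^ (n - n / K) := by rw [e1]; ring
      _ ≤ 2 ^ a * (A * 2 ^ (n / K - a)) * 2 ^ (n - n / K) := by gcongr
      _ ≤ 2 ^ a * k * 2 ^ (n - n / K) := by gcongr
      _ = 2 ^ a * X := by rw [hX]; ring
      _ ≤ _ := Nat.mul_le_mul_right _ (Nat.pow_le_pow_right (by norm_num) (by omega))
  have hX2 : X ≤ 2 ^ (n + (a + A + 1)) := by
    calc X ≤ ((A + 1) * 2 ^ (n / K - a)) * 2 ^ (n - n / K) := by rw [hX]; gcongr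
      _ ≤ (2 ^ (A + 1) * 2 ^ (n / K - a)) * 2 ^ (n - n / K) := by
          gcongr
          exact (Nat.lt_two_pow_self (n := A + 1)).le
      _ = 2 ^ (A + 1 + (n / K - a) + (n - n / K)) := by rw [← pow_add, ← pow_add]
      _ ≤ _ := Nat.pow_le_pow_right (by norm_num) (by omega)
  have g1 := hn1 X h hh2 hX1 hX2
  have g2 := hn2 (n / K) X h hm2 hh1
  have hn0 : 0 < n := by
    have : 0 < n / K := by omega
    omega
  have hnr : (0 : ℝ) < n := by exact_mod_cast hn0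
  have hhr : (0 : ℝ) < h := lt_of_lt_of_le (by positivity) hh1
  have hcard : ((Ico X (X + 2 ^ (n - n / K))).card : ℝ) = 2 ^ (n - n / K) := by
    rw [Nat.card_Ico, Nat.add_sub_cancel_left]
    push_cast
    rfl
  have g3 := pz (Ico X (X + 2 ^ (n - n / K))) (fun l => (rr h l : ℝ)) (η * (h / n))
    (C * ((h : ℝ) / n) ^ 2) (by positivity) (by rw [hcard]; exact g1) (by rw [hcard]; exact g2)
    (by positivity)
  rw [hcard] at g3
  unfold ce
  rw [le_div_iff₀ (by positivity)]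
  have e2 : ∑ r ∈ range (2 ^ (n - n / K)), (fun l => if η / 2 * (h / n) ≤ (rr h l : ℝ) then (1 : ℝ) else 0)
      (k * 2 ^ (n - n / K) + r) =
      (((Ico X (X + 2 ^ (n - n / K))).filter (fun l => η * (h / n) / 2 ≤ (rr h l : ℝ))).card : ℝ) := by
    have e3 := sum_Ico_eq_sum_range (fun l => if η / 2 * (h / n) ≤ (rr h l : ℝ) then (1 : ℝ) else 0)
      X (X + 2 ^ (n - n / K))
    rw [Nat.add_sub_cancel_left] at e3
    rw [← hX]
    simp only
    rw [← e3, ← sum_filter, sum_const, nsmul_eq_mul, mul_one]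
    congr 3
    funext l
    rw [show η * ((h : ℝ) / n) / 2 = η / 2 * (h / n) by ring]
  rw [e2]
  refine le_trans (le_of_eq ?_) g3
  congr 1
  field_simp

theorem cell_main (lam : ℝ) (hlam : 0 < lam) : ∃ c : ℝ, 0 < c ∧ ∀ h : ℕ → ℕ,
    (∀ᶠ n : ℕ in atTop, lam * n ≤ h n ∧ h n ≤ 2 ^ n) → ∀ a A : ℕ, 1 ≤ A →
    ∀ᵐ x : ℝ, x ∈ cell a A → ∀ᶠ N : ℕ in atTop, c * Real.log N ≤
      ∑ n ∈ (Icc 1 N).filter (fun n => c * ((h n : ℝ) / n) ≤ (rr (h n) ⌊x * 2 ^ n⌋₊ : ℝ)),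
        1 / (n : ℝ) := by
  obtain ⟨η, c, K, hη, hc, hK, hcond⟩ := cond_lb lam hlam
  refine ⟨min η (c / 16), lt_min hη (by positivity), fun h hh a A hA => ?_⟩
  obtain ⟨n1, hn1⟩ := eventually_atTop.1 ((hcond a A hA).and hh)
  set n0 := max n1 (K * (a + 1)) with hn0
  have hn0K : K * (a + 1) ≤ n0 := le_max_right _ _
  have hn0n : n1 ≤ n0 := le_max_left _ _
  have hn01 : 1 ≤ n0 := le_trans (by nlinarith) hn0K
  have ha : a ≤ n0 / K := by
    rw [Nat.le_div_iff_mul_le (by omega)]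
    nlinarith
  set G : ℕ → ℕ → ℝ := fun n l => if η * (h n / n) ≤ (rr (h n) l : ℝ) then (1 : ℝ) else 0 with hG
  have hG0 : ∀ n l, 0 ≤ G n l := by
    intro n l
    simp only [hG]
    split_ifs <;> norm_num
  have h1 := lln K (by omega) G n0 a A 1 zero_le_one hn01 ha (by
    intro n _
    calc _ ≤ ce (n - a) (fun _ => 1) A := by
          apply ce_mono
          intro l
          simp only [hG]
          split_ifs <;> norm_num
      _ = 1 := ce_const _ _ _)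
  filter_upwards [h1] with x hx hxc
  have h2 := hx hxc
  set f : ℕ → ℝ := fun N => ∑ n ∈ Icc n0 N, G n ⌊x * 2 ^ n⌋₊ / n with hf
  have hmono : Monotone f := by
    intro M N hMN
    simp only [hf]
    exact sum_le_sum_of_subset_of_nonneg (Icc_subset_Icc le_rfl hMN)
      fun _ _ _ => div_nonneg (hG0 _ _) (Nat.cast_nonneg _)
  have h3 : ∀ᶠ j : ℕ in atTop, (c / 4) * (j : ℝ) ^ 2 ≤ f (2 ^ (j ^ 2)) := by
    filter_upwards [h2.eventually (lt_mem_nhds (by linarith : -(c / 16) < 0)),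
      eventually_ge_atTop (6 * n0 + 1)] with j hj1 hj2
    have hj0 : (0 : ℝ) < (j : ℝ) ^ 2 := by
      have : (0 : ℝ) < j := by exact_mod_cast (by omega : 0 < j)
      positivity
    rw [lt_div_iff₀ hj0] at hj1
    have e1 : ∑ n ∈ Icc n0 (2 ^ (j ^ 2)), (G n ⌊x * 2 ^ n⌋₊ - ce (n - n / K) (G n) ⌊x * 2 ^ (n / K)⌋₊) / n =
        f (2 ^ (j ^ 2)) - ∑ n ∈ Icc n0 (2 ^ (j ^ 2)), ce (n - n / K) (G n) ⌊x * 2 ^ (n / K)⌋₊ / n := by
      simp only [hf]
      rw [← sum_sub_distrib]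
      exact sum_congr rfl fun n _ => sub_div _ _ _
    have e2 : c * (Real.log ((2 ^ (j ^ 2) : ℕ) + 1) - n0) ≤
        ∑ n ∈ Icc n0 (2 ^ (j ^ 2)), ce (n - n / K) (G n) ⌊x * 2 ^ (n / K)⌋₊ / n := by
      calc _ ≤ c * ∑ n ∈ Icc n0 (2 ^ (j ^ 2)), 1 / (n : ℝ) :=
            mul_le_mul_of_nonneg_left (log_sum_lb n0 _) hc.le
        _ = ∑ n ∈ Icc n0 (2 ^ (j ^ 2)), c / (n : ℝ) := by
            rw [mul_sum]
            exact sum_congr rfl fun n _ => by ring
        _ ≤ _ := by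
            apply sum_le_sum
            intro n hn
            rw [mem_Icc] at hn
            have h4 := hn1 n (hn0n.trans hn.1)
            exact div_le_div_of_nonneg_right (h4.1 (h n) h4.2.1 h4.2.2 x hxc) (Nat.cast_nonneg _)
    have h5 : (j : ℝ) ^ 2 * Real.log 2 ≤ Real.log ((2 ^ (j ^ 2) : ℕ) + 1) := by
      push_cast
      have h6 : Real.log ((2 : ℝ) ^ (j ^ 2)) ≤ Real.log ((2 : ℝ) ^ (j ^ 2) + 1) :=
        Real.log_le_log (by positivity) (by linarith)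
      rw [Real.log_pow] at h6
      push_cast at h6
      exact h6
    have h7 := Real.log_two_gt_d9
    have h8 : (6 : ℝ) * n0 + 1 ≤ j := by exact_mod_cast hj2
    have h9 : (n0 : ℝ) ≤ (j : ℝ) ^ 2 / 6 := by nlinarith [(Nat.cast_nonneg n0 : (0 : ℝ) ≤ n0)]
    have h10 : (j : ℝ) ^ 2 / 2 ≤ Real.log ((2 ^ (j ^ 2) : ℕ) + 1) - n0 := by nlinarith
    have h11 : c * ((j : ℝ) ^ 2 / 2) ≤ c * (Real.log ((2 ^ (j ^ 2) : ℕ) + 1) - n0) :=
      mul_le_mul_of_nonneg_left h10 hc.le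
    rw [e1] at hj1
    nlinarith
  have h4 := interp_lb f hmono (c / 4) (by positivity) h3
  filter_upwards [h4, eventually_ge_atTop 1] with N hN hN1
  have hlogN : 0 ≤ Real.log N := Real.log_nonneg (by exact_mod_cast hN1)
  calc min η (c / 16) * Real.log N ≤ (c / 4 / 4) * Real.log N := by
        apply mul_le_mul_of_nonneg_right _ hlogN
        refine (min_le_right _ _).trans (le_of_eq (by ring))
    _ ≤ f N := hN
    _ ≤ _ := by
        simp only [hf]
        have e3 : ∑ n ∈ Icc n0 N, G n ⌊x * 2 ^ n⌋₊ / n = ∑ n ∈ (Icc n0 N).filter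
            (fun n => η * ((h n : ℝ) / n) ≤ (rr (h n) ⌊x * 2 ^ n⌋₊ : ℝ)), 1 / (n : ℝ) := by
          rw [sum_filter]
          refine sum_congr rfl fun n _ => ?_
          simp only [hG]
          split_ifs <;> simp
        rw [e3]
        apply sum_le_sum_of_subset_of_nonneg
        · intro n hn
          rw [mem_filter, mem_Icc] at hn ⊢
          refine ⟨⟨by omega, hn.1.2⟩, le_trans ?_ hn.2⟩
          exact mul_le_mul_of_nonneg_right (min_le_left _ _) (by positivity)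
        · intro _ _ _
          positivity

end Pool.Agent.V8H9.DP
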