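import Mathlib
import Pool.Agent.V8H9.DP.Main

/-! The `n`-th prime, real intervals, and almost every positive dilation. -/

set_option autoImplicit false

namespace Pool.Agent.V8H9.DP

open Finset Filter Topology MeasureTheory

/-- the number of primes `p` with `x ≤ p ≤ x + h` -/
noncomputable def cnt (x : ℝ) (h : ℕ) : ℕ := Set.ncard {p : ℕ | p.Prime ∧ x ≤ (p : ℝ) ∧ (p : ℝ) ≤ x + h}

lemma cnt_finite (x : ℝ) (h : ℕ) : {p : ℕ | p.Prime ∧ x ≤ (p : ℝ) ∧ (p : ℝ) ≤ x + h}.Finite := by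
  apply (Set.finite_Iic ⌊x + h⌋₊).subset
  intro p hp
  exact Nat.le_floor hp.2.2

lemma rr_le_cnt (x : ℝ) (hx : 0 ≤ x) (h : ℕ) : rr h ⌊x⌋₊ ≤ cnt x h := by
  unfold rr cnt
  rw [← Set.ncard_coe_finset]
  apply Set.ncard_le_ncard _ (cnt_finite x h)
  intro p hp
  rw [mem_coe, mem_filter, mem_Ioc] at hp
  refine ⟨hp.2, ?_, ?_⟩
  · have h1 : (⌊x⌋₊ + 1 : ℝ) ≤ p := by exact_mod_cast hp.1.1
    linarith [Nat.lt_floor_add_one x]
  · have h1 : (p : ℝ) ≤ ⌊x⌋₊ + h := by exact_mod_cast hp.1.2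
    linarith [Nat.floor_le hx]

lemma exists_cell (x : ℝ) (hx : 0 < x) : ∃ a A : ℕ, 1 ≤ A ∧ x ∈ cell a A := by
  obtain ⟨a, ha⟩ := pow_unbounded_of_one_lt (1 / x) (by norm_num : (1 : ℝ) < 2)
  have h1 : 1 ≤ x * 2 ^ a := by
    rw [div_lt_iff₀ hx] at ha
    linarith
  refine ⟨a, ⌊x * 2 ^ a⌋₊, (Nat.one_le_floor_iff _).2 h1, ?_⟩
  unfold cell
  constructor
  · rw [div_le_iff₀ (by positivity)]
    exact Nat.floor_le (by positivity)
  · rw [lt_div_iff₀ (by positivity)]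
    exact Nat.lt_floor_add_one _

/-- from cells to almost every positive real -/
lemma ae_pos (P : ℝ → Prop) (h : ∀ a A : ℕ, 1 ≤ A → ∀ᵐ x : ℝ, x ∈ cell a A → P x) :
    ∀ᵐ x : ℝ, 0 < x → P x := by
  have h1 : ∀ᵐ x : ℝ, ∀ a A : ℕ, 1 ≤ A → x ∈ cell a A → P x := by
    rw [ae_all_iff]
    intro a
    rw [ae_all_iff]
    intro A
    by_cases hA : 1 ≤ A
    · filter_upwards [h a A hA] with x hx _
      exact hx
    · exact Eventually.of_forall fun x hx => absurd hx hA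
  filter_upwards [h1] with x hx hx0
  obtain ⟨a, A, hA, hc⟩ := exists_cell x hx0
  exact hx a A hA hc

theorem main_pos (lam : ℝ) (hlam : 0 < lam) : ∃ c : ℝ, 0 < c ∧ ∀ h : ℕ → ℕ,
    (∀ᶠ n : ℕ in atTop, lam * n ≤ h n ∧ h n ≤ 2 ^ n) →
    ∀ᵐ x : ℝ, 0 < x → ∀ᶠ N : ℕ in atTop, c * Real.log N ≤
      ∑ n ∈ (Icc 1 N).filter (fun n : ℕ => c * ((h n : ℝ) / n) ≤ (cnt (x * 2 ^ n) (h n) : ℝ)),
        1 / (n : ℝ) := by
  obtain ⟨c, hc, h1⟩ := cell_main lam hlam
  refine ⟨c, hc, fun h hh => ?_⟩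
  have h2 : ∀ᵐ x : ℝ, 0 < x → ∀ᶠ N : ℕ in atTop, c * Real.log N ≤
      ∑ n ∈ (Icc 1 N).filter (fun n => c * ((h n : ℝ) / n) ≤ (rr (h n) ⌊x * 2 ^ n⌋₊ : ℝ)),
        1 / (n : ℝ) := ae_pos _ fun a A hA => h1 h hh a A hA
  filter_upwards [h2] with x hx hx0
  filter_upwards [hx hx0] with N hN
  refine hN.trans ?_
  apply sum_le_sum_of_subset_of_nonneg
  · intro n hn
    rw [mem_filter] at hn ⊢
    refine ⟨hn.1, hn.2.trans ?_⟩
    exact_mod_cast rr_le_cnt (x * 2 ^ n) (by positivity) (h n)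
  · intro _ _ _
    positivity

lemma nth_le_pow (k : ℕ) : Nat.nth Nat.Prime k ≤ 2 ^ (k + 1) := by
  induction k with
  | zero => rw [Nat.nth_prime_zero_eq_two]; norm_num
  | succ k ih =>
    have h0 : Nat.nth Nat.Prime k ≠ 0 := (Nat.prime_nth_prime k).ne_zero
    obtain ⟨q, hq, h1, h2⟩ := Nat.exists_prime_lt_and_le_two_mul _ h0
    have h3 : Nat.nth Nat.Prime (k + 1) ≤ q := by
      by_contra h4
      have := Nat.le_nth_of_lt_nth_succ (not_le.1 h4) hq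
      omega
    calc Nat.nth Nat.Prime (k + 1) ≤ q := h3
      _ ≤ 2 * Nat.nth Nat.Prime k := h2
      _ ≤ 2 * 2 ^ (k + 1) := Nat.mul_le_mul_left _ ih
      _ = 2 ^ (k + 1 + 1) := by ring

/-- `p_n ≥ c n log n` -/
lemma nth_lb : ∃ C : ℝ, 1 ≤ C ∧ ∀ᶠ n : ℕ in atTop, Real.log n ≤ C * ((Nat.nth Nat.Prime (n - 1) : ℝ) / n) := by
  obtain ⟨C, hC, h⟩ := Pool.Agent.R105.GD.primes_le
  refine ⟨2 * C, by linarith, ?_⟩
  obtain ⟨X0, hX0⟩ := eventually_atTop.1 h
  filter_upwards [eventually_ge_atTop (max 2 X0)] with n hn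
  have hn2 : 2 ≤ n := (le_max_left _ _).trans hn
  have hnX : X0 ≤ n := (le_max_right _ _).trans hn
  set P := Nat.nth Nat.Prime (n - 1) with hP
  have hPn : n + 1 ≤ P := by
    have := Nat.add_two_le_nth_prime (n - 1)
    omega
  have h1 := hX0 P (by omega)
  have h2 : n - 1 ≤ ((Icc 1 P).filter (fun n : ℕ => Nat.Prime n)).card := by
    have h3 := Nat.primesBelow_card_eq_primeCounting' P
    rw [hP, Nat.primeCounting'_nth_eq, ← hP] at h3
    rw [← h3]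
    apply card_le_card
    intro q hq
    rw [Nat.mem_primesBelow] at hq
    rw [mem_filter, mem_Icc]
    exact ⟨⟨hq.2.one_lt.le, hq.1.le⟩, hq.2⟩
  have h3 : (n : ℝ) - 1 ≤ C * (P / Real.log P) := by
    refine le_trans ?_ h1
    have : ((n - 1 : ℕ) : ℝ) ≤ (((Icc 1 P).filter (fun n : ℕ => Nat.Prime n)).card : ℝ) := by
      exact_mod_cast h2
    rwa [Nat.cast_sub (by omega), Nat.cast_one] at this
  have hnr : (2 : ℝ) ≤ n := by exact_mod_cast hn2
  have hPr : (n : ℝ) ≤ P := by exact_mod_cast (by omega : n ≤ P)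
  have hln : 0 < Real.log n := Real.log_pos (by linarith)
  have hlP : Real.log n ≤ Real.log P := Real.log_le_log (by linarith) hPr
  have h4 : (n : ℝ) / 2 ≤ C * (P / Real.log n) := by
    have h5 : C * ((P : ℝ) / Real.log P) ≤ C * (P / Real.log n) := by
      apply mul_le_mul_of_nonneg_left _ (by linarith)
      exact div_le_div_of_nonneg_left (by linarith) hln hlP
    linarith
  have h6 : (n : ℝ) / 2 * Real.log n ≤ C * P := by
    have := mul_le_mul_of_nonneg_right h4 hln.le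
    rwa [mul_assoc, div_mul_cancel₀ _ hln.ne'] at this
  rw [← mul_div_assoc, le_div_iff₀ (by linarith)]
  linarith

/-- the intervals of the problem -/
theorem main_nth : ∃ c : ℝ, 0 < c ∧ ∀ᵐ x : ℝ, 0 < x → ∀ᶠ N : ℕ in atTop, c * Real.log N ≤
    ∑ n ∈ (Icc 1 N).filter (fun n : ℕ => c * Real.log n ≤
      (cnt (x * 2 ^ n) (Nat.nth Nat.Prime (n - 1)) : ℝ)), 1 / (n : ℝ) := by
  obtain ⟨c, hc, h1⟩ := main_pos 1 one_pos
  obtain ⟨C, hC, h2⟩ := nth_lb
  have h3 : ∀ᶠ n : ℕ in atTop, (1 : ℝ) * n ≤ ((fun n => Nat.nth Nat.Prime (n - 1)) n : ℕ) ∧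
      (fun n => Nat.nth Nat.Prime (n - 1)) n ≤ 2 ^ n := by
    filter_upwards [eventually_ge_atTop 1] with n hn
    constructor
    · have := Nat.add_two_le_nth_prime (n - 1)
      rw [one_mul]
      exact_mod_cast (by omega : n ≤ Nat.nth Nat.Prime (n - 1))
    · have := nth_le_pow (n - 1)
      rw [Nat.sub_add_cancel hn] at this
      exact this
  obtain ⟨n1, hn1⟩ := eventually_atTop.1 h2
  refine ⟨min (c / C) (c / 2), lt_min (by positivity) (by positivity), ?_⟩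
  filter_upwards [h1 _ h3] with x hx hx0
  have h4 : ∀ᶠ N : ℕ in atTop, 2 * (n1 : ℝ) / c ≤ Real.log N :=
    (Real.tendsto_log_atTop.comp tendsto_natCast_atTop_atTop).eventually (eventually_ge_atTop _)
  filter_upwards [hx hx0, h4, eventually_ge_atTop 1] with N hN hN4 hN1
  have hlogN : 0 ≤ Real.log N := Real.log_nonneg (by exact_mod_cast hN1)
  rw [div_le_iff₀ hc] at hN4
  set S1 := (Icc 1 N).filter (fun n : ℕ => c * (((fun n => Nat.nth Nat.Prime (n - 1)) n : ℕ) / n : ℝ) ≤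
      (cnt (x * 2 ^ n) ((fun n => Nat.nth Nat.Prime (n - 1)) n) : ℝ)) with hS1
  set S2 := (Icc 1 N).filter (fun n : ℕ => min (c / C) (c / 2) * Real.log n ≤
      (cnt (x * 2 ^ n) (Nat.nth Nat.Prime (n - 1)) : ℝ)) with hS2
  have h5 : S1 ⊆ S2 ∪ Icc 1 n1 := by
    intro n hn
    rw [hS1, mem_filter] at hn
    rw [mem_union, hS2, mem_filter]
    by_cases h6 : n ≤ n1
    · right
      rw [mem_Icc] at hn
      exact mem_Icc.2 ⟨hn.1.1, h6⟩
    · left
      refine ⟨hn.1, le_trans ?_ hn.2⟩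
      have h7 := hn1 n (by omega)
      rw [mem_Icc] at hn
      have h8 : 0 ≤ Real.log n := Real.log_nonneg (by exact_mod_cast hn.1.1)
      calc min (c / C) (c / 2) * Real.log n ≤ (c / C) * Real.log n :=
            mul_le_mul_of_nonneg_right (min_le_left _ _) h8
        _ ≤ (c / C) * (C * ((Nat.nth Nat.Prime (n - 1) : ℝ) / n)) :=
            mul_le_mul_of_nonneg_left h7 (by positivity)
        _ = _ := by field_simp
  have h6 : ∑ n ∈ S1, 1 / (n : ℝ) ≤ ∑ n ∈ S2, 1 / (n : ℝ) + n1 := by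
    calc ∑ n ∈ S1, 1 / (n : ℝ) ≤ ∑ n ∈ S2 ∪ Icc 1 n1, 1 / (n : ℝ) :=
          sum_le_sum_of_subset_of_nonneg h5 fun _ _ _ => by positivity
      _ ≤ ∑ n ∈ S2, 1 / (n : ℝ) + ∑ n ∈ Icc 1 n1, 1 / (n : ℝ) := by
          rw [← sum_union_inter]
          have : 0 ≤ ∑ n ∈ S2 ∩ Icc 1 n1, 1 / (n : ℝ) := sum_nonneg fun _ _ => by positivity
          linarith
      _ ≤ _ := by
          have : ∑ n ∈ Icc 1 n1, 1 / (n : ℝ) ≤ ∑ n ∈ Icc 1 n1, (1 : ℝ) := by
            apply sum_le_sum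
            intro n hn
            rw [mem_Icc] at hn
            rw [div_le_one (by exact_mod_cast (by omega : 0 < n))]
            exact_mod_cast hn.1
          rw [sum_const, Nat.card_Icc, nsmul_eq_mul, mul_one, Nat.add_sub_cancel] at this
          linarith
  calc min (c / C) (c / 2) * Real.log N ≤ (c / 2) * Real.log N :=
        mul_le_mul_of_nonneg_right (min_le_right _ _) hlogN
    _ ≤ c * Real.log N - n1 := by linarith
    _ ≤ ∑ n ∈ S1, 1 / (n : ℝ) - n1 := by linarith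
    _ ≤ _ := by linarith

end Pool.Agent.V8H9.DP
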