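import Mathlib
import Pool.Agent.V8H9.DP.Win

/-! Primes in short intervals at two levels: sieve bounds. -/

set_option autoImplicit false

namespace Pool.Agent.V8H9.DP

open Finset Filter Topology Pool.Agent.Y851.DK Pool.Agent.R105.GD

lemma sg_two_pow (j : ℕ) : sg (2 ^ j) ≤ 1 / 2 := by
  unfold sg
  rcases Nat.eq_zero_or_pos j with h | h
  · subst h
    norm_num
  · rw [Nat.primeFactors_prime_pow (by omega) Nat.prime_two, sum_singleton]
    norm_num

/-- pairs of primes `m`, `2^j (m - i) + s` -/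
lemma pair_lin : ∃ C : ℝ, 1 ≤ C ∧ ∀ᶠ Y : ℕ in atTop, ∀ X i j s : ℕ, 1 ≤ i → 1 ≤ j →
    s ≠ 2 ^ j * i →
    (((Icc 1 Y).filter (fun κ : ℕ => (κ + (X + i - 1)).Prime ∧
      ((κ + (X + i - 1) - i) * 2 ^ j + s).Prime)).card : ℝ)
      ≤ C * Real.exp (C * sg (((s : ℤ) - 2 ^ j * i).natAbs)) * (Y / Real.log Y ^ 2) := by
  classical
  obtain ⟨C, hC, hh⟩ := Pool.Agent.Y949.DK.t_SV 2
  refine ⟨2 * C * Real.exp C, by nlinarith [Real.one_le_exp (by linarith : 0 ≤ C)], ?_⟩
  have h2 := (tendsto_natCast_atTop_atTop (R := ℝ)).eventually hh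
  filter_upwards [h2, eventually_ge_atTop 2] with Y hY hY2 X i j s hi hj hs
  have hj2 : (2 : ℤ) ≤ 2 ^ j := by
    calc (2 : ℤ) = 2 ^ 1 := by norm_num
      _ ≤ 2 ^ j := pow_le_pow_right₀ (by norm_num) hj
  set F : Finset (ℤ × ℤ) := {(1, (X : ℤ) + i - 1), (2 ^ j, 2 ^ j * ((X : ℤ) - 1) + s)} with hF
  have hne : ((1 : ℤ), (X : ℤ) + i - 1) ≠ (2 ^ j, 2 ^ j * ((X : ℤ) - 1) + s) := by
    intro h0
    have := congrArg Prod.fst h0
    simp only at this
    omega
  have hsz : (s : ℤ) ≠ 2 ^ j * i := by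
    intro h0
    apply hs
    exact_mod_cast h0
  have e1 : (1 : ℤ) * (2 ^ j * ((X : ℤ) - 1) + s) - 2 ^ j * ((X : ℤ) + i - 1) = s - 2 ^ j * i := by ring
  have e2 : (2 : ℤ) ^ j * ((X : ℤ) + i - 1) - 1 * (2 ^ j * ((X : ℤ) - 1) + s) = -(s - 2 ^ j * i) := by ring
  have h3 := hY F (by rw [hF, card_pair hne]) (by
      intro f hf
      rw [hF, mem_insert, mem_singleton] at hf
      rcases hf with rfl | rfl
      · simp
      · simp) (by
      intro f hf g hg hfg
      rw [hF, mem_insert, mem_singleton] at hf hg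
      rcases hf with rfl | rfl <;> rcases hg with rfl | rfl
      · exact absurd rfl hfg
      · simp only
        rw [e1]
        exact sub_ne_zero.2 hsz
      · simp only
        rw [e2]
        exact neg_ne_zero.2 (sub_ne_zero.2 hsz)
      · exact absurd rfl hfg)
  rw [Nat.floor_natCast] at h3
  have hs1 : sg 1 = 0 := by unfold sg; simp
  have hs0 : sg 0 = 0 := by unfold sg; simp
  set D : ℕ := ((s : ℤ) - 2 ^ j * i).natAbs with hD
  have hsum : ∑ f ∈ F, sg f.1.natAbs + ∑ f ∈ F, ∑ g ∈ F,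
      sg (f.1 * g.2 - g.1 * f.2).natAbs ≤ 1 + 2 * sg D := by
    rw [hF, sum_pair hne, sum_pair hne, sum_pair hne, sum_pair hne]
    simp only [sub_self, Int.natAbs_zero, hs0]
    rw [e1, e2, Int.natAbs_neg, ← hD, Int.natAbs_one, hs1]
    have e3 : ((2 : ℤ) ^ j).natAbs = 2 ^ j := by rw [Int.natAbs_pow]; rfl
    rw [e3]
    have := sg_two_pow j
    linarith
  have hcard : (((Icc 1 Y).filter (fun κ : ℕ => (κ + (X + i - 1)).Prime ∧
      ((κ + (X + i - 1) - i) * 2 ^ j + s).Prime)).card : ℝ) ≤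
      (((Icc 1 Y).filter (fun n : ℕ => ∀ f ∈ F, (f.1 * (n : ℤ) + f.2).toNat.Prime)).card : ℝ) := by
    rw [Nat.cast_le]
    apply card_le_card
    intro n hn
    rw [mem_filter, mem_Icc] at hn
    rw [mem_filter, mem_Icc]
    refine ⟨hn.1, fun f hf => ?_⟩
    rw [hF, mem_insert, mem_singleton] at hf
    rcases hf with rfl | rfl
    · have : ((1 : ℤ) * (n : ℤ) + ((X : ℤ) + i - 1)).toNat = n + (X + i - 1) := by omega
      simp only [this]
      exact hn.2.1
    · have : ((2 : ℤ) ^ j * (n : ℤ) + (2 ^ j * ((X : ℤ) - 1) + s)).toNat =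
          (n + (X + i - 1) - i) * 2 ^ j + s := by
        have h4 : (2 : ℤ) ^ j * (n : ℤ) + (2 ^ j * ((X : ℤ) - 1) + s) =
            (((n + (X + i - 1) - i) * 2 ^ j + s : ℕ) : ℤ) := by
          have h5 : ((n + (X + i - 1) - i : ℕ) : ℤ) = (n : ℤ) + X - 1 := by omega
          push_cast [h5]
          ring
        rw [h4, Int.toNat_natCast]
      simp only [this]
      exact hn.2.2
  refine hcard.trans (h3.trans ?_)
  have hY2' : (2 : ℝ) ≤ Y := by exact_mod_cast hY2
  have hlog : 0 < Real.log Y := Real.log_pos (by linarith)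
  apply mul_le_mul_of_nonneg_right _ (by positivity)
  have hsg := sg_nonneg D
  have hexpC := Real.one_le_exp (by linarith : 0 ≤ C)
  calc C * Real.exp (C * (∑ f ∈ F, sg f.1.natAbs + ∑ f ∈ F, ∑ g ∈ F,
        sg (f.1 * g.2 - g.1 * f.2).natAbs))
      ≤ C * Real.exp (C * (1 + 2 * sg D)) := by
        apply mul_le_mul_of_nonneg_left _ (by linarith)
        apply Real.exp_le_exp.2
        exact mul_le_mul_of_nonneg_left hsum (by linarith)
    _ = (C * Real.exp C) * Real.exp (2 * C * sg D) := by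
        rw [mul_assoc, ← Real.exp_add]
        congr 2
        ring
    _ ≤ (2 * C * Real.exp C) * Real.exp (2 * C * Real.exp C * sg D) := by
        apply mul_le_mul _ _ (Real.exp_pos _).le (by positivity)
        · have : 0 < C * Real.exp C := by positivity
          linarith
        · apply Real.exp_le_exp.2
          apply mul_le_mul_of_nonneg_right _ hsg
          nlinarith

/-- the sums over the offsets -/
lemma offset_sum (C2 C3 : ℝ) (hC3 : 0 ≤ C3)
    (hav : ∀ M : ℕ, ∑ x ∈ Icc 1 M, Real.exp (C2 * sg x) ≤ C3 * M) (j h h' : ℕ) :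
    ∑ r ∈ range (2 ^ j), ∑ i ∈ Icc 1 h, ∑ i' ∈ Icc 1 h',
      (if r + i' ≠ 2 ^ j * i then Real.exp (C2 * sg ((((r + i' : ℕ) : ℤ) - 2 ^ j * i).natAbs)) else 0) ≤
      2 * C3 * (2 ^ j * h * h') := by
  classical
  have hsplit : ∀ r i i' : ℕ,
      (if r + i' ≠ 2 ^ j * i then Real.exp (C2 * sg ((((r + i' : ℕ) : ℤ) - 2 ^ j * i).natAbs)) else 0) =
      (if 2 ^ j * i < r + i' then Real.exp (C2 * sg (r + i' - 2 ^ j * i)) else 0) +
      (if r + i' < 2 ^ j * i then Real.exp (C2 * sg (2 ^ j * i - (r + i'))) else 0) := by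
    intro r i i'
    have hcast : ((2 : ℤ) ^ j * i) = ((2 ^ j * i : ℕ) : ℤ) := by push_cast; rfl
    rcases lt_trichotomy (r + i') (2 ^ j * i) with h1 | h1 | h1
    · rw [if_pos h1.ne, if_neg (by omega), if_pos h1, zero_add, hcast]
      congr 3
      omega
    · rw [if_neg (by simpa using h1), if_neg (by omega), if_neg (by omega), add_zero]
    · rw [if_pos h1.ne', if_pos h1, if_neg (by omega), add_zero, hcast]
      congr 3
      omega
  simp_rw [hsplit, sum_add_distrib]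
  have hP : ∀ r ∈ range (2 ^ j), ∀ i ∈ Icc 1 h, ∑ i' ∈ Icc 1 h',
      (if 2 ^ j * i < r + i' then Real.exp (C2 * sg (r + i' - 2 ^ j * i)) else 0) ≤ C3 * h' := by
    intro r hr i hi
    rw [mem_range] at hr
    rw [mem_Icc] at hi
    refine le_trans ?_ (hav h')
    rw [← sum_filter]
    have hinj : Set.InjOn (fun i' => r + i' - 2 ^ j * i)
        ((Icc 1 h').filter (fun i' => 2 ^ j * i < r + i')) := by
      intro x hx y hy hxy
      rw [mem_coe, mem_filter] at hx hy
      simp only at hxy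
      omega
    rw [← sum_image (f := fun y => Real.exp (C2 * sg y)) hinj]
    apply sum_le_sum_of_subset_of_nonneg
    · intro y hy
      rw [mem_image] at hy
      obtain ⟨x, hx, rfl⟩ := hy
      rw [mem_filter, mem_Icc] at hx
      rw [mem_Icc]
      have : 2 ^ j * 1 ≤ 2 ^ j * i := Nat.mul_le_mul_left _ hi.1
      omega
    · intro _ _ _
      exact (Real.exp_pos _).le
  have hM : ∀ i' ∈ Icc 1 h', ∑ r ∈ range (2 ^ j), ∑ i ∈ Icc 1 h,
      (if r + i' < 2 ^ j * i then Real.exp (C2 * sg (2 ^ j * i - (r + i'))) else 0) ≤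
      C3 * (2 ^ j * h : ℕ) := by
    intro i' hi'
    rw [mem_Icc] at hi'
    refine le_trans ?_ (hav (2 ^ j * h))
    rw [← sum_product', ← sum_filter (s := range (2 ^ j) ×ˢ Icc 1 h) (p := fun x => x.1 + i' < 2 ^ j * x.2)
      (f := fun x => Real.exp (C2 * sg (2 ^ j * x.2 - (x.1 + i'))))]
    have hinj : Set.InjOn (fun x : ℕ × ℕ => 2 ^ j * x.2 - (x.1 + i'))
        ((range (2 ^ j) ×ˢ Icc 1 h).filter (fun x => x.1 + i' < 2 ^ j * x.2)) := by
      rintro ⟨r1, i1⟩ hx ⟨r2, i2⟩ hy hxy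
      rw [mem_coe, mem_filter, mem_product, mem_range, mem_Icc] at hx hy
      simp only at hx hy hxy
      have h1 : 2 ^ j * i1 + r2 = 2 ^ j * i2 + r1 := by omega
      have h2 : i1 = i2 := by
        rcases lt_trichotomy i1 i2 with h3 | h3 | h3
        · have : 2 ^ j * (i1 + 1) ≤ 2 ^ j * i2 := Nat.mul_le_mul_left _ h3
          rw [mul_add, mul_one] at this
          omega
        · exact h3
        · have : 2 ^ j * (i2 + 1) ≤ 2 ^ j * i1 := Nat.mul_le_mul_left _ h3
          rw [mul_add, mul_one] at this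
          omega
      subst h2
      have h3 : r1 = r2 := by omega
      rw [h3]
    rw [← sum_image (f := fun y => Real.exp (C2 * sg y)) hinj]
    apply sum_le_sum_of_subset_of_nonneg
    · intro y hy
      rw [mem_image] at hy
      obtain ⟨⟨r, i⟩, hx, rfl⟩ := hy
      rw [mem_filter, mem_product, mem_range, mem_Icc] at hx
      simp only at hx ⊢
      rw [mem_Icc]
      have : 2 ^ j * i ≤ 2 ^ j * h := Nat.mul_le_mul_left _ hx.1.2.2
      omega
    · intro _ _ _
      exact (Real.exp_pos _).le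
  have t1 : ∑ r ∈ range (2 ^ j), ∑ i ∈ Icc 1 h, ∑ i' ∈ Icc 1 h',
      (if 2 ^ j * i < r + i' then Real.exp (C2 * sg (r + i' - 2 ^ j * i)) else 0) ≤
      C3 * (2 ^ j * h * h') := by
    calc _ ≤ ∑ r ∈ range (2 ^ j), ∑ i ∈ Icc 1 h, C3 * h' :=
          sum_le_sum fun r hr => sum_le_sum fun i hi => hP r hr i hi
      _ = _ := by
          rw [sum_const, sum_const, card_range, Nat.card_Icc, nsmul_eq_mul, nsmul_eq_mul,
            Nat.add_sub_cancel]
          push_cast
          ring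
  have t2 : ∑ r ∈ range (2 ^ j), ∑ i ∈ Icc 1 h, ∑ i' ∈ Icc 1 h',
      (if r + i' < 2 ^ j * i then Real.exp (C2 * sg (2 ^ j * i - (r + i'))) else 0) ≤
      C3 * (2 ^ j * h * h') := by
    have e : ∑ r ∈ range (2 ^ j), ∑ i ∈ Icc 1 h, ∑ i' ∈ Icc 1 h',
        (if r + i' < 2 ^ j * i then Real.exp (C2 * sg (2 ^ j * i - (r + i'))) else 0) =
        ∑ i' ∈ Icc 1 h', ∑ r ∈ range (2 ^ j), ∑ i ∈ Icc 1 h,
        (if r + i' < 2 ^ j * i then Real.exp (C2 * sg (2 ^ j * i - (r + i'))) else 0) := by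
      rw [sum_comm' (s := Icc 1 h') (t := fun _ => range (2 ^ j)) (t' := range (2 ^ j))
        (s' := fun _ => Icc 1 h') (by intro x y; tauto)]
      refine sum_congr rfl fun r _ => ?_
      rw [sum_comm]
    rw [e]
    calc _ ≤ ∑ i' ∈ Icc 1 h', C3 * ((2 ^ j * h : ℕ) : ℝ) := sum_le_sum hM
      _ = _ := by
          rw [sum_const, Nat.card_Icc, nsmul_eq_mul, Nat.add_sub_cancel]
          push_cast
          ring
  linarith

end Pool.Agent.V8H9.DP
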