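import Mathlib
import Pool.Agent.V8H9.DP.Lln

/-! The logarithmic law of large numbers along the binary prefixes, under pair bounds. -/

set_option autoImplicit false

namespace Pool.Agent.V8H9.DP

open Finset Filter Topology MeasureTheory

/-- the hypotheses: conditional means bounded, second moment `≤ C n`, near pairs bounded -/
structure PB (K : ℕ) (G : ℕ → ℕ → ℝ) (n0 a A : ℕ) (C : ℝ) : Prop where
  nn : ∀ n k, 0 ≤ G n k
  mean : ∀ n, n0 ≤ n → ∀ u, u / 2 ^ (n / K - a) = A → ce (n - n / K) (G n) u ≤ C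
  diag : ∀ n, n0 ≤ n → ce (n - a) (fun k => G n k ^ 2) A ≤ C * n
  near : ∀ n n', n0 ≤ n → n < n' → n' < n * K →
    ce (n' - a) (fun k => G n (k / 2 ^ (n' - n)) * G n' k) A ≤ C

lemma ce_congr' (j : ℕ) {F G : ℕ → ℝ} (k : ℕ) (h : ∀ l, l / 2 ^ j = k → F l = G l) :
    ce j F k = ce j G k :=
  le_antisymm (ce_mono' j k fun l hl => (h l hl).le) (ce_mono' j k fun l hl => (h l hl).ge)

lemma cmean_nonneg {K : ℕ} {G : ℕ → ℕ → ℝ} {n0 a A : ℕ} {C : ℝ} (h : PB K G n0 a A C) (n k : ℕ) :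
    0 ≤ ce (n - n / K) (G n) k := ce_nonneg _ _ (h.nn n)

/-- the product of two differences, `n < n' < K n` -/
lemma near_pair {K : ℕ} {G : ℕ → ℕ → ℝ} {n0 a A : ℕ} {C : ℝ} (h : PB K G n0 a A C) (hC : 1 ≤ C)
    (ha : a ≤ n0 / K) {n n' N : ℕ} (hn : n0 ≤ n) (hnn : n < n') (hK : n' < n * K) (hN : n' ≤ N) :
    ce (N - a) (fun k => dd K G n (k / 2 ^ (N - n)) * dd K G n' (k / 2 ^ (N - n'))) A ≤ 2 * C ^ 2 := by
  have hK1 : n / K ≤ n := Nat.div_le_self _ _
  have hK1' : n' / K ≤ n' := Nat.div_le_self _ _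
  have ha1 : a ≤ n / K := ha.trans (Nat.div_le_div_right hn)
  have ha2 : a ≤ n' / K := ha.trans (Nat.div_le_div_right (by omega))
  have e1 : (fun k => dd K G n (k / 2 ^ (N - n)) * dd K G n' (k / 2 ^ (N - n'))) =
      fun k => (fun u => dd K G n (u / 2 ^ (n' - n)) * dd K G n' u) (k / 2 ^ (N - n')) := by
    funext k
    simp only
    rw [Nat.div_div_eq_div_mul, ← pow_add]
    have : N - n' + (n' - n) = N - n := by omega
    rw [this]
  rw [e1, ce_lift (fun u => dd K G n (u / 2 ^ (n' - n)) * dd K G n' u) n' N a A (by omega) hN]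
  have hb : ∀ k, k / 2 ^ (n' - a) = A → dd K G n (k / 2 ^ (n' - n)) * dd K G n' k ≤
      G n (k / 2 ^ (n' - n)) * G n' k + C ^ 2 := by
    intro k hk
    unfold dd
    set u := k / 2 ^ (n' - n) / 2 ^ (n - n / K) with hu
    set u' := k / 2 ^ (n' - n' / K) with hu'
    have h1 := h.mean n hn u (by
      rw [hu, Nat.div_div_eq_div_mul, Nat.div_div_eq_div_mul, ← pow_add, ← pow_add, ← hk]
      congr 2
      omega)
    have h2 := h.mean n' (by omega) u' (by
      rw [hu', Nat.div_div_eq_div_mul, ← pow_add, ← hk]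
      congr 2
      omega)
    have h3 := cmean_nonneg h n u
    have h4 := cmean_nonneg h n' u'
    have h5 := h.nn n (k / 2 ^ (n' - n))
    have h6 := h.nn n' k
    have h7 := mul_nonneg h5 h4
    have h8 := mul_nonneg h3 h6
    have h9 : ce (n - n / K) (G n) u * ce (n' - n' / K) (G n') u' ≤ C * C :=
      mul_le_mul h1 h2 h4 (by linarith)
    nlinarith
  refine (ce_mono' _ _ hb).trans ?_
  rw [ce_add (F := fun k => G n (k / 2 ^ (n' - n)) * G n' k), ce_const]
  have h1 := h.near n n' hn hnn hK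
  nlinarith

lemma diag_pair {K : ℕ} {G : ℕ → ℕ → ℝ} {n0 a A : ℕ} {C : ℝ} (h : PB K G n0 a A C)
    (ha : a ≤ n0 / K) {n N : ℕ} (hn : n0 ≤ n) (hN : n ≤ N) :
    ce (N - a) (fun k => dd K G n (k / 2 ^ (N - n)) * dd K G n (k / 2 ^ (N - n))) A ≤ 4 * C * n := by
  have hK1 : n / K ≤ n := Nat.div_le_self _ _
  have ha1 : a ≤ n / K := ha.trans (Nat.div_le_div_right hn)
  have e1 : (fun k => dd K G n (k / 2 ^ (N - n)) * dd K G n (k / 2 ^ (N - n))) =
      fun k => (fun u => dd K G n u ^ 2) (k / 2 ^ (N - n)) := by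
    funext k
    simp only
    ring
  rw [e1, ce_lift (fun u => dd K G n u ^ 2) n N a A (by omega) hN]
  have h1 := dd_sq K G n a A ha1
  have h2 := h.diag n hn
  linarith

/-- the variance of the logarithmic sum -/
lemma ss_var2 (K : ℕ) (hK : 1 ≤ K) (G : ℕ → ℕ → ℝ) (n0 N a A : ℕ) (C : ℝ) (hC : 1 ≤ C) (hn0 : 1 ≤ n0)
    (ha : a ≤ n0 / K) (h : PB K G n0 a A C) :
    ce (N - a) (fun k => ss K G n0 N k ^ 2) A ≤ 6 * C ^ 2 * K ^ 2 * (1 + Real.log N) := by
  rw [ss_sq_eq]
  have hha : ∀ n, n0 ≤ n → a ≤ n / K := fun n hn => ha.trans (Nat.div_le_div_right hn)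
  have hKr : (1 : ℝ) ≤ K := by exact_mod_cast hK
  have hC2 : C ≤ C ^ 2 := by nlinarith
  have hfac : ∀ (n n' : ℕ), ce (N - a) (fun k => dd K G n (k / 2 ^ (N - n)) / n *
      (dd K G n' (k / 2 ^ (N - n')) / n')) A = (1 / ((n : ℝ) * n')) *
      ce (N - a) (fun k => dd K G n (k / 2 ^ (N - n)) * dd K G n' (k / 2 ^ (N - n'))) A := by
    intro n n'
    rw [← ce_smul]
    congr 1
    funext k
    rw [div_mul_div_comm]
    ring
  have hrow : ∀ n ∈ Icc n0 N, ∑ n' ∈ Icc n0 N,
      ce (N - a) (fun k => dd K G n (k / 2 ^ (N - n)) / n * (dd K G n' (k / 2 ^ (N - n')) / n')) A ≤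
      6 * C ^ 2 * K ^ 2 * (1 / (n : ℝ)) := by
    intro n hn
    rw [mem_Icc] at hn
    have hn1 : (1 : ℝ) ≤ n := by exact_mod_cast (by omega : 1 ≤ n)
    have h1 : ∀ n' ∈ Icc n0 N, ce (N - a) (fun k => dd K G n (k / 2 ^ (N - n)) / n *
        (dd K G n' (k / 2 ^ (N - n')) / n')) A ≤
        (if n' = n then 4 * C ^ 2 * (1 / n) else 0) +
        if (n' < n * K ∧ n < n' * K) then 2 * C ^ 2 * K / n * (1 / n) else 0 := by
      intro n' hn'
      rw [mem_Icc] at hn'
      have hn1' : (1 : ℝ) ≤ n' := by exact_mod_cast (by omega : 1 ≤ n')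
      have hs0 : 0 ≤ (if (n' < n * K ∧ n < n' * K) then 2 * C ^ 2 * K / n * (1 / (n : ℝ)) else 0) := by
        split_ifs
        · positivity
        · exact le_rfl
      by_cases he : n' = n
      · subst he
        rw [if_pos rfl, hfac]
        have h2 := diag_pair h ha hn.1 hn.2
        have h3 : (1 / ((n' : ℝ) * n')) * ce (N - a) (fun k => dd K G n' (k / 2 ^ (N - n')) *
            dd K G n' (k / 2 ^ (N - n'))) A ≤ (1 / ((n' : ℝ) * n')) * (4 * C * n') :=
          mul_le_mul_of_nonneg_left h2 (by positivity)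
        have h4 : (1 / ((n' : ℝ) * n')) * (4 * C * n') = 4 * C * (1 / n') := by field_simp
        have h5 : 4 * C * (1 / (n' : ℝ)) ≤ 4 * C ^ 2 * (1 / n') := by
          apply mul_le_mul_of_nonneg_right _ (by positivity)
          linarith
        linarith
      rw [if_neg he, zero_add]
      split_ifs with hc
      · have h3 : (n : ℝ) ≤ n' * K := by exact_mod_cast hc.2.le
        have h5 : ce (N - a) (fun k => dd K G n (k / 2 ^ (N - n)) * dd K G n' (k / 2 ^ (N - n'))) A ≤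
            2 * C ^ 2 := by
          rcases lt_or_gt_of_ne he with h6 | h6
          · have e : (fun k => dd K G n (k / 2 ^ (N - n)) * dd K G n' (k / 2 ^ (N - n'))) =
                fun k => dd K G n' (k / 2 ^ (N - n')) * dd K G n (k / 2 ^ (N - n)) := by
              funext k; ring
            rw [e]
            exact near_pair h hC ha hn'.1 h6 hc.2 hn.2
          · exact near_pair h hC ha hn.1 h6 hc.1 hn'.2
        rw [hfac]
        calc (1 / ((n : ℝ) * n')) * ce (N - a) (fun k => dd K G n (k / 2 ^ (N - n)) *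
              dd K G n' (k / 2 ^ (N - n'))) A ≤ (1 / ((n : ℝ) * n')) * (2 * C ^ 2) :=
              mul_le_mul_of_nonneg_left h5 (by positivity)
          _ = (2 * C ^ 2) / (n * n') := by ring
          _ ≤ 2 * C ^ 2 * K / n * (1 / n) := by
            rw [div_mul_div_comm, mul_one, div_le_div_iff₀ (by positivity) (by positivity)]
            have h4 : 0 ≤ 2 * C ^ 2 * n := by positivity
            nlinarith
      · rw [not_and_or, not_lt, not_lt] at hc
        rcases hc with hc | hc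
        · rw [pair_zero K G n n' N a A ((hha n hn.1).trans (Nat.div_le_self _ _))
            ((Nat.le_div_iff_mul_le (by omega)).2 hc) hn'.2]
        · have h5 := pair_zero K G n' n N a A ((hha n' hn'.1).trans (Nat.div_le_self _ _))
            ((Nat.le_div_iff_mul_le (by omega)).2 hc) hn.2
          have h6 : (fun k => dd K G n (k / 2 ^ (N - n)) / n * (dd K G n' (k / 2 ^ (N - n')) / n')) =
              fun k => dd K G n' (k / 2 ^ (N - n')) / n' * (dd K G n (k / 2 ^ (N - n)) / n) := by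
            funext k; ring
          rw [h6, h5]
    refine (sum_le_sum h1).trans ?_
    rw [sum_add_distrib, sum_ite_eq' (Icc n0 N) n, if_pos (mem_Icc.2 hn), ← sum_filter, sum_const,
      nsmul_eq_mul]
    have h2 : ((Icc n0 N).filter (fun n' => n' < n * K ∧ n < n' * K)).card ≤ n * K := by
      calc _ ≤ (range (n * K)).card := card_le_card fun x hx => by
            rw [mem_filter] at hx
            rw [mem_range]
            exact hx.2.1
        _ = n * K := card_range _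
    have h3 : (((Icc n0 N).filter (fun n' => n' < n * K ∧ n < n' * K)).card : ℝ) ≤ n * K := by
      exact_mod_cast h2
    have hKK : (1 : ℝ) ≤ (K : ℝ) ^ 2 := by nlinarith
    calc _ ≤ 4 * C ^ 2 * (1 / (n : ℝ)) + (n * K : ℝ) * (2 * C ^ 2 * K / n * (1 / n)) :=
          add_le_add le_rfl (mul_le_mul_of_nonneg_right h3 (by positivity))
      _ = (4 * C ^ 2 + 2 * C ^ 2 * K ^ 2) * (1 / (n : ℝ)) := by field_simp
      _ ≤ _ := by
          apply mul_le_mul_of_nonneg_right _ (by positivity)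
          have : 0 ≤ C ^ 2 := by positivity
          nlinarith
  refine (sum_le_sum hrow).trans ?_
  rw [← mul_sum]
  apply mul_le_mul_of_nonneg_left _ (by positivity)
  have h4 : ∑ n ∈ Icc n0 N, 1 / (n : ℝ) ≤ ∑ n ∈ Icc 1 N, 1 / (n : ℝ) :=
    sum_le_sum_of_subset_of_nonneg (Icc_subset_Icc hn0 le_rfl) fun _ _ _ => by positivity
  refine h4.trans ?_
  have h5 := harmonic_le_one_add_log N
  rw [harmonic_eq_sum_Icc] at h5
  push_cast at h5
  simpa [one_div] using h5

/-- law of large numbers from a variance bound -/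
theorem lln_of_var (K : ℕ) (G : ℕ → ℕ → ℝ) (n0 a A : ℕ) (C : ℝ) (hC0 : 0 ≤ C)
    (hv : ∀ N, ce (N - a) (fun k => ss K G n0 N k ^ 2) A ≤ C * (1 + Real.log N)) :
    ∀ᵐ x : ℝ, x ∈ cell a A → Tendsto (fun j : ℕ => (∑ n ∈ Icc n0 (2 ^ (j ^ 2)),
      (G n ⌊x * 2 ^ n⌋₊ - ce (n - n / K) (G n) ⌊x * 2 ^ (n / K)⌋₊) / n) / (j : ℝ) ^ 2) atTop (𝓝 0) := by
  set N : ℕ → ℕ := fun j => 2 ^ ((j + (a + 1)) ^ 2) with hN
  have hNa : ∀ j, a ≤ N j := by
    intro j
    have h1 : (j + (a + 1)) ^ 2 < 2 ^ ((j + (a + 1)) ^ 2) := Nat.lt_two_pow_self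
    have h2 := Nat.le_self_pow two_ne_zero (j + (a + 1))
    simp only [hN]
    omega
  set F : ℕ → ℕ → ℝ := fun j k => (ss K G n0 (N j) k / ((j + (a + 1) : ℕ) : ℝ) ^ 2) ^ 2 with hF
  have h1 := ae_tendsto a A N hNa F (fun _ _ => by positivity)
    (fun j => 2 * C * (1 / (((j + (a + 1) : ℕ) : ℝ)) ^ 2)) (by
      intro j
      set t : ℝ := ((j + (a + 1) : ℕ) : ℝ) with ht
      have ht1 : 1 ≤ t := by
        rw [ht]; push_cast
        linarith [(Nat.cast_nonneg j : (0:ℝ) ≤ j), (Nat.cast_nonneg a : (0:ℝ) ≤ a)]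
      have h2 := hv (N j)
      have e1 : ce (N j - a) (F j) A = (1 / t ^ 4) * ce (N j - a) (fun k => ss K G n0 (N j) k ^ 2) A := by
        rw [← ce_smul]
        congr 1
        funext k
        simp only [hF]
        rw [← ht]
        field_simp
      have e2 : Real.log (N j : ℝ) = t ^ 2 * Real.log 2 := by
        simp only [hN]
        push_cast
        rw [Real.log_pow, ht]
        push_cast
        ring
      rw [e1]
      rw [e2] at h2
      have hl : Real.log 2 ≤ 1 := by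
        have := Real.log_two_lt_d9
        linarith
      have h3 : C * (1 + t ^ 2 * Real.log 2) ≤ C * (2 * t ^ 2) := by
        apply mul_le_mul_of_nonneg_left _ hC0
        nlinarith
      calc (1 / t ^ 4) * ce (N j - a) (fun k => ss K G n0 (N j) k ^ 2) A
          ≤ (1 / t ^ 4) * (C * (2 * t ^ 2)) :=
            mul_le_mul_of_nonneg_left (h2.trans h3) (by positivity)
        _ = _ := by field_simp)
    (by
      apply Summable.mul_left
      have := (summable_nat_add_iff (f := fun n : ℕ => 1 / (n : ℝ) ^ 2) (a + 1)).2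
        (Real.summable_one_div_nat_pow.2 (by norm_num))
      exact this)
  filter_upwards [h1] with x hx hxc
  have h2 := hx hxc
  have h3 : Tendsto (fun j => ss K G n0 (N j) ⌊x * 2 ^ (N j)⌋₊ / ((j + (a + 1) : ℕ) : ℝ) ^ 2) atTop (𝓝 0) := by
    rw [tendsto_zero_iff_abs_tendsto_zero]
    have h4 := (Real.continuous_sqrt.tendsto 0).comp h2
    rw [Real.sqrt_zero] at h4
    refine h4.congr fun j => ?_
    simp only [Function.comp, hF]
    rw [Real.sqrt_sq_eq_abs]
  rw [← tendsto_add_atTop_iff_nat (a + 1)]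
  refine h3.congr fun j => ?_
  congr 1
  unfold ss
  refine sum_congr rfl fun n hn => ?_
  rw [mem_Icc] at hn
  unfold dd
  rw [floor_pre x n (N j) hn.2, floor_pre x (n / K) n (Nat.div_le_self _ _)]

/-- interpolation, exact limits -/
lemma interp_lim (f : ℕ → ℝ) (hf : Monotone f)
    (h : Tendsto (fun j : ℕ => f (2 ^ (j ^ 2)) / ((j : ℝ) ^ 2 * Real.log 2)) atTop (𝓝 1)) :
    Tendsto (fun N : ℕ => f N / Real.log N) atTop (𝓝 1) := by
  have hl2 : 0 < Real.log 2 := Real.log_pos (by norm_num)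
  rw [Metric.tendsto_atTop]
  intro ε hε
  set e : ℝ := min ε 1 / 8 with he
  have he0 : 0 < e := by rw [he]; positivity
  have he1 : e ≤ 1 / 8 := by rw [he]; linarith [min_le_right ε 1]
  have he2 : 8 * e ≤ ε := by rw [he]; linarith [min_le_left ε 1]
  obtain ⟨j1, hj1⟩ := Metric.tendsto_atTop.1 h e he0
  obtain ⟨j2, hj2⟩ := exists_nat_gt (3 / e)
  set j0 := max j1 (j2 + 1) with hj0
  refine ⟨2 ^ ((j0 + 1) ^ 2), fun N hN => ?_⟩
  have hN1 : 1 ≤ N := le_trans Nat.one_le_two_pow hN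
  set j := Nat.sqrt (Nat.log 2 N) with hj
  have h1 : j ^ 2 ≤ Nat.log 2 N := by rw [hj, sq]; exact Nat.sqrt_le _
  have h2 : Nat.log 2 N < (j + 1) ^ 2 := by rw [hj, sq]; exact Nat.lt_succ_sqrt _
  have h3 : 2 ^ (j ^ 2) ≤ N := (Nat.pow_le_pow_right (by norm_num) h1).trans
    (Nat.pow_log_le_self 2 (by omega))
  have h4 : N < 2 ^ ((j + 1) ^ 2) := by
    refine (Nat.lt_pow_succ_log_self (by norm_num : 1 < 2) N).trans_le ?_
    exact Nat.pow_le_pow_right (by norm_num) h2
  have h5 : j0 + 1 ≤ j := by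
    have h6 : (j0 + 1) ^ 2 ≤ Nat.log 2 N := (Nat.le_log_iff_pow_le (by norm_num) (by omega)).2 hN
    rw [hj, Nat.le_sqrt']
    exact h6
  have hjj1 : j1 ≤ j := (le_max_left _ _).trans (by omega : max j1 (j2 + 1) ≤ j)
  have hjj2 : j2 + 1 ≤ j := (le_max_right _ _).trans (by omega : max j1 (j2 + 1) ≤ j)
  have hjr : (j2 : ℝ) + 1 ≤ j := by exact_mod_cast hjj2
  have hje : 3 < e * j := by
    have : 3 / e < j := by linarith
    rw [div_lt_iff₀ he0] at this
    linarith
  have hj1r : (1 : ℝ) ≤ j := by exact_mod_cast (by omega : 1 ≤ j)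
  have q1 := hj1 j hjj1
  have q2 := hj1 (j + 1) (by omega)
  rw [Real.dist_eq, abs_lt] at q1 q2
  have hden : 0 < (j : ℝ) ^ 2 * Real.log 2 := by positivity
  have hden2 : 0 < ((j + 1 : ℕ) : ℝ) ^ 2 * Real.log 2 := by positivity
  have q1' : (1 - e) * ((j : ℝ) ^ 2 * Real.log 2) ≤ f (2 ^ (j ^ 2)) := by
    have : 1 - e ≤ f (2 ^ (j ^ 2)) / ((j : ℝ) ^ 2 * Real.log 2) := by linarith [q1.1]
    rwa [le_div_iff₀ hden] at this
  have q2' : f (2 ^ ((j + 1) ^ 2)) ≤ (1 + e) * (((j + 1 : ℕ) : ℝ) ^ 2 * Real.log 2) := by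
    have : f (2 ^ ((j + 1) ^ 2)) / (((j + 1 : ℕ) : ℝ) ^ 2 * Real.log 2) ≤ 1 + e := by linarith [q2.2]
    rwa [div_le_iff₀ hden2] at this
  push_cast at q2'
  have hlog1 : (j : ℝ) ^ 2 * Real.log 2 ≤ Real.log N := by
    have h8 : Real.log ((2 : ℝ) ^ (j ^ 2)) ≤ Real.log N := by
      apply Real.log_le_log (by positivity)
      exact_mod_cast h3
    rw [Real.log_pow] at h8
    push_cast at h8
    exact h8
  have hlog2 : Real.log N ≤ (j + 1 : ℝ) ^ 2 * Real.log 2 := by
    have h8 : Real.log N ≤ Real.log ((2 : ℝ) ^ ((j + 1) ^ 2)) := by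
      apply Real.log_le_log (by exact_mod_cast hN1)
      exact_mod_cast h4.le
    rw [Real.log_pow] at h8
    push_cast at h8
    exact h8
  have hlogpos : 0 < Real.log N := lt_of_lt_of_le hden hlog1
  have hrat : (j + 1 : ℝ) ^ 2 ≤ (1 + e) * (j : ℝ) ^ 2 := by nlinarith
  have hf1 := hf h3
  have hf2 := hf h4.le
  rw [Real.dist_eq, abs_lt]
  constructor
  · have : 1 - 4 * e ≤ f N / Real.log N := by
      rw [le_div_iff₀ hlogpos]
      have g1 : (1 - 4 * e) * Real.log N ≤ (1 - 4 * e) * ((j + 1 : ℝ) ^ 2 * Real.log 2) :=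
        mul_le_mul_of_nonneg_left hlog2 (by linarith)
      have g2 : (1 - 4 * e) * ((j + 1 : ℝ) ^ 2 * Real.log 2) ≤
          (1 - 4 * e) * ((1 + e) * ((j : ℝ) ^ 2 * Real.log 2)) := by
        apply mul_le_mul_of_nonneg_left _ (by linarith)
        nlinarith
      have g3 : (1 - 4 * e) * ((1 + e) * ((j : ℝ) ^ 2 * Real.log 2)) ≤
          (1 - e) * ((j : ℝ) ^ 2 * Real.log 2) := by
        rw [← mul_assoc]
        apply mul_le_mul_of_nonneg_right _ hden.le
        nlinarith
      linarith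
    linarith
  · have : f N / Real.log N ≤ 1 + 4 * e := by
      rw [div_le_iff₀ hlogpos]
      have g1 : (1 + e) * ((j + 1 : ℝ) ^ 2 * Real.log 2) ≤
          (1 + e) * ((1 + e) * ((j : ℝ) ^ 2 * Real.log 2)) := by
        apply mul_le_mul_of_nonneg_left _ (by linarith)
        nlinarith
      have g2 : (1 + e) * ((1 + e) * ((j : ℝ) ^ 2 * Real.log 2)) ≤ (1 + 4 * e) * ((j : ℝ) ^ 2 * Real.log 2) := by
        rw [← mul_assoc]
        apply mul_le_mul_of_nonneg_right _ hden.le
        nlinarith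
      have g3 : (1 + 4 * e) * ((j : ℝ) ^ 2 * Real.log 2) ≤ (1 + 4 * e) * Real.log N :=
        mul_le_mul_of_nonneg_left hlog1 (by linarith)
      linarith
    linarith

end Pool.Agent.V8H9.DP
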