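import Mathlib
import Pool.Agent.V8H9.DP.Siv
import Pool.Agent.V8H9.DP.Var

/-! The pair bounds for the normalised number of primes in short intervals at dyadic levels. -/

set_option autoImplicit false

namespace Pool.Agent.V8H9.DP

open Finset Filter Topology Pool.Agent.Y851.DK Pool.Agent.R105.GD

lemma ce_Ico (j : ℕ) (F : ℕ → ℝ) (k : ℕ) :
    ce j F k = (∑ l ∈ Ico (k * 2 ^ j) (k * 2 ^ j + 2 ^ j), F l) / 2 ^ j := by
  unfold ce
  rw [sum_Ico_eq_sum_range, Nat.add_sub_cancel_left]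

/-- the logarithmic number of primes in `(l, l + h]`, divided by `h` -/
noncomputable def th (h l : ℕ) : ℝ :=
  (∑ i ∈ Icc 1 h, if (l + i).Prime then Real.log ((l + i : ℕ) : ℝ) else 0) / h

lemma th_nonneg (h l : ℕ) : 0 ≤ th h l := by
  unfold th
  refine div_nonneg (sum_nonneg fun i _ => ?_) (Nat.cast_nonneg _)
  split_ifs
  · exact Real.log_natCast_nonneg _
  · exact le_rfl

lemma th_le (h l : ℕ) (L : ℝ) (hL : Real.log ((l + h : ℕ) : ℝ) ≤ L) : th h l ≤ L / h * rr h l := by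
  unfold th
  rw [rr_eq, div_mul_eq_mul_div, mul_sum]
  apply div_le_div_of_nonneg_right _ (Nat.cast_nonneg _)
  apply sum_le_sum
  intro i hi
  rw [mem_Icc] at hi
  split_ifs with hp
  · rw [mul_one]
    refine le_trans ?_ hL
    apply Real.log_le_log
    · exact_mod_cast hp.pos
    · exact_mod_cast (by omega : l + i ≤ l + h)
  · rw [mul_zero]

lemma rr_card (Y b : ℕ) : (rr Y b : ℝ) = (((Icc 1 Y).filter (fun n : ℕ => (n + b).Prime)).card : ℝ) := by
  rw [rr_eq, ← sum_filter, sum_const, nsmul_eq_mul, mul_one]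
  congr 2
  ext n
  rw [mem_filter, mem_filter, add_comm n]

/-- size of the logarithm -/
lemma log_dyadic (n m : ℕ) (h : n ≤ 2 * m) : (n : ℝ) / 3 ≤ Real.log ((2 ^ m : ℕ) : ℝ) := by
  push_cast
  rw [Real.log_pow]
  have h1 := Real.log_two_gt_d9
  have h2 : (n : ℝ) ≤ 2 * m := by exact_mod_cast h
  have h3 : (0 : ℝ) ≤ m := Nat.cast_nonneg m
  nlinarith

lemma log_upper (n B x : ℕ) (h : 3 * B ≤ n) (hx : x ≤ 2 ^ (n + B)) (hx0 : 1 ≤ x) :
    Real.log (x : ℝ) ≤ n := by
  have h1 : Real.log (x : ℝ) ≤ Real.log ((2 : ℝ) ^ (n + B)) :=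
    Real.log_le_log (by exact_mod_cast hx0) (by exact_mod_cast hx)
  rw [Real.log_pow] at h1
  push_cast at h1
  have h2 := Real.log_two_lt_d9
  have h3 : (3 : ℝ) * B ≤ n := by exact_mod_cast h
  have h4 : (0 : ℝ) ≤ B := Nat.cast_nonneg B
  nlinarith

/-- the near pairs, at a fixed root -/
lemma near_raw : ∃ C : ℝ, 1 ≤ C ∧ ∀ᶠ Y : ℕ in atTop, ∀ X j h h' : ℕ, 1 ≤ j →
    ∑ k ∈ Ico X (X + Y), (rr h k : ℝ) * ∑ r ∈ range (2 ^ j), (rr h' (k * 2 ^ j + r) : ℝ) ≤
      C * (2 ^ j * h * h') * (Y / Real.log Y ^ 2) := by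
  classical
  obtain ⟨C2, hC2, hp⟩ := pair_lin
  obtain ⟨C3, hC3, hav⟩ := exp_avg C2 (by linarith)
  refine ⟨2 * C2 * C3, by nlinarith, ?_⟩
  filter_upwards [hp, eventually_ge_atTop 2] with Y hY1 hYge X j h h' hj
  have hY2' : (2 : ℝ) ≤ Y := by exact_mod_cast hYge
  have hlog : 0 < Real.log Y := Real.log_pos (by linarith)
  set V : ℝ := Y / Real.log Y ^ 2 with hV
  have hV0 : 0 < V := by rw [hV]; positivity
  have e1 : ∑ k ∈ Ico X (X + Y), (rr h k : ℝ) * ∑ r ∈ range (2 ^ j), (rr h' (k * 2 ^ j + r) : ℝ) =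
      ∑ r ∈ range (2 ^ j), ∑ i ∈ Icc 1 h, ∑ i' ∈ Icc 1 h', ∑ k ∈ Ico X (X + Y),
        (if (k + i).Prime then (1 : ℝ) else 0) * (if (k * 2 ^ j + r + i').Prime then (1 : ℝ) else 0) := by
    have e2 : ∀ k ∈ Ico X (X + Y), (rr h k : ℝ) * ∑ r ∈ range (2 ^ j), (rr h' (k * 2 ^ j + r) : ℝ) =
        ∑ r ∈ range (2 ^ j), ∑ i ∈ Icc 1 h, ∑ i' ∈ Icc 1 h',
        (if (k + i).Prime then (1 : ℝ) else 0) * (if (k * 2 ^ j + r + i').Prime then (1 : ℝ) else 0) := by
      intro k _
      rw [mul_sum]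
      refine sum_congr rfl fun r _ => ?_
      rw [rr_eq, rr_eq, sum_mul_sum]
    rw [sum_congr rfl e2, sum_comm]
    refine sum_congr rfl fun r _ => ?_
    rw [sum_comm]
    refine sum_congr rfl fun i _ => ?_
    rw [sum_comm]
  rw [e1]
  have hterm : ∀ r ∈ range (2 ^ j), ∀ i ∈ Icc 1 h, ∀ i' ∈ Icc 1 h', ∑ k ∈ Ico X (X + Y),
      (if (k + i).Prime then (1 : ℝ) else 0) * (if (k * 2 ^ j + r + i').Prime then (1 : ℝ) else 0) ≤
      (C2 * V) * (if r + i' ≠ 2 ^ j * i then
        Real.exp (C2 * sg ((((r + i' : ℕ) : ℤ) - 2 ^ j * i).natAbs)) else 0) := by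
    intro r _ i hi i' hi'
    rw [mem_Icc] at hi hi'
    by_cases hD : r + i' = 2 ^ j * i
    · rw [if_neg (by simpa using hD), mul_zero]
      apply le_of_eq
      apply sum_eq_zero
      intro k _
      by_cases h1 : (k + i).Prime
      · have h2 : ¬ (k * 2 ^ j + r + i').Prime := by
          have e3 : k * 2 ^ j + r + i' = 2 ^ j * (k + i) := by rw [add_assoc, hD]; ring
          rw [e3]
          apply Nat.not_prime_mul
          · have : 2 ≤ 2 ^ j := by
              calc 2 = 2 ^ 1 := by norm_num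
                _ ≤ 2 ^ j := Nat.pow_le_pow_right (by norm_num) hj
            omega
          · exact h1.one_lt.ne'
        rw [if_neg h2, mul_zero]
      · rw [if_neg h1, zero_mul]
    · rw [if_pos hD]
      have h1 := hY1 X i j (r + i') hi.1 hj hD
      have h2 : C2 * Real.exp (C2 * sg ((((r + i' : ℕ) : ℤ) - 2 ^ j * i).natAbs)) * V =
          C2 * V * Real.exp (C2 * sg ((((r + i' : ℕ) : ℤ) - 2 ^ j * i).natAbs)) := by ring
      rw [← h2]
      refine le_trans (le_of_eq ?_) h1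
      rw [← win_count X Y i hi.1 (fun m => m.Prime ∧ ((m - i) * 2 ^ j + (r + i')).Prime)]
      refine sum_congr rfl fun k _ => ?_
      rw [Nat.add_sub_cancel, ← add_assoc]
      by_cases h1 : (k + i).Prime <;> by_cases h2 : (k * 2 ^ j + r + i').Prime <;> simp [h1, h2]
  calc _ ≤ ∑ r ∈ range (2 ^ j), ∑ i ∈ Icc 1 h, ∑ i' ∈ Icc 1 h', (C2 * V) *
        (if r + i' ≠ 2 ^ j * i then
          Real.exp (C2 * sg ((((r + i' : ℕ) : ℤ) - 2 ^ j * i).natAbs)) else 0) :=
        sum_le_sum fun r hr => sum_le_sum fun i hi => sum_le_sum fun i' hi' => hterm r hr i hi i' hi'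
    _ = (C2 * V) * ∑ r ∈ range (2 ^ j), ∑ i ∈ Icc 1 h, ∑ i' ∈ Icc 1 h',
        (if r + i' ≠ 2 ^ j * i then
          Real.exp (C2 * sg ((((r + i' : ℕ) : ℤ) - 2 ^ j * i).natAbs)) else 0) := by
        simp_rw [mul_sum]
    _ ≤ (C2 * V) * (2 * C3 * (2 ^ j * h * h')) :=
        mul_le_mul_of_nonneg_left (offset_sum C2 C3 (by linarith) hav j h h') (by positivity)
    _ = _ := by ring

/-- the hypotheses of the law of large numbers -/
theorem pb_th (K : ℕ) (hK : 2 ≤ K) (h : ℕ → ℕ) (hh : ∀ᶠ n : ℕ in atTop, 1 ≤ h n ∧ h n ≤ 2 ^ n)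
    (a A : ℕ) : ∃ C : ℝ, 1 ≤ C ∧ ∀ᶠ n0 : ℕ in atTop, PB K (fun n l => th (h n) l) n0 a A C := by
  obtain ⟨C1, hC1, hs⟩ := single_shift
  obtain ⟨C2, hC2, hm⟩ := mom2_raw
  obtain ⟨C3, hC3, hn⟩ := near_raw
  obtain ⟨Y1, hY1⟩ := eventually_atTop.1 hs
  obtain ⟨Y2, hY2⟩ := eventually_atTop.1 hm
  obtain ⟨Y3, hY3⟩ := eventually_atTop.1 hn
  obtain ⟨n1, hn1⟩ := eventually_atTop.1 hh
  have hKr : (2 : ℝ) ≤ K := by exact_mod_cast hK
  refine ⟨3 * C1 + 12 * C2 + 9 * C3 * K, by nlinarith, ?_⟩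
  have hCC : 0 ≤ 9 * C3 * K := by positivity
  filter_upwards [eventually_ge_atTop (n1 + 2 * (Y1 + Y2 + Y3) + 3 * (A + 3) + 2 * a + 4),
    eventually_ge_atTop (K * (a + 1))] with n0 hn0 hn0K
  have hnK : ∀ n, n0 ≤ n → a + 1 ≤ n / K := by
    intro n hn
    rw [Nat.le_div_iff_mul_le (by omega), mul_comm]
    omega
  -- size of the integers involved
  have hsize : ∀ n, n0 ≤ n → ∀ l, l < (A + 1) * 2 ^ n → Real.log ((l + h n : ℕ) : ℝ) ≤ n := by
    intro n hn l hl
    have h1 := hn1 n (by omega)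
    apply log_upper n (A + 2) _ (by omega) _ (by omega)
    have h2 : (A + 1) * 2 ^ n ≤ 2 ^ (A + 1) * 2 ^ n :=
      Nat.mul_le_mul_right _ (Nat.lt_two_pow_self (n := A + 1)).le
    have h3 : 2 ^ n ≤ 2 ^ (A + 1) * 2 ^ n := Nat.le_mul_of_pos_left _ (by positivity)
    have h4 : 2 ^ (n + (A + 2)) = 2 * (2 ^ (A + 1) * 2 ^ n) := by rw [pow_add, pow_succ 2 (A + 1)]; ring
    omega
  refine ⟨fun n k => th_nonneg _ _, ?_, ?_, ?_⟩
  · intro n hn u hu
    have hK1 : n / K ≤ n := Nat.div_le_self _ _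
    have hK2 : 2 * (n / K) ≤ n := by
      calc 2 * (n / K) ≤ K * (n / K) := Nat.mul_le_mul_right _ hK
        _ ≤ n := Nat.mul_div_le n K
    have hk := hnK n hn
    have hn' : (0 : ℝ) < n := by exact_mod_cast (by omega : 0 < n)
    have hh1 := hn1 n (by omega)
    have hhr : (0 : ℝ) < h n := by exact_mod_cast (by omega : 0 < h n)
    set Y := 2 ^ (n - n / K) with hYd
    have hYY : Y1 ≤ Y := by
      have := (Nat.lt_two_pow_self (n := n - n / K)).le
      omega
    have hu2 : u < (A + 1) * 2 ^ (n / K - a) := by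
      rw [← hu]
      have := Nat.lt_div_mul_add (a := u) (b := 2 ^ (n / K - a)) (by positivity)
      rw [add_mul, one_mul]
      exact this
    rw [ce_Ico, ← hYd]
    have hYr : ((2 : ℝ) ^ (n - n / K)) = (Y : ℝ) := by rw [hYd]; push_cast; rfl
    rw [hYr]
    have hYpos : (0 : ℝ) < Y := by rw [← hYr]; positivity
    rw [div_le_iff₀ hYpos]
    have h1 : ∑ l ∈ Ico (u * Y) (u * Y + Y), th (h n) l ≤
        ∑ l ∈ Ico (u * Y) (u * Y + Y), (n / h n : ℝ) * rr (h n) l := by
      apply sum_le_sum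
      intro l hl
      rw [mem_Ico] at hl
      apply th_le
      apply hsize n hn
      calc l < u * Y + Y := hl.2
        _ = (u + 1) * Y := by ring
        _ ≤ ((A + 1) * 2 ^ (n / K - a)) * Y := Nat.mul_le_mul_right _ hu2
        _ = (A + 1) * 2 ^ (n / K - a + (n - n / K)) := by rw [hYd, pow_add, mul_assoc]
        _ ≤ (A + 1) * 2 ^ n := Nat.mul_le_mul_left _ (Nat.pow_le_pow_right (by norm_num) (by omega))
    refine h1.trans ?_
    rw [← mul_sum, mom1_eq]
    have h2 : ∀ i ∈ Icc 1 (h n), (((Ioc (u * Y + i - 1) (u * Y + i - 1 + Y)).filter Nat.Prime).card : ℝ) ≤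
        C1 * (Y / Real.log Y) := by
      intro i _
      have h3 := hY1 Y hYY (u * Y + i - 1)
      rw [← rr_card] at h3
      exact h3
    have h3 : (n : ℝ) / 3 ≤ Real.log (Y : ℝ) := log_dyadic n (n - n / K) (by omega)
    have h4 : (Y : ℝ) / Real.log Y ≤ 3 * Y / n := by
      rw [div_le_div_iff₀ (lt_of_lt_of_le (by positivity) h3) hn']
      nlinarith
    calc (n / h n : ℝ) * ∑ i ∈ Icc 1 (h n), (((Ioc (u * Y + i - 1) (u * Y + i - 1 + Y)).filter
          Nat.Prime).card : ℝ) ≤ (n / h n : ℝ) * ∑ i ∈ Icc 1 (h n), C1 * (3 * Y / n) := by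
          apply mul_le_mul_of_nonneg_left _ (by positivity)
          apply sum_le_sum
          intro i hi
          exact (h2 i hi).trans (mul_le_mul_of_nonneg_left h4 (by linarith))
      _ = (3 * C1) * Y := by
          rw [sum_const, Nat.card_Icc, nsmul_eq_mul, Nat.add_sub_cancel]
          field_simp
      _ ≤ _ := by
          apply mul_le_mul_of_nonneg_right _ hYpos.le
          linarith
  · intro n hn
    have hh1 := hn1 n (by omega)
    have hn' : (1 : ℝ) ≤ n := by exact_mod_cast (by omega : 1 ≤ n)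
    have hhr : (1 : ℝ) ≤ h n := by exact_mod_cast (by omega : 1 ≤ h n)
    set Y := 2 ^ (n - a) with hYd
    have hYY : Y2 ≤ Y := by
      have := (Nat.lt_two_pow_self (n := n - a)).le
      omega
    rw [ce_Ico, ← hYd]
    have hYr : ((2 : ℝ) ^ (n - a)) = (Y : ℝ) := by rw [hYd]; push_cast; rfl
    rw [hYr]
    have hYpos : (0 : ℝ) < Y := by rw [← hYr]; positivity
    rw [div_le_iff₀ hYpos]
    have h1 : ∑ l ∈ Ico (A * Y) (A * Y + Y), th (h n) l ^ 2 ≤
        ∑ l ∈ Ico (A * Y) (A * Y + Y), (n / h n : ℝ) ^ 2 * (rr (h n) l : ℝ) ^ 2 := by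
      apply sum_le_sum
      intro l hl
      rw [mem_Ico] at hl
      rw [← mul_pow]
      apply pow_le_pow_left₀ (th_nonneg _ _)
      apply th_le
      apply hsize n hn
      calc l < A * Y + Y := hl.2
        _ = (A + 1) * 2 ^ (n - a) := by rw [hYd]; ring
        _ ≤ (A + 1) * 2 ^ n := Nat.mul_le_mul_left _ (Nat.pow_le_pow_right (by norm_num) (by omega))
    refine h1.trans ?_
    rw [← mul_sum]
    have h2 := hY2 Y hYY (A * Y) (h n)
    have h3 : (n : ℝ) / 3 ≤ Real.log (Y : ℝ) := log_dyadic n (n - a) (by omega)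
    have hlpos : 0 < Real.log (Y : ℝ) := lt_of_lt_of_le (by positivity) h3
    have h4 : (Y : ℝ) / Real.log Y ≤ 3 * Y / n := by
      rw [div_le_div_iff₀ hlpos (by linarith)]
      nlinarith
    have h5 : (Y : ℝ) / Real.log Y ^ 2 ≤ 9 * Y / n ^ 2 := by
      rw [div_le_div_iff₀ (by positivity) (by positivity)]
      have : (n : ℝ) ^ 2 ≤ 9 * Real.log Y ^ 2 := by nlinarith
      nlinarith
    have h6 : ∑ l ∈ Ico (A * Y) (A * Y + Y), (rr (h n) l : ℝ) ^ 2 ≤
        C2 * (h n * (3 * Y / n) + (h n : ℝ) ^ 2 * (9 * Y / n ^ 2)) := by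
      refine h2.trans ?_
      gcongr
    calc (n / h n : ℝ) ^ 2 * ∑ l ∈ Ico (A * Y) (A * Y + Y), (rr (h n) l : ℝ) ^ 2
        ≤ (n / h n : ℝ) ^ 2 * (C2 * (h n * (3 * Y / n) + (h n : ℝ) ^ 2 * (9 * Y / n ^ 2))) :=
          mul_le_mul_of_nonneg_left h6 (by positivity)
      _ = C2 * (3 * (n / h n) + 9) * Y := by
          have : (h n : ℝ) ≠ 0 := by linarith
          field_simp
      _ ≤ C2 * (3 * n + 9 * n) * Y := by
          have : (n : ℝ) / h n ≤ n := div_le_self (by linarith) hhr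
          gcongr
          linarith
      _ = 12 * C2 * n * Y := by ring
      _ ≤ _ := by
          apply mul_le_mul_of_nonneg_right _ hYpos.le
          apply mul_le_mul_of_nonneg_right _ (by linarith)
          linarith
  · intro n n' hn hnn hnK'
    have hh1 := hn1 n (by omega)
    have hh1' := hn1 n' (by omega)
    have hnr : (1 : ℝ) ≤ n := by exact_mod_cast (by omega : 1 ≤ n)
    have hnr' : (1 : ℝ) ≤ n' := by exact_mod_cast (by omega : 1 ≤ n')
    have hhr : (1 : ℝ) ≤ h n := by exact_mod_cast (by omega : 1 ≤ h n)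
    have hhr' : (1 : ℝ) ≤ h n' := by exact_mod_cast (by omega : 1 ≤ h n')
    set j := n' - n with hj
    have hj1 : 1 ≤ j := by omega
    set Y := 2 ^ (n - a) with hYd
    have hYY : Y3 ≤ Y := by
      have := (Nat.lt_two_pow_self (n := n - a)).le
      omega
    have e1 : ce (n' - a) (fun k => th (h n) (k / 2 ^ j) * th (h n') k) A =
        ce (n - a) (fun k => ce j (th (h n')) k * th (h n) k) A := by
      have e : n' - a = (n - a) + j := by omega
      rw [e, ← ce_tower]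
      congr 1
      funext u
      have e2 : (fun k => th (h n) (k / 2 ^ j) * th (h n') k) =
          fun k => th (h n') k * (fun v => th (h n) v) (k / 2 ^ j) := by
        funext k; ring
      rw [e2, ce_pull]
    show ce (n' - a) (fun k => th (h n) (k / 2 ^ j) * th (h n') k) A ≤ _
    rw [e1, ce_Ico, ← hYd]
    have hYr : ((2 : ℝ) ^ (n - a)) = (Y : ℝ) := by rw [hYd]; push_cast; rfl
    rw [hYr]
    have hYpos : (0 : ℝ) < Y := by rw [← hYr]; positivity
    rw [div_le_iff₀ hYpos]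
    have h1 : ∑ k ∈ Ico (A * Y) (A * Y + Y), ce j (th (h n')) k * th (h n) k ≤
        ∑ k ∈ Ico (A * Y) (A * Y + Y), ((n' / h n' : ℝ) * (n / h n) / 2 ^ j) * ((rr (h n) k : ℝ) *
          ∑ r ∈ range (2 ^ j), (rr (h n') (k * 2 ^ j + r) : ℝ)) := by
      apply sum_le_sum
      intro k hk
      rw [mem_Ico] at hk
      have hk2 : k < (A + 1) * 2 ^ (n - a) := by
        calc k < A * Y + Y := hk.2
          _ = (A + 1) * 2 ^ (n - a) := by rw [hYd]; ring
      have g1 : th (h n) k ≤ n / h n * rr (h n) k := by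
        apply th_le
        apply hsize n hn
        exact hk2.trans_le (Nat.mul_le_mul_left _ (Nat.pow_le_pow_right (by norm_num) (by omega)))
      have g2 : ce j (th (h n')) k ≤ (n' / h n') * (∑ r ∈ range (2 ^ j), (rr (h n') (k * 2 ^ j + r) : ℝ)) / 2 ^ j := by
        unfold ce
        apply div_le_div_of_nonneg_right _ (by positivity)
        rw [mul_sum]
        apply sum_le_sum
        intro r hr
        rw [mem_range] at hr
        apply th_le
        apply hsize n' (by omega)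
        calc k * 2 ^ j + r < k * 2 ^ j + 2 ^ j := by omega
          _ = (k + 1) * 2 ^ j := by ring
          _ ≤ ((A + 1) * 2 ^ (n - a)) * 2 ^ j := Nat.mul_le_mul_right _ hk2
          _ = (A + 1) * 2 ^ (n - a + j) := by rw [pow_add, mul_assoc]
          _ ≤ (A + 1) * 2 ^ n' := Nat.mul_le_mul_left _ (Nat.pow_le_pow_right (by norm_num) (by omega))
      calc ce j (th (h n')) k * th (h n) k ≤
            ((n' / h n') * (∑ r ∈ range (2 ^ j), (rr (h n') (k * 2 ^ j + r) : ℝ)) / 2 ^ j) *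
              (n / h n * rr (h n) k) := by
            apply mul_le_mul g2 g1 (th_nonneg _ _)
            exact (ce_nonneg _ _ (th_nonneg _)).trans g2
        _ = _ := by ring
    refine h1.trans ?_
    rw [← mul_sum]
    have h2 := hY3 Y hYY (A * Y) j (h n) (h n') hj1
    have h3 : (n : ℝ) / 3 ≤ Real.log (Y : ℝ) := log_dyadic n (n - a) (by omega)
    have hlpos : 0 < Real.log (Y : ℝ) := lt_of_lt_of_le (by positivity) h3
    have h5 : (Y : ℝ) / Real.log Y ^ 2 ≤ 9 * Y / n ^ 2 := by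
      rw [div_le_div_iff₀ (by positivity) (by positivity)]
      have : (n : ℝ) ^ 2 ≤ 9 * Real.log Y ^ 2 := by nlinarith
      nlinarith
    have h6 : (n' : ℝ) ≤ n * K := by exact_mod_cast hnK'.le
    calc ((n' / h n' : ℝ) * (n / h n) / 2 ^ j) * ∑ k ∈ Ico (A * Y) (A * Y + Y), ((rr (h n) k : ℝ) *
          ∑ r ∈ range (2 ^ j), (rr (h n') (k * 2 ^ j + r) : ℝ))
        ≤ ((n' / h n' : ℝ) * (n / h n) / 2 ^ j) * (C3 * (2 ^ j * h n * h n') * (9 * Y / n ^ 2)) := by
          apply mul_le_mul_of_nonneg_left _ (by positivity)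
          refine h2.trans ?_
          gcongr
      _ = 9 * C3 * (n' / n) * Y := by
          have h7 : (h n : ℝ) ≠ 0 := by linarith
          have h8 : (h n' : ℝ) ≠ 0 := by linarith
          field_simp
      _ ≤ 9 * C3 * K * Y := by
          have : (n' : ℝ) / n ≤ K := by
            rw [div_le_iff₀ (by linarith)]
            linarith
          gcongr
      _ ≤ _ := by
          apply mul_le_mul_of_nonneg_right _ hYpos.le
          linarith

end Pool.Agent.V8H9.DP
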