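import Mathlib
import Pool.Agent.V8H9.DP.Pb
import Pool.Agent.Q236.CR.Stm

/-! Conditional means of the number of primes in short intervals, for almost all prefixes. -/

set_option autoImplicit false

namespace Pool.Agent.V8H9.DP

open Finset Filter Topology Pool.Agent.Q236.CR

/-- the window sum -/
noncomputable def wS (u Y : ℕ) : ℝ := ∑ n ∈ Ioc u (u + Y), (ArithmeticFunction.vonMangoldt n - 1)

lemma cL_one (n : ℕ) : cL (1 : DirichletCharacter ℂ 1) n = (ArithmeticFunction.vonMangoldt n : ℂ) := by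
  unfold cL
  rw [MulChar.one_apply (isUnit_of_subsingleton _), one_mul]

/-- one dyadic block -/
lemma blk1 (hsic : S_SIC) : ∃ C X0 : ℕ, ∀ x : ℕ, X0 ≤ x → ∀ Y : ℕ,
    (x : ℝ) ^ (1 / 3 : ℝ) * Real.log x ^ C ≤ Y → Y ≤ x →
    ∑ u ∈ Ioc x (2 * x), |wS u Y| ≤ x * (Y : ℝ) / Real.log x ^ 6 := by
  obtain ⟨C, X0, h⟩ := hsic 0 12
  refine ⟨C, max X0 3, fun x hx Y h1 h2 => ?_⟩
  have hx3 : 3 ≤ x := (le_max_right _ _).trans hx
  have hxr : (3 : ℝ) ≤ x := by exact_mod_cast hx3
  have hl0 : 0 < Real.log x := Real.log_pos (by linarith)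
  have h3 := (h x ((le_max_left _ _).trans hx) 1 inferInstance (by simp) 1 Y h1 h2).1
  simp only [cL_one, if_true] at h3
  have e1 : ∀ m : ℕ, ‖∑ n ∈ Ioc m (m + Y), ((ArithmeticFunction.vonMangoldt n : ℂ) - 1)‖ = |wS m Y| := by
    intro m
    rw [← Real.norm_eq_abs, ← Complex.norm_real]
    congr 1
    unfold wS
    push_cast
    rfl
  simp only [e1] at h3
  have h4 : (∑ u ∈ Ioc x (2 * x), |wS u Y|) ^ 2 ≤ (x * (Y : ℝ) / Real.log x ^ 6) ^ 2 := by
    refine (sq_sum_le_card_mul_sum_sq (s := Ioc x (2 * x)) (f := fun u => |wS u Y|)).trans ?_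
    rw [Nat.card_Ioc]
    have e : 2 * x - x = x := by omega
    rw [e]
    refine (mul_le_mul_of_nonneg_left h3 (Nat.cast_nonneg x)).trans (le_of_eq ?_)
    field_simp
  exact (abs_le_of_sq_le_sq' h4 (by positivity)).2

/-- three dyadic blocks -/
lemma blk3 (hsic : S_SIC) : ∃ C X0 : ℕ, ∀ x : ℕ, X0 ≤ x → ∀ Y : ℕ,
    ((4 * x : ℕ) : ℝ) ^ (1 / 3 : ℝ) * Real.log ((4 * x : ℕ) : ℝ) ^ C ≤ Y → Y ≤ x →
    ∑ u ∈ Ioc x (8 * x), |wS u Y| ≤ 7 * x * (Y : ℝ) / Real.log x ^ 6 := by
  obtain ⟨C, X0, h⟩ := blk1 hsic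
  refine ⟨C, max X0 3, fun x hx Y h1 h2 => ?_⟩
  have hx3 : 3 ≤ x := (le_max_right _ _).trans hx
  have hX0 : X0 ≤ x := (le_max_left _ _).trans hx
  have hxr : (3 : ℝ) ≤ x := by exact_mod_cast hx3
  have hl0 : 0 < Real.log x := Real.log_pos (by linarith)
  have hmono : ∀ z : ℕ, x ≤ z → z ≤ 4 * x → (z : ℝ) ^ (1 / 3 : ℝ) * Real.log z ^ C ≤ Y := by
    intro z hz1 hz2
    refine le_trans ?_ h1
    have hz : (0 : ℝ) < z := by exact_mod_cast (by omega : 0 < z)
    have hzr : (z : ℝ) ≤ ((4 * x : ℕ) : ℝ) := by exact_mod_cast hz2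
    have hz1' : (1 : ℝ) ≤ z := by exact_mod_cast (by omega : 1 ≤ z)
    have hlz := Real.log_nonneg hz1'
    gcongr
  have g1 := h x hX0 Y (hmono x le_rfl (by omega)) h2
  have g2 := h (2 * x) (by omega) Y (hmono (2 * x) (by omega) (by omega)) (by omega)
  have g3 := h (4 * x) (by omega) Y (hmono (4 * x) (by omega) (by omega)) (by omega)
  have hb : ∀ z : ℕ, x ≤ z → (z : ℝ) * Y / Real.log z ^ 6 ≤ z * (Y : ℝ) / Real.log x ^ 6 := by
    intro z hz
    have hz' : (x : ℝ) ≤ z := by exact_mod_cast hz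
    have : Real.log x ≤ Real.log z := Real.log_le_log (by linarith) hz'
    gcongr
  have g2' := g2.trans (hb (2 * x) (by omega))
  have g3' := g3.trans (hb (4 * x) (by omega))
  have e : Ioc x (8 * x) = Ioc x (2 * x) ∪ (Ioc (2 * x) (2 * (2 * x)) ∪ Ioc (4 * x) (2 * (4 * x))) := by
    ext u
    simp only [mem_union, mem_Ioc]
    omega
  rw [e]
  have hnn : ∀ s : Finset ℕ, 0 ≤ ∑ u ∈ s, |wS u Y| := fun s => sum_nonneg fun _ _ => abs_nonneg _
  have u1 : ∀ s t : Finset ℕ, ∑ u ∈ s ∪ t, |wS u Y| ≤ ∑ u ∈ s, |wS u Y| + ∑ u ∈ t, |wS u Y| := by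
    intro s t
    rw [← sum_union_inter]
    linarith [hnn (s ∩ t)]
  refine (u1 _ _).trans ?_
  have u2 := u1 (Ioc (2 * x) (2 * (2 * x))) (Ioc (4 * x) (2 * (4 * x)))
  push_cast at g2' g3'
  have e2 : 7 * (x : ℝ) * Y / Real.log x ^ 6 = x * Y / Real.log x ^ 6 + (2 * x * Y / Real.log x ^ 6 +
      4 * x * Y / Real.log x ^ 6) := by ring
  rw [e2]
  linarith

/-- moving a window -/
lemma wS_shift (u s Y : ℕ) (L : ℝ) (hL : Real.log ((u + s + Y : ℕ) : ℝ) ≤ L) :
    |wS u Y| ≤ |wS (u + s) Y| + 2 * s * (L + 1) := by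
  have hf : ∀ k, 1 ≤ k → k ≤ u + s + Y → |ArithmeticFunction.vonMangoldt k - 1| ≤ L + 1 := by
    intro k hk1 hk
    have h1 : ArithmeticFunction.vonMangoldt k ≤ L := by
      refine ArithmeticFunction.vonMangoldt_le_log.trans (le_trans ?_ hL)
      apply Real.log_le_log
      · exact_mod_cast hk1
      · exact_mod_cast hk
    have h2 : 0 ≤ ArithmeticFunction.vonMangoldt k := ArithmeticFunction.vonMangoldt_nonneg
    rw [abs_le]
    constructor <;> linarith
  have hsum : ∀ v, v + s ≤ u + s + Y → |∑ k ∈ Ioc v (v + s), (ArithmeticFunction.vonMangoldt k - 1)| ≤ s * (L + 1) := by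
    intro v hv
    refine (abs_sum_le_sum_abs _ _).trans ?_
    calc _ ≤ ∑ k ∈ Ioc v (v + s), (L + 1) := by
          apply sum_le_sum
          intro k hk
          rw [mem_Ioc] at hk
          exact hf k (by omega) (by omega)
      _ = _ := by
          rw [sum_const, Nat.card_Ioc, Nat.add_sub_cancel_left, nsmul_eq_mul]
  have e1 := sum_Ioc_consecutive (fun k => ArithmeticFunction.vonMangoldt k - 1) (by omega : u ≤ u + Y)
    (by omega : u + Y ≤ u + Y + s)
  have e2 := sum_Ioc_consecutive (fun k => ArithmeticFunction.vonMangoldt k - 1) (by omega : u ≤ u + s)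
    (by omega : u + s ≤ u + s + Y)
  have e3 : u + Y + s = u + s + Y := by omega
  rw [e3] at e1
  have h1 := hsum u (by omega)
  have h2 := hsum (u + Y) (by omega)
  rw [e3] at h2
  have e4 : wS u Y = wS (u + s) Y + ∑ k ∈ Ioc u (u + s), (ArithmeticFunction.vonMangoldt k - 1) -
      ∑ k ∈ Ioc (u + Y) (u + s + Y), (ArithmeticFunction.vonMangoldt k - 1) := by
    unfold wS
    linarith
  rw [e4]
  have h3 := abs_sub (wS (u + s) Y + ∑ k ∈ Ioc u (u + s), (ArithmeticFunction.vonMangoldt k - 1))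
    (∑ k ∈ Ioc (u + Y) (u + s + Y), (ArithmeticFunction.vonMangoldt k - 1))
  have h4 := abs_add_le (wS (u + s) Y) (∑ k ∈ Ioc u (u + s), (ArithmeticFunction.vonMangoldt k - 1))
  linarith

/-- the windows of a sparse set -/
lemma sparse (x Y s0 b k1 k2 : ℕ) (L : ℝ) (hs : s0 ≤ Y) (h1 : x < k1 * Y) (h2 : k2 * Y + b ≤ 8 * x)
    (hL : Real.log ((8 * x + Y : ℕ) : ℝ) ≤ L) (hL0 : 0 ≤ L) :
    s0 * ∑ k ∈ Ico k1 k2, |wS (k * Y + b) Y| ≤ ∑ u ∈ Ioc x (8 * x), |wS u Y| +
      (k2 - k1 : ℕ) * (s0 * (2 * s0 * (L + 1))) := by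
  classical
  have hterm : ∀ k ∈ Ico k1 k2, ∀ s ∈ range s0, |wS (k * Y + b) Y| ≤
      |wS (k * Y + b + s) Y| + 2 * s0 * (L + 1) := by
    intro k hk s hs'
    rw [mem_Ico] at hk
    rw [mem_range] at hs'
    have h3 : (k + 1) * Y ≤ k2 * Y := Nat.mul_le_mul_right _ hk.2
    rw [add_mul, one_mul] at h3
    have h4 := wS_shift (k * Y + b) s Y L (by
      refine le_trans ?_ hL
      apply Real.log_le_log
      · have : 0 < k * Y := by
          have : k1 * Y ≤ k * Y := Nat.mul_le_mul_right _ hk.1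
          omega
        exact_mod_cast (by omega : 0 < k * Y + b + s + Y)
      · exact_mod_cast (by omega : k * Y + b + s + Y ≤ 8 * x + Y))
    have h5 : (s : ℝ) ≤ s0 := by exact_mod_cast hs'.le
    have : 2 * (s : ℝ) * (L + 1) ≤ 2 * s0 * (L + 1) := by
      apply mul_le_mul_of_nonneg_right _ (by linarith)
      linarith
    linarith
  have h3 : s0 * ∑ k ∈ Ico k1 k2, |wS (k * Y + b) Y| = ∑ k ∈ Ico k1 k2, ∑ s ∈ range s0, |wS (k * Y + b) Y| := by
    rw [mul_sum]
    refine sum_congr rfl fun k _ => ?_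
    rw [sum_const, card_range, nsmul_eq_mul]
  rw [h3]
  refine (sum_le_sum fun k hk => sum_le_sum fun s hs' => hterm k hk s hs').trans ?_
  simp_rw [sum_add_distrib, sum_const, card_range, nsmul_eq_mul]
  rw [Nat.card_Ico]
  apply add_le_add _ le_rfl
  rw [← sum_product']
  have hinj : Set.InjOn (fun z : ℕ × ℕ => z.1 * Y + b + z.2) (Ico k1 k2 ×ˢ range s0 : Finset (ℕ × ℕ)) := by
    rintro ⟨k, s⟩ hz ⟨k', s'⟩ hz' he
    rw [mem_coe, mem_product, mem_Ico, mem_range] at hz hz'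
    simp only at hz hz' he
    have h4 : k = k' := by
      rcases lt_trichotomy k k' with h5 | h5 | h5
      · have : (k + 1) * Y ≤ k' * Y := Nat.mul_le_mul_right _ h5
        rw [add_mul, one_mul] at this
        omega
      · exact h5
      · have : (k' + 1) * Y ≤ k * Y := Nat.mul_le_mul_right _ h5
        rw [add_mul, one_mul] at this
        omega
    subst h4
    have : s = s' := by omega
    rw [this]
  rw [← sum_image (f := fun u => |wS u Y|) hinj]
  apply sum_le_sum_of_subset_of_nonneg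
  · intro u hu
    rw [mem_image] at hu
    obtain ⟨⟨k, s⟩, hz, rfl⟩ := hu
    rw [mem_product, mem_Ico, mem_range] at hz
    simp only at hz ⊢
    rw [mem_Ioc]
    have h4 : k1 * Y ≤ k * Y := Nat.mul_le_mul_right _ hz.1.1
    have h5 : (k + 1) * Y ≤ k2 * Y := Nat.mul_le_mul_right _ hz.1.2
    rw [add_mul, one_mul] at h5
    omega
  · intro _ _ _
    exact abs_nonneg _

/-- primes with logarithmic weights in a window -/
noncomputable def tw (u Y : ℕ) : ℝ := ∑ p ∈ Ioc u (u + Y), if p.Prime then Real.log (p : ℝ) else 0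

lemma tw_err (u Y M : ℕ) (hM : u + Y ≤ M) (hM1 : 1 ≤ M) :
    |tw u Y - Y| ≤ |wS u Y| + 2 * Real.sqrt M * Real.log M := by
  have h1 : tw u Y - Y = wS u Y - ∑ p ∈ Ioc u (u + Y), (if p.Prime then 0 else ArithmeticFunction.vonMangoldt p) := by
    unfold tw wS
    have e1 : (Y : ℝ) = ∑ p ∈ Ioc u (u + Y), (1 : ℝ) := by
      rw [sum_const, Nat.card_Ioc, Nat.add_sub_cancel_left, nsmul_eq_mul, mul_one]
    rw [e1, ← sum_sub_distrib, ← sum_sub_distrib]
    refine sum_congr rfl fun p _ => ?_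
    split_ifs with hp
    · rw [ArithmeticFunction.vonMangoldt_apply_prime hp]
      ring
    · ring
  have h2 : 0 ≤ ∑ p ∈ Ioc u (u + Y), (if p.Prime then 0 else ArithmeticFunction.vonMangoldt p) := by
    refine sum_nonneg fun p _ => ?_
    split_ifs
    · exact le_rfl
    · exact ArithmeticFunction.vonMangoldt_nonneg
  have h3 : ∑ p ∈ Ioc u (u + Y), (if p.Prime then 0 else ArithmeticFunction.vonMangoldt p) ≤
      2 * Real.sqrt M * Real.log M := by
    have h4 := Chebyshev.psi_sub_theta_le (x := (M : ℝ)) (by exact_mod_cast hM1)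
    rw [Chebyshev.psi_sub_theta_eq_sum_not_prime, Nat.floor_natCast, sum_filter] at h4
    refine le_trans ?_ h4
    calc _ ≤ ∑ p ∈ Ioc 0 M, (if p.Prime then 0 else ArithmeticFunction.vonMangoldt p) := by
          apply sum_le_sum_of_subset_of_nonneg
          · intro p hp
            rw [mem_Ioc] at hp ⊢
            omega
          · intro p _ _
            split_ifs
            · exact le_rfl
            · exact ArithmeticFunction.vonMangoldt_nonneg
      _ = _ := by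
          refine sum_congr rfl fun p _ => ?_
          by_cases hp : p.Prime <;> simp [hp]
  rw [h1]
  refine (abs_sub _ _).trans ?_
  rw [abs_of_nonneg h2]
  linarith

lemma win_tw (X Y h : ℕ) : ∑ l ∈ Ico X (X + Y), th h l =
    (∑ i ∈ Icc 1 h, tw (X + i - 1) Y) / h := by
  unfold th
  rw [← sum_div, sum_comm]
  congr 1
  refine sum_congr rfl fun i hi => ?_
  rw [mem_Icc] at hi
  unfold tw
  apply sum_bij' (fun l _ => l + i) (fun p _ => p - i)
  · intro l hl
    rw [mem_Ico] at hl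
    rw [mem_Ioc]
    omega
  · intro p hp
    rw [mem_Ioc] at hp
    rw [mem_Ico]
    omega
  · intro l _
    omega
  · intro p hp
    rw [mem_Ioc] at hp
    omega
  · intro l _
    rfl

end Pool.Agent.V8H9.DP
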