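import Mathlib
import Pool.Agent.V8H9.DP.Mean

/-! Conditional means of the number of primes in short intervals: the bound. -/

set_option autoImplicit false

namespace Pool.Agent.V8H9.DP

open Finset Filter Topology Pool.Agent.Q236.CR

lemma ev_pow_quarter (C : ℕ) : ∀ᶠ n : ℕ in atTop, (n : ℝ) ^ C ≤ (2 : ℝ) ^ ((n : ℝ) / 4) := by
  have h1 : (1 : ℝ) < (2 : ℝ) ^ ((1 : ℝ) / 4) := Real.one_lt_rpow (by norm_num) (by norm_num)
  have h2 := tendsto_pow_const_div_const_pow_of_one_lt C h1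
  filter_upwards [h2.eventually (gt_mem_nhds (zero_lt_one' ℝ))] with n hn
  rw [div_lt_one (by positivity)] at hn
  refine hn.le.trans (le_of_eq ?_)
  rw [← Real.rpow_natCast, ← Real.rpow_mul (by norm_num)]
  congr 1
  ring

theorem cmean (hsic : S_SIC) (h : ℕ → ℕ) (hh : ∀ᶠ n : ℕ in atTop, 1 ≤ h n ∧ h n ≤ 2 ^ (n / 2)) (a A : ℕ)
    (hA : 1 ≤ A) : ∃ C : ℝ, 0 ≤ C ∧ ∀ᶠ n : ℕ in atTop,
    ce (n / 4 - a) (fun k => |ce (n - n / 4) (th (h n)) k - 1|) A ≤ C * (1 / (n : ℝ) ^ 2) := by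
  obtain ⟨C0, X0, hblk⟩ := blk3 hsic
  refine ⟨7 * 4 * 729 * A + 5, by positivity, ?_⟩
  set B := A + 3 with hB
  filter_upwards [hh, ev_pow_quarter C0, ev_pow_quarter (8 + 2 * B), eventually_ge_atTop (4 * (a + 2) + X0 + 3 * B + 16)]
    with n hn hpow1 hpow2 hnge
  set m := n / 4 with hm
  have hmn : m ≤ n := Nat.div_le_self _ _
  have hma : a + 2 ≤ m := by omega
  have h4m : 4 * m ≤ n := by omega
  set j := n - m with hj
  set Y := 2 ^ j with hY
  set x := A * 2 ^ (n - a - 1) with hx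
  have hn1 : (1 : ℝ) ≤ n := by exact_mod_cast (by omega : 1 ≤ n)
  have hn0 : (0 : ℝ) < n := by linarith
  have h2x : 2 * x = A * 2 ^ (n - a) := by
    rw [hx]
    have : n - a = (n - a - 1) + 1 := by omega
    rw [this, pow_succ]
    simp only [Nat.add_sub_cancel]
    ring
  have hxlow : 2 ^ (n - a - 1) ≤ x := by rw [hx]; exact Nat.le_mul_of_pos_left _ hA
  have hxX0 : X0 ≤ x := by
    have := (Nat.lt_two_pow_self (n := n - a - 1)).le
    omega
  have hx1 : 1 ≤ x := le_trans Nat.one_le_two_pow hxlow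
  have hYx : Y ≤ x := by
    refine le_trans ?_ hxlow
    rw [hY]
    exact Nat.pow_le_pow_right (by norm_num) (by omega)
  have hYpos : 0 < Y := by rw [hY]; positivity
  -- sizes
  have hbig : 8 * x + Y ≤ 2 ^ (n + B) := by
    have h1 : A * 2 ^ (n - a) ≤ 2 ^ A * 2 ^ n :=
      Nat.mul_le_mul (Nat.lt_two_pow_self (n := A)).le (Nat.pow_le_pow_right (by norm_num) (by omega))
    have h2 : Y ≤ 2 ^ A * 2 ^ n := by
      refine le_trans ?_ (Nat.le_mul_of_pos_left _ (by positivity))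
      rw [hY]
      exact Nat.pow_le_pow_right (by norm_num) (by omega)
    have h3 : 2 ^ (n + B) = 8 * (2 ^ A * 2 ^ n) := by rw [hB, pow_add, pow_add]; ring
    omega
  have hLM : Real.log ((8 * x + Y : ℕ) : ℝ) ≤ n := log_upper n B _ (by omega) hbig (by omega)
  have hL4 : Real.log ((4 * x : ℕ) : ℝ) ≤ n := log_upper n B _ (by omega) (by omega) (by omega)
  have hlogx : (n : ℝ) / 3 ≤ Real.log (x : ℝ) := by
    refine (log_dyadic n (n - a - 1) (by omega)).trans ?_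
    apply Real.log_le_log
    · positivity
    · exact_mod_cast hxlow
  have hlogx0 : 0 < Real.log (x : ℝ) := lt_of_lt_of_le (by positivity) hlogx
  -- the length condition
  have hjr : (3 : ℝ) * n / 4 ≤ (j : ℝ) := by
    rw [hj, Nat.cast_sub hmn]
    have : ((m : ℕ) : ℝ) ≤ n / 4 := by rw [hm]; exact Nat.cast_div_le
    linarith
  have hYr : (Y : ℝ) = (2 : ℝ) ^ (j : ℝ) := by rw [hY, Real.rpow_natCast]; push_cast; rfl
  have hcond : ((4 * x : ℕ) : ℝ) ^ (1 / 3 : ℝ) * Real.log ((4 * x : ℕ) : ℝ) ^ C0 ≤ Y := by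
    have h1 : ((4 * x : ℕ) : ℝ) ≤ (2 : ℝ) ^ ((n : ℝ) + B) := by
      have h2 : ((4 * x : ℕ) : ℝ) ≤ ((2 ^ (n + B) : ℕ) : ℝ) := by exact_mod_cast (by omega : 4 * x ≤ 2 ^ (n + B))
      refine h2.trans (le_of_eq ?_)
      push_cast
      rw [← Real.rpow_natCast]
      push_cast
      rfl
    have h4 : ((4 * x : ℕ) : ℝ) ^ (1 / 3 : ℝ) ≤ (2 : ℝ) ^ (((n : ℝ) + B) / 3) := by
      calc _ ≤ ((2 : ℝ) ^ ((n : ℝ) + B)) ^ (1 / 3 : ℝ) :=
            Real.rpow_le_rpow (Nat.cast_nonneg _) h1 (by norm_num)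
        _ = _ := by rw [← Real.rpow_mul (by norm_num)]; congr 1; ring
    have h5 : Real.log ((4 * x : ℕ) : ℝ) ^ C0 ≤ (2 : ℝ) ^ ((n : ℝ) / 4) := by
      refine le_trans ?_ hpow1
      exact pow_le_pow_left₀ (Real.log_natCast_nonneg _) hL4 _
    calc _ ≤ (2 : ℝ) ^ (((n : ℝ) + B) / 3) * (2 : ℝ) ^ ((n : ℝ) / 4) :=
          mul_le_mul h4 h5 (pow_nonneg (Real.log_natCast_nonneg _) _) (by positivity)
      _ = (2 : ℝ) ^ (((n : ℝ) + B) / 3 + (n : ℝ) / 4) := by rw [Real.rpow_add (by norm_num)]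
      _ ≤ (2 : ℝ) ^ (j : ℝ) := by
          apply Real.rpow_le_rpow_of_exponent_le (by norm_num)
          have : (3 : ℝ) * B ≤ n := by exact_mod_cast (by omega : 3 * B ≤ n)
          linarith
      _ = Y := hYr.symm
  have hbk := hblk x hxX0 Y hcond hYx
  -- the exponent of the shift
  set e := 3 * (Nat.log 2 n + 1) with he
  have hlog1 : n < 2 ^ (Nat.log 2 n + 1) := Nat.lt_pow_succ_log_self (by norm_num) n
  have hlog2 : 2 ^ (Nat.log 2 n + 1) ≤ 2 * n := by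
    rw [pow_succ, mul_comm]
    exact Nat.mul_le_mul_left _ (Nat.pow_log_le_self 2 (by omega))
  have he1 : (n : ℝ) ^ 3 ≤ 2 ^ e := by
    rw [he, mul_comm, pow_mul]
    exact pow_le_pow_left₀ hn0.le (by exact_mod_cast hlog1.le) 3
  have he2 : (2 : ℝ) ^ e ≤ 8 * n ^ 3 := by
    rw [he, mul_comm 3, pow_mul]
    calc ((2 : ℝ) ^ (Nat.log 2 n + 1)) ^ 3 ≤ (2 * n) ^ 3 :=
          pow_le_pow_left₀ (by positivity) (by exact_mod_cast hlog2) 3
      _ = _ := by ring
  have hej : e ≤ j := by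
    have h1 : (2 : ℝ) ^ (e : ℝ) ≤ (2 : ℝ) ^ (j : ℝ) := by
      rw [Real.rpow_natCast]
      refine he2.trans ?_
      have h2 : (8 : ℝ) * n ^ 3 ≤ (n : ℝ) ^ (8 + 2 * B) := by
        have h3 : (8 : ℝ) ≤ n := by exact_mod_cast (by omega : 8 ≤ n)
        calc (8 : ℝ) * (n : ℝ) ^ 3 ≤ (n : ℝ) * (n : ℝ) ^ 3 := by gcongr
          _ = (n : ℝ) ^ 4 := by ring
          _ ≤ (n : ℝ) ^ (8 + 2 * B) := pow_le_pow_right₀ hn1 (by omega)
      refine h2.trans (hpow2.trans ?_)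
      apply Real.rpow_le_rpow_of_exponent_le (by norm_num)
      linarith
    have h2 := (Real.rpow_le_rpow_left_iff (by norm_num : (1 : ℝ) < 2)).1 h1
    exact_mod_cast h2
  set s0 := 2 ^ (j - e) with hs0
  have hs0Y : (s0 : ℝ) * 2 ^ e = Y := by
    rw [hs0, hY]
    push_cast
    rw [← pow_add]
    congr 1
    omega
  have hs0le : s0 ≤ Y := by rw [hs0, hY]; exact Nat.pow_le_pow_right (by norm_num) (by omega)
  have hs0pos : (0 : ℝ) < s0 := by rw [hs0]; positivity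
  have hYp : (0 : ℝ) < Y := by exact_mod_cast hYpos
  -- the cell
  set k1 := A * 2 ^ (m - a) with hk1
  set T := 2 ^ (m - a) with hT
  have hTp : (0 : ℝ) < T := by rw [hT]; positivity
  have hTY : T * Y = 2 ^ (n - a) := by rw [hT, hY, ← pow_add]; congr 1; omega
  have hk1Y : k1 * Y = 2 * x := by rw [hk1, h2x, mul_assoc, hTY]
  have hk2Y : (k1 + T) * Y = 2 * x + 2 ^ (n - a) := by rw [add_mul, hk1Y, hTY]
  have h2na : 2 ^ (n - a) ≤ 2 * x := by rw [h2x]; exact Nat.le_mul_of_pos_left _ hA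
  have hspb : ∀ b : ℕ, b < h n → ∑ k ∈ Ico k1 (k1 + T), |wS (k * Y + b) Y| ≤
      (7 * x * (Y : ℝ) / Real.log x ^ 6) / s0 + T * (2 * s0 * (n + 1)) := by
    intro b hb
    have hb2 : b ≤ 2 * x := by
      have h1 : 2 ^ (n / 2) ≤ 2 ^ (n - a) := Nat.pow_le_pow_right (by norm_num) (by omega)
      omega
    have h1 := sparse x Y s0 b k1 (k1 + T) n hs0le (by omega) (by omega) hLM (by linarith)
    rw [Nat.add_sub_cancel_left] at h1
    have h2 : (s0 : ℝ) * ∑ k ∈ Ico k1 (k1 + T), |wS (k * Y + b) Y| ≤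
        7 * x * (Y : ℝ) / Real.log x ^ 6 + T * (s0 * (2 * s0 * (n + 1))) := h1.trans (by linarith)
    have h3 : ∑ k ∈ Ico k1 (k1 + T), |wS (k * Y + b) Y| ≤
        (7 * x * (Y : ℝ) / Real.log x ^ 6 + T * (s0 * (2 * s0 * (n + 1)))) / s0 := by
      rw [le_div_iff₀ hs0pos, mul_comm]
      exact h2
    refine h3.trans (le_of_eq ?_)
    field_simp
  -- the prime powers
  set M := 8 * x + Y with hM
  set PP : ℝ := 2 * Real.sqrt M * Real.log M with hPP
  have hM1 : (1 : ℝ) ≤ M := by exact_mod_cast (by omega : 1 ≤ M)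
  have hPPb : PP ≤ Y / n ^ 2 := by
    rw [le_div_iff₀ (by positivity)]
    have h1 : Real.sqrt M ≤ (2 : ℝ) ^ (((n : ℝ) + B) / 2) := by
      rw [Real.sqrt_le_left (by positivity)]
      have h2 : (M : ℝ) ≤ ((2 ^ (n + B) : ℕ) : ℝ) := by exact_mod_cast hbig
      refine h2.trans (le_of_eq ?_)
      push_cast
      rw [← Real.rpow_natCast, ← Real.rpow_natCast, ← Real.rpow_mul (by norm_num)]
      congr 1
      push_cast
      ring
    have h2 : (2 : ℝ) ^ ((B : ℝ) / 2) ≤ (n : ℝ) ^ B := by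
      calc (2 : ℝ) ^ ((B : ℝ) / 2) ≤ (2 : ℝ) ^ (B : ℝ) := by
            apply Real.rpow_le_rpow_of_exponent_le (by norm_num)
            linarith [(Nat.cast_nonneg B : (0 : ℝ) ≤ B)]
        _ = (2 : ℝ) ^ B := Real.rpow_natCast _ _
        _ ≤ (n : ℝ) ^ B := by
            apply pow_le_pow_left₀ (by norm_num)
            exact_mod_cast (by omega : 2 ≤ n)
    have h3 : (2 : ℝ) ^ (((n : ℝ) + B) / 2) = (2 : ℝ) ^ ((n : ℝ) / 2) * (2 : ℝ) ^ ((B : ℝ) / 2) := by
      rw [← Real.rpow_add (by norm_num)]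
      congr 1
      ring
    have h4 : Real.log M ≤ n := hLM
    have h5 : (2 : ℝ) ≤ n := by exact_mod_cast (by omega : 2 ≤ n)
    calc PP * (n : ℝ) ^ 2 ≤ (n * ((2 : ℝ) ^ ((n : ℝ) / 2) * (n : ℝ) ^ B) * n) * n ^ 2 := by
          rw [hPP]
          have h6 : Real.sqrt M ≤ (2 : ℝ) ^ ((n : ℝ) / 2) * (n : ℝ) ^ B := by
            refine h1.trans ?_
            rw [h3]
            gcongr
          have h7 : 0 ≤ Real.log M := Real.log_nonneg hM1
          gcongr
      _ = (2 : ℝ) ^ ((n : ℝ) / 2) * (n : ℝ) ^ (B + 4) := by ring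
      _ ≤ (2 : ℝ) ^ ((n : ℝ) / 2) * (n : ℝ) ^ (8 + 2 * B) := by
          apply mul_le_mul_of_nonneg_left _ (by positivity)
          exact pow_le_pow_right₀ hn1 (by omega)
      _ ≤ (2 : ℝ) ^ ((n : ℝ) / 2) * (2 : ℝ) ^ ((n : ℝ) / 4) :=
          mul_le_mul_of_nonneg_left hpow2 (by positivity)
      _ = (2 : ℝ) ^ ((n : ℝ) / 2 + (n : ℝ) / 4) := by rw [Real.rpow_add (by norm_num)]
      _ ≤ (2 : ℝ) ^ (j : ℝ) := by
          apply Real.rpow_le_rpow_of_exponent_le (by norm_num)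
          linarith
      _ = Y := hYr.symm
  have hhr : (0 : ℝ) < h n := by exact_mod_cast (by omega : 0 < h n)
  -- the conditional means
  have hF : ∀ k ∈ Ico k1 (k1 + T), |ce (n - n / 4) (th (h n)) k - 1| ≤
      (∑ i ∈ Icc 1 (h n), (|wS (k * Y + (i - 1)) Y| + PP)) / (h n * Y) := by
    intro k hk
    rw [mem_Ico] at hk
    rw [ce_Ico]
    have e1 : ((2 : ℝ) ^ (n - n / 4)) = Y := by rw [hY, hj, hm]; push_cast; rfl
    have e2 : (2 : ℕ) ^ (n - n / 4) = Y := by rw [hY, hj, hm]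
    rw [e1, e2, win_tw]
    have e3 : (∑ i ∈ Icc 1 (h n), tw (k * Y + i - 1) Y) / (h n) / Y - 1 =
        (∑ i ∈ Icc 1 (h n), (tw (k * Y + i - 1) Y - Y)) / (h n * Y) := by
      rw [sum_sub_distrib, sum_const, Nat.card_Icc, nsmul_eq_mul, Nat.add_sub_cancel]
      field_simp
    rw [e3, abs_div, abs_of_pos (by positivity : (0 : ℝ) < h n * Y)]
    apply div_le_div_of_nonneg_right _ (by positivity)
    refine (abs_sum_le_sum_abs _ _).trans (sum_le_sum fun i hi => ?_)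
    rw [mem_Icc] at hi
    have e4 : k * Y + i - 1 = k * Y + (i - 1) := by omega
    rw [e4]
    apply tw_err
    · have h1 : (k + 1) * Y ≤ (k1 + T) * Y := Nat.mul_le_mul_right _ hk.2
      rw [add_mul, one_mul] at h1
      have h3 : 2 ^ (n / 2) ≤ 2 ^ (n - a) := Nat.pow_le_pow_right (by norm_num) (by omega)
      omega
    · omega
  rw [ce_Ico]
  have e5 : ((2 : ℝ) ^ (m - a)) = T := by rw [hT]; push_cast; rfl
  rw [e5]
  have hsumF : ∑ k ∈ Ico k1 (k1 + T), |ce (n - n / 4) (th (h n)) k - 1| ≤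
      (((7 * x * (Y : ℝ) / Real.log x ^ 6) / s0 + T * (2 * s0 * (n + 1))) + T * PP) / Y := by
    calc _ ≤ ∑ k ∈ Ico k1 (k1 + T), (∑ i ∈ Icc 1 (h n), (|wS (k * Y + (i - 1)) Y| + PP)) / (h n * Y) :=
          sum_le_sum hF
      _ = (∑ i ∈ Icc 1 (h n), (∑ k ∈ Ico k1 (k1 + T), |wS (k * Y + (i - 1)) Y| + T * PP)) / (h n * Y) := by
          rw [← sum_div, sum_comm]
          congr 1
          refine sum_congr rfl fun i _ => ?_
          rw [sum_add_distrib, sum_const, Nat.card_Ico, Nat.add_sub_cancel_left, nsmul_eq_mul]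
      _ ≤ (∑ i ∈ Icc 1 (h n), (((7 * x * (Y : ℝ) / Real.log x ^ 6) / s0 + T * (2 * s0 * (n + 1))) +
            T * PP)) / (h n * Y) := by
          apply div_le_div_of_nonneg_right _ (by positivity)
          apply sum_le_sum
          intro i hi
          rw [mem_Icc] at hi
          exact add_le_add (hspb (i - 1) (by omega)) le_rfl
      _ = _ := by
          rw [sum_const, Nat.card_Icc, nsmul_eq_mul, Nat.add_sub_cancel]
          field_simp
  have hmain : (((7 * x * (Y : ℝ) / Real.log x ^ 6) / s0 + T * (2 * s0 * (n + 1))) + T * PP) / Y / T ≤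
      (7 * 4 * 729 * A + 5) * (1 / (n : ℝ) ^ 2) := by
    have e6 : (((7 * x * (Y : ℝ) / Real.log x ^ 6) / s0 + T * (2 * s0 * (n + 1))) + T * PP) / Y / T =
        7 * x / (s0 * T * Real.log x ^ 6) + 2 * (n + 1) * (s0 / Y) + PP / Y := by
      field_simp
    rw [e6]
    have hxr : (x : ℝ) = A * (T * Y) / 2 := by
      have h1 : (2 * x : ℝ) = A * (T * Y) := by
        have : 2 * x = A * (T * Y) := by rw [hTY, h2x]
        exact_mod_cast this
      linarith
    have t1 : 7 * (x : ℝ) / (s0 * T * Real.log x ^ 6) ≤ 7 * 4 * 729 * A * (1 / (n : ℝ) ^ 2) := by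
      have h1 : 7 * (x : ℝ) / (s0 * T * Real.log x ^ 6) = 7 / 2 * A * 2 ^ e / Real.log x ^ 6 := by
        rw [hxr, ← hs0Y]
        field_simp
      rw [h1]
      have h2 : ((n : ℝ) / 3) ^ 6 ≤ Real.log x ^ 6 := pow_le_pow_left₀ (by positivity) hlogx 6
      calc 7 / 2 * (A : ℝ) * 2 ^ e / Real.log x ^ 6 ≤ 7 / 2 * A * (8 * n ^ 3) / ((n : ℝ) / 3) ^ 6 := by
            gcongr
        _ = 7 * 4 * 729 * A * (1 / (n : ℝ) ^ 3) := by
            field_simp
            ring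
        _ ≤ 7 * 4 * 729 * A * (1 / (n : ℝ) ^ 2) := by
            apply mul_le_mul_of_nonneg_left _ (by positivity)
            apply one_div_le_one_div_of_le (by positivity)
            exact pow_le_pow_right₀ hn1 (by norm_num)
    have t2 : 2 * ((n : ℝ) + 1) * (s0 / Y) ≤ 4 * (1 / (n : ℝ) ^ 2) := by
      have h1 : (s0 : ℝ) / Y = 1 / 2 ^ e := by
        rw [← hs0Y]
        field_simp
      rw [h1]
      have h2 : 1 / (2 : ℝ) ^ e ≤ 1 / (n : ℝ) ^ 3 := one_div_le_one_div_of_le (by positivity) he1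
      calc 2 * ((n : ℝ) + 1) * (1 / 2 ^ e) ≤ 2 * (n + n) * (1 / n ^ 3) := by gcongr
        _ = _ := by field_simp; ring
    have t3 : PP / Y ≤ 1 * (1 / (n : ℝ) ^ 2) := by
      rw [div_le_iff₀ hYp]
      refine hPPb.trans (le_of_eq ?_)
      ring
    calc _ ≤ 7 * 4 * 729 * A * (1 / (n : ℝ) ^ 2) + 4 * (1 / (n : ℝ) ^ 2) + 1 * (1 / (n : ℝ) ^ 2) :=
          add_le_add (add_le_add t1 t2) t3
      _ = _ := by ring
  refine le_trans ?_ hmain
  exact div_le_div_of_nonneg_right hsumF hTp.le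

end Pool.Agent.V8H9.DP
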