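import Mathlib
import Pool.Agent.V8H9.DP.Mean2
import Pool.Agent.V8H9.DP.Main

/-! The exact logarithmic law of large numbers for the primes just above `x 2^n`. -/

set_option autoImplicit false

namespace Pool.Agent.V8H9.DP

open Finset Filter Topology MeasureTheory Asymptotics Pool.Agent.Q236.CR

lemma tendsto_log_nat : Tendsto (fun N : ℕ => Real.log N) atTop atTop :=
  Real.tendsto_log_atTop.comp tendsto_natCast_atTop_atTop

/-- changing the terms by a factor tending to one -/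
lemma sum_equiv (w c : ℕ → ℝ) (hw : ∀ n, 0 ≤ w n)
    (h1 : Tendsto (fun N : ℕ => (∑ n ∈ range (N + 1), w n) / Real.log N) atTop (𝓝 1))
    (h2 : (fun n => c n - w n) =o[atTop] w) :
    Tendsto (fun N : ℕ => (∑ n ∈ range (N + 1), c n) / Real.log N) atTop (𝓝 1) := by
  have hev : ∀ᶠ N : ℕ in atTop, 0 < Real.log N := tendsto_log_nat.eventually (eventually_gt_atTop 0)
  have hW : Tendsto (fun N : ℕ => ∑ n ∈ range (N + 1), w n) atTop atTop := by
    have h3 := tendsto_log_nat.atTop_mul_pos (zero_lt_one' ℝ) h1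
    refine h3.congr' ?_
    filter_upwards [hev] with N hN
    field_simp
  have hW' : Tendsto (fun N : ℕ => ∑ n ∈ range N, w n) atTop atTop := by
    rw [← tendsto_add_atTop_iff_nat 1]
    exact hW
  have h3 := h2.sum_range (fun n => hw n) hW'
  have h4 : (fun N : ℕ => ∑ n ∈ range (N + 1), (c n - w n)) =o[atTop] fun N : ℕ => ∑ n ∈ range (N + 1), w n :=
    h3.comp_tendsto (tendsto_add_atTop_nat 1)
  have h5 := h4.tendsto_div_nhds_zero
  have h6 := h5.mul h1
  rw [zero_mul] at h6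
  have h7 := h1.add h6
  rw [add_zero] at h7
  refine h7.congr' ?_
  filter_upwards [hev, hW.eventually (eventually_gt_atTop 0)] with N hN hN2
  rw [sum_sub_distrib]
  field_simp
  ring

lemma harm_lim : Tendsto (fun N : ℕ => (∑ n ∈ range (N + 1), 1 / (n : ℝ)) / Real.log N) atTop (𝓝 1) := by
  have h1 : ∀ N : ℕ, ∑ n ∈ range (N + 1), 1 / (n : ℝ) = ((harmonic N : ℚ) : ℝ) := by
    intro N
    rw [harmonic_eq_sum_Icc, sum_range_succ']
    push_cast
    rw [div_zero, add_zero]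
    have hIcc : Icc 1 N = Ico 1 (N + 1) := by
      ext n
      rw [mem_Icc, mem_Ico]
      omega
    rw [hIcc, sum_Ico_eq_sum_range]
    simp only [Nat.add_sub_cancel]
    refine sum_congr rfl fun n _ => ?_
    rw [one_div]
    push_cast
    rw [add_comm]
  have hev : ∀ᶠ N : ℕ in atTop, 0 < Real.log N := tendsto_log_nat.eventually (eventually_gt_atTop 0)
  have h2 : Tendsto (fun N : ℕ => (1 + Real.log N) / Real.log N) atTop (𝓝 1) := by
    have h3 : Tendsto (fun N : ℕ => 1 / Real.log N + 1) atTop (𝓝 (0 + 1)) :=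
      (tendsto_const_nhds.div_atTop tendsto_log_nat).add tendsto_const_nhds
    rw [zero_add] at h3
    refine h3.congr' ?_
    filter_upwards [hev] with N hN
    field_simp
  refine tendsto_of_tendsto_of_tendsto_of_le_of_le' (tendsto_const_nhds (x := (1 : ℝ))) h2 ?_ ?_
  · filter_upwards [hev, eventually_ge_atTop 1] with N hN hN1
    rw [h1, le_div_iff₀ hN, one_mul]
    refine le_trans ?_ (log_add_one_le_harmonic N)
    apply Real.log_le_log
    · exact_mod_cast hN1
    · push_cast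
      linarith
  · filter_upwards [hev] with N hN
    rw [h1]
    exact div_le_div_of_nonneg_right (harmonic_le_one_add_log N) hN.le

lemma add_const_lim (f g : ℕ → ℝ) (c : ℝ) (h : Tendsto (fun N : ℕ => f N / Real.log N) atTop (𝓝 1))
    (hg : ∀ᶠ N : ℕ in atTop, g N = f N + c) : Tendsto (fun N : ℕ => g N / Real.log N) atTop (𝓝 1) := by
  have h1 : Tendsto (fun N : ℕ => c / Real.log N) atTop (𝓝 0) :=
    tendsto_const_nhds.div_atTop tendsto_log_nat
  have h2 := h.add h1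
  rw [add_zero] at h2
  refine h2.congr' ?_
  filter_upwards [hg] with N hN
  rw [hN, add_div]

lemma range_split (f : ℕ → ℝ) (n0 N : ℕ) (h : n0 ≤ N + 1) :
    ∑ n ∈ range (N + 1), f n = ∑ n ∈ Icc n0 N, f n + ∑ n ∈ range n0, f n := by
  have hIcc : Icc n0 N = Ico n0 (N + 1) := by
    ext n
    rw [mem_Icc, mem_Ico]
    omega
  rw [hIcc]
  have := sum_range_add_sum_Ico f h
  linarith

theorem law_th (hsic : S_SIC) (h : ℕ → ℕ) (hh : ∀ᶠ n : ℕ in atTop, 1 ≤ h n ∧ h n ≤ 2 ^ (n / 2)) (a A : ℕ)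
    (hA : 1 ≤ A) : ∀ᵐ x : ℝ, x ∈ cell a A →
    Tendsto (fun N : ℕ => (∑ n ∈ range (N + 1), th (h n) ⌊x * 2 ^ n⌋₊ / n) / Real.log N) atTop (𝓝 1) := by
  have hh' : ∀ᶠ n : ℕ in atTop, 1 ≤ h n ∧ h n ≤ 2 ^ n := by
    filter_upwards [hh] with n hn
    exact ⟨hn.1, hn.2.trans (Nat.pow_le_pow_right (by norm_num) (Nat.div_le_self _ _))⟩
  obtain ⟨C, hC, hpb⟩ := pb_th 4 (by norm_num) h hh' a A
  obtain ⟨n0, hn0, hn01, hn0a⟩ := (hpb.and ((eventually_ge_atTop 1).and (eventually_ge_atTop (4 * a)))).exists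
  have ha : a ≤ n0 / 4 := by omega
  have h1 := lln_of_var 4 (fun n l => th (h n) l) n0 a A (6 * C ^ 2 * (4 : ℕ) ^ 2) (by positivity)
    (fun N => ss_var2 4 (by norm_num) _ n0 N a A C hC hn01 ha hn0)
  obtain ⟨C2, hC2, hcm⟩ := cmean hsic h hh a A hA
  obtain ⟨n1, hn1⟩ := eventually_atTop.1 hcm
  set n2 := max n1 (4 * a + 1) with hn2
  have hn21 : n1 ≤ n2 := le_max_left _ _
  have hn2a : 4 * a + 1 ≤ n2 := le_max_right _ _
  have h2 := ae_tendsto a A (fun j => (j + n2) / 4) (fun j => by omega)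
    (fun j k => |ce ((j + n2) - (j + n2) / 4) (th (h (j + n2))) k - 1|) (fun _ _ => abs_nonneg _)
    (fun j => C2 * (1 / ((j + n2 : ℕ) : ℝ) ^ 2)) (fun j => hn1 (j + n2) (by omega)) (by
      apply Summable.mul_left
      exact (summable_nat_add_iff (f := fun n : ℕ => 1 / (n : ℝ) ^ 2) n2).2
        (Real.summable_one_div_nat_pow.2 (by norm_num)))
  filter_upwards [h1, h2] with x hx1 hx2 hxc
  have g1 := hx1 hxc
  have g2 := hx2 hxc
  -- the conditional means tend to one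
  set e : ℕ → ℝ := fun n => ce (n - n / 4) (th (h n)) ⌊x * 2 ^ (n / 4)⌋₊ with he
  have g3 : Tendsto (fun n => e n - 1) atTop (𝓝 0) := by
    rw [tendsto_zero_iff_abs_tendsto_zero, ← tendsto_add_atTop_iff_nat n2]
    exact g2
  -- their logarithmic sums
  have g4 : Tendsto (fun N : ℕ => (∑ n ∈ range (N + 1), e n / n) / Real.log N) atTop (𝓝 1) := by
    apply sum_equiv (fun n => 1 / (n : ℝ)) (fun n => e n / n) (fun n => by positivity) harm_lim
    have g5 : (fun n => e n - 1) =o[atTop] fun _ => (1 : ℝ) := (isLittleO_one_iff ℝ).2 g3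
    have g6 := g5.mul_isBigO (isBigO_refl (fun n : ℕ => 1 / (n : ℝ)) atTop)
    refine g6.congr (fun n => ?_) (fun n => ?_)
    · ring
    · ring
  have g5 : Tendsto (fun N : ℕ => (∑ n ∈ Icc n0 N, e n / n) / Real.log N) atTop (𝓝 1) := by
    apply add_const_lim _ _ (-∑ n ∈ range n0, e n / n) g4
    filter_upwards [eventually_ge_atTop n0] with N hN
    rw [range_split _ n0 N (by omega)]
    ring
  -- along the subsequence
  have hsub : Tendsto (fun j : ℕ => 2 ^ (j ^ 2)) atTop atTop := by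
    apply tendsto_atTop_mono (fun j => ?_) tendsto_id
    have h3 := (Nat.lt_two_pow_self (n := j ^ 2)).le
    have h4 := Nat.le_self_pow two_ne_zero j
    exact h4.trans h3
  have hl2 : 0 < Real.log 2 := Real.log_pos (by norm_num)
  have g6 := g5.comp hsub
  have g7 : Tendsto (fun j : ℕ => (∑ n ∈ Icc n0 (2 ^ (j ^ 2)), th (h n) ⌊x * 2 ^ n⌋₊ / n) /
      ((j : ℝ) ^ 2 * Real.log 2)) atTop (𝓝 1) := by
    have g8 := (g1.div_const (Real.log 2)).add g6
    rw [zero_div, zero_add] at g8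
    refine g8.congr' ?_
    filter_upwards [eventually_ge_atTop 1] with j hj
    have hj0 : (0 : ℝ) < j := by exact_mod_cast hj
    simp only [Function.comp]
    have e1 : Real.log ((2 ^ (j ^ 2) : ℕ) : ℝ) = (j : ℝ) ^ 2 * Real.log 2 := by
      push_cast
      rw [Real.log_pow]
      push_cast
      rfl
    rw [e1]
    have e2 : ∑ n ∈ Icc n0 (2 ^ (j ^ 2)), (th (h n) ⌊x * 2 ^ n⌋₊ - ce (n - n / 4) (fun l => th (h n) l)
        ⌊x * 2 ^ (n / 4)⌋₊) / n = ∑ n ∈ Icc n0 (2 ^ (j ^ 2)), th (h n) ⌊x * 2 ^ n⌋₊ / n -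
        ∑ n ∈ Icc n0 (2 ^ (j ^ 2)), e n / n := by
      rw [← sum_sub_distrib]
      exact sum_congr rfl fun n _ => sub_div _ _ _
    rw [e2]
    field_simp
    ring
  have hmono : Monotone (fun N : ℕ => ∑ n ∈ Icc n0 N, th (h n) ⌊x * 2 ^ n⌋₊ / n) := by
    intro M N hMN
    exact sum_le_sum_of_subset_of_nonneg (Icc_subset_Icc le_rfl hMN)
      fun _ _ _ => div_nonneg (th_nonneg _ _) (Nat.cast_nonneg _)
  have g9 := interp_lim _ hmono g7
  apply add_const_lim _ _ (∑ n ∈ range n0, th (h n) ⌊x * 2 ^ n⌋₊ / n) g9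
  filter_upwards [eventually_ge_atTop n0] with N hN
  exact range_split _ n0 N (by omega)

/-- from logarithmic weights to counting -/
lemma th_rr (x : ℝ) (hx : 0 < x) (h n : ℕ) (hn : 1 ≤ n) (hh : h ≤ 2 ^ n) :
    |th h ⌊x * 2 ^ n⌋₊ / n - Real.log 2 * rr h ⌊x * 2 ^ n⌋₊ / h| ≤
      ((|Real.log x| + Real.log (x + 1)) / n) * (rr h ⌊x * 2 ^ n⌋₊ / h) := by
  set l := ⌊x * 2 ^ n⌋₊ with hl
  set B := |Real.log x| + Real.log (x + 1) with hB
  have hn0 : (0 : ℝ) < n := by exact_mod_cast hn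
  have hlx : 0 ≤ Real.log (x + 1) := Real.log_nonneg (by linarith)
  have h1 : ∀ i, 1 ≤ i → i ≤ h → |Real.log ((l + i : ℕ) : ℝ) - n * Real.log 2| ≤ B := by
    intro i hi1 hi2
    have a1 : x * 2 ^ n ≤ ((l + i : ℕ) : ℝ) := by
      push_cast
      have := (Nat.lt_floor_add_one (x * 2 ^ n)).le
      have h2 : (1 : ℝ) ≤ i := by exact_mod_cast hi1
      rw [← hl] at this
      linarith
    have a2 : ((l + i : ℕ) : ℝ) ≤ (x + 1) * 2 ^ n := by
      push_cast
      have h2 := Nat.floor_le (by positivity : 0 ≤ x * 2 ^ n)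
      have h3 : (i : ℝ) ≤ 2 ^ n := by exact_mod_cast hi2.trans hh
      rw [← hl] at h2
      nlinarith
    have b1 := Real.log_le_log (by positivity) a1
    have b2 := Real.log_le_log (lt_of_lt_of_le (by positivity) a1) a2
    rw [Real.log_mul hx.ne' (by positivity), Real.log_pow] at b1
    rw [Real.log_mul (by linarith) (by positivity), Real.log_pow] at b2
    have := neg_abs_le (Real.log x)
    have := abs_nonneg (Real.log x)
    rw [abs_le, hB]
    constructor <;> linarith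
  have e1 : th h l / n - Real.log 2 * rr h l / h =
      (∑ i ∈ Icc 1 h, if (l + i).Prime then (Real.log ((l + i : ℕ) : ℝ) - n * Real.log 2) / n else 0) / h := by
    unfold th
    rw [rr_eq, mul_sum, div_right_comm, sum_div, ← sub_div, ← sum_sub_distrib]
    congr 1
    refine sum_congr rfl fun i _ => ?_
    split_ifs
    · field_simp
    · simp
  rw [e1, abs_div, Nat.abs_cast, rr_eq, ← mul_div_assoc, mul_sum]
  apply div_le_div_of_nonneg_right _ (Nat.cast_nonneg _)
  refine (abs_sum_le_sum_abs _ _).trans (sum_le_sum fun i hi => ?_)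
  rw [mem_Icc] at hi
  split_ifs
  · rw [mul_one, abs_div, abs_of_pos hn0]
    exact div_le_div_of_nonneg_right (h1 i hi.1 hi.2) hn0.le
  · simp

theorem law_rr (hsic : S_SIC) (h : ℕ → ℕ) (hh : ∀ᶠ n : ℕ in atTop, 1 ≤ h n ∧ h n ≤ 2 ^ (n / 2)) (a A : ℕ)
    (hA : 1 ≤ A) : ∀ᵐ x : ℝ, x ∈ cell a A →
    Tendsto (fun N : ℕ => (∑ n ∈ range (N + 1), Real.log 2 * rr (h n) ⌊x * 2 ^ n⌋₊ / h n) / Real.log N)
      atTop (𝓝 1) := by
  filter_upwards [law_th hsic h hh a A hA] with x hx hxc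
  have hx0 : 0 < x := by
    unfold cell at hxc
    refine lt_of_lt_of_le ?_ hxc.1
    have : (0 : ℝ) < A := by exact_mod_cast hA
    positivity
  apply sum_equiv _ _ (fun n => div_nonneg (th_nonneg _ _) (Nat.cast_nonneg n)) (hx hxc)
  rw [isLittleO_iff]
  intro ε hε
  set B := |Real.log x| + Real.log (x + 1) with hB
  have hlx : 0 ≤ Real.log (x + 1) := Real.log_nonneg (by linarith)
  have hB0 : 0 ≤ B := by positivity
  have hl2 := Real.log_two_gt_d9
  -- `δ = B / n` small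
  have hev : ∀ᶠ n : ℕ in atTop, B / n ≤ min (ε / 4) (1 / 4) := by
    have h1 : Tendsto (fun n : ℕ => B / (n : ℝ)) atTop (𝓝 0) :=
      tendsto_const_nhds.div_atTop tendsto_natCast_atTop_atTop
    filter_upwards [h1.eventually (gt_mem_nhds (show (0 : ℝ) < min (ε / 4) (1 / 4) by positivity))] with n hn
    exact hn.le
  filter_upwards [hev, eventually_ge_atTop 1, hh] with n hn hn1 hhn
  have h2 := th_rr x hx0 (h n) n hn1 (hhn.2.trans (Nat.pow_le_pow_right (by norm_num) (Nat.div_le_self _ _)))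
  rw [← hB] at h2
  set R : ℝ := (rr (h n) ⌊x * 2 ^ n⌋₊ : ℝ) / h n with hR
  have hR0 : 0 ≤ R := by positivity
  set W : ℝ := th (h n) ⌊x * 2 ^ n⌋₊ / n with hW
  have hW0 : 0 ≤ W := div_nonneg (th_nonneg _ _) (Nat.cast_nonneg n)
  have e1 : Real.log 2 * (rr (h n) ⌊x * 2 ^ n⌋₊ : ℝ) / h n = Real.log 2 * R := by rw [hR]; ring
  rw [e1] at h2 ⊢
  have hm1 : B / n ≤ ε / 4 := hn.trans (min_le_left _ _)
  have hm2 : B / n ≤ 1 / 4 := hn.trans (min_le_right _ _)
  rw [Real.norm_eq_abs, Real.norm_eq_abs, abs_sub_comm, abs_of_nonneg hW0]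
  have h3 : Real.log 2 * R - W ≤ B / n * R := by
    have := (abs_le.1 h2).1
    linarith
  have h4 : B / n * R ≤ 1 / 4 * R := mul_le_mul_of_nonneg_right hm2 hR0
  have h5 : R ≤ 4 * W := by nlinarith
  calc |W - Real.log 2 * R| ≤ B / n * R := h2
    _ ≤ ε / 4 * R := mul_le_mul_of_nonneg_right hm1 hR0
    _ ≤ ε / 4 * (4 * W) := mul_le_mul_of_nonneg_left h5 (by positivity)
    _ = ε * W := by ring

end Pool.Agent.V8H9.DP
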