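import Mathlib
import Pool.Agent.V8H34.CR.Sic
import Pool.Agent.V8H34.CR.Dpl
import Pool.Agent.V8H34.CR.Win
import Pool.Agent.V8H34.CR.Low
import Pool.Agent.V8H34.CR.Fd
import Pool.Agent.V8H34.CR.Hb
import Pool.Agent.V8H34.CR.Mvg
import Pool.Agent.V8H34.CR.Dv
import Pool.Agent.V8H34.CR.Pw
import Pool.Agent.V8H34.CR.Chr
import Pool.Agent.V8H34.CR.Moc
import Pool.Agent.V8H34.CR.Lzf
import Pool.Agent.V8H34.CR.Lup
import Pool.Agent.V8H34.CR.Zsb
import Pool.Agent.V8H34.CR.Tnb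
import Pool.Agent.Q53.CR.SHB
import Pool.Agent.Q53.CR.SDB

/-! Project CR assembled: primes in almost all short intervals. -/

set_option autoImplicit false

namespace Pool.Agent.V8H9.DP

open Pool.Agent.Q236.CR

/-- project CR: primes and the Moebius function with characters in almost all short intervals -/
theorem sic_all : S_SIC := by
  have hchr : S_CHR := Pool.Agent.V8H34.CR.Chr.chr
    (Pool.Agent.V8H34.CR.zsb Pool.Agent.V8H34.CR.tnb Pool.Agent.Q53.CR.shb) Pool.Agent.Q53.CR.sdb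
  have hmoc : S_MOC := Pool.Agent.V8H34.CR.Moc.moc (Pool.Agent.V8H34.CR.Lzf.lzf (Pool.Agent.V8H34.CR.Lup.lup hchr))
  have hmvg : S_MVG := Pool.Agent.V8H34.CR.mvg Pool.Agent.V8H34.CR.dv
  have hfd : S_FD := Pool.Agent.V8H34.CR.Fd.fd
  exact Pool.Agent.V8H34.CR.sic
    (Pool.Agent.V8H34.CR.dpl Pool.Agent.V8H34.CR.Hb.hb1 hmvg (Pool.Agent.V8H34.CR.Pw.pw hchr hmoc) hchr hfd)
    Pool.Agent.V8H34.CR.Win.win Pool.Agent.V8H34.CR.low hfd

end Pool.Agent.V8H9.DP
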