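import Mathlib
import Pool.Agent.V8H9.DP.Law
import Pool.Agent.V8H9.DP.Fin
import Pool.Agent.V8H9.DP.SicAll

/-! The logarithmic law of large numbers, closed real intervals, almost every dilation. -/

set_option autoImplicit false

namespace Pool.Agent.V8H9.DP

open Finset Filter Topology MeasureTheory

lemma cnt_eq (x : ℝ) (hx : 0 ≤ x) (hne : ∀ k : ℕ, x ≠ k) (h : ℕ) : cnt x h = rr h ⌊x⌋₊ := by
  unfold rr cnt
  rw [← Set.ncard_coe_finset]
  congr 1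
  ext p
  rw [mem_coe, mem_filter, mem_Ioc, Set.mem_setOf_eq, Nat.floor_lt hx, ← Nat.floor_add_natCast hx,
    Nat.le_floor_iff (by positivity)]
  constructor
  · rintro ⟨h1, h2, h3⟩
    exact ⟨⟨lt_of_le_of_ne h2 (hne p), h3⟩, h1⟩
  · rintro ⟨⟨h2, h3⟩, h1⟩
    exact ⟨h1, h2.le, h3⟩

lemma ae_nonint : ∀ᵐ x : ℝ, ∀ n k : ℕ, x * 2 ^ n ≠ k := by
  have h1 : (Set.range (fun z : ℕ × ℕ => (z.2 : ℝ) / 2 ^ z.1)).Countable := Set.countable_range _
  filter_upwards [h1.ae_notMem volume] with x hx n k hk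
  apply hx
  refine ⟨(n, k), ?_⟩
  simp only
  rw [div_eq_iff (by positivity)]
  exact hk.symm

theorem law_pos (h : ℕ → ℕ) (hh : ∀ᶠ n : ℕ in atTop, 1 ≤ h n ∧ h n ≤ 2 ^ (n / 2)) :
    ∀ᵐ x : ℝ, 0 < x → Tendsto (fun N : ℕ => (∑ n ∈ Icc 1 N, (cnt (x * 2 ^ n) (h n) : ℝ) / h n) / Real.log N)
      atTop (𝓝 (1 / Real.log 2)) := by
  have h1 := ae_pos _ fun a A hA => law_rr sic_all h hh a A hA
  filter_upwards [h1, ae_nonint] with x hx hxn hx0
  have h2 := hx hx0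
  have h3 := add_const_lim _ (fun N => ∑ n ∈ Icc 1 N, Real.log 2 * rr (h n) ⌊x * 2 ^ n⌋₊ / h n)
    (-∑ n ∈ range 1, Real.log 2 * rr (h n) ⌊x * 2 ^ n⌋₊ / h n) h2 (by
      filter_upwards with N
      rw [range_split _ 1 N (by omega)]
      ring)
  have h4 := h3.const_mul (1 / Real.log 2)
  rw [mul_one] at h4
  refine h4.congr fun N => ?_
  have hl2 : Real.log 2 ≠ 0 := (Real.log_pos (by norm_num)).ne'
  have e1 : ∑ n ∈ Icc 1 N, Real.log 2 * rr (h n) ⌊x * 2 ^ n⌋₊ / h n =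
      Real.log 2 * ∑ n ∈ Icc 1 N, (cnt (x * 2 ^ n) (h n) : ℝ) / h n := by
    rw [mul_sum]
    refine sum_congr rfl fun n _ => ?_
    rw [cnt_eq _ (by positivity) (hxn n)]
    ring
  rw [e1]
  field_simp

/-- `p_n ≤ 2^(n/2)` for large `n` -/
lemma nth_le_half : ∀ᶠ n : ℕ in atTop, Nat.nth Nat.Prime (n - 1) ≤ 2 ^ (n / 2) := by
  have h2 := tendsto_pow_const_div_const_pow_of_one_lt 2 (by norm_num : (1 : ℝ) < 2)
  have h3 : ∀ᶠ q : ℕ in atTop, (8 : ℝ) * (q : ℝ) ^ 2 ≤ 2 ^ q := by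
    filter_upwards [h2.eventually (gt_mem_nhds (by norm_num : (0 : ℝ) < 1 / 8))] with q hq
    rw [div_lt_iff₀ (by positivity)] at hq
    linarith
  obtain ⟨q0, hq0⟩ := eventually_atTop.1 h3
  filter_upwards [eventually_ge_atTop (2 * q0 + 16)] with n hn
  set q := n / 2 with hq
  have hq1 : q0 ≤ q := by omega
  have hq8 : 8 ≤ q := by omega
  have hnq : n ≤ 2 * q + 1 := by omega
  have h4 := hq0 q hq1
  have h5 := Chebyshev.pi_ge (2 ^ q)
  have hq8r : (8 : ℝ) ≤ q := by exact_mod_cast hq8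
  have hl1 := Real.log_two_gt_d9
  have hl2 := Real.log_two_lt_d9
  have e1 : Real.log (((2 ^ q : ℕ) : ℝ)) = q * Real.log 2 := by
    push_cast
    rw [Real.log_pow]
  have e2 : Real.log (((2 ^ q : ℕ) : ℝ) + 1) ≤ q + 1 := by
    have h6 : ((2 ^ q : ℕ) : ℝ) + 1 ≤ 2 ^ (q + 1) := by
      push_cast
      have : (1 : ℝ) ≤ 2 ^ q := one_le_pow₀ (by norm_num)
      rw [pow_succ]
      linarith
    have h7 := Real.log_le_log (by positivity) h6
    rw [Real.log_pow] at h7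
    push_cast at h7 ⊢
    nlinarith
  have h8 : (n : ℝ) ≤ ((2 ^ q : ℕ) * Real.log 2 - Real.log (((2 ^ q : ℕ) : ℝ) + 1)) / Real.log ((2 ^ q : ℕ) : ℝ) := by
    rw [e1, le_div_iff₀ (by positivity)]
    have h9 : (n : ℝ) ≤ 2 * q + 1 := by exact_mod_cast hnq
    have h10 : (n : ℝ) * (q * Real.log 2) ≤ (2 * q + 1) * (q * 0.7) := by
      apply mul_le_mul h9 _ (by positivity) (by positivity)
      apply mul_le_mul_of_nonneg_left _ (by positivity)
      linarith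
    push_cast at e2 ⊢
    nlinarith
  have h9 : (n : ℝ) ≤ (Nat.primeCounting (2 ^ q) : ℝ) := h8.trans h5
  have h10 : n ≤ Nat.primeCounting (2 ^ q) := by exact_mod_cast h9
  rw [Nat.primeCounting_eq_primeCounting'_succ] at h10
  have h11 : n - 1 < Nat.count Nat.Prime (2 ^ q + 1) := by
    have : Nat.primeCounting' (2 ^ q + 1) = Nat.count Nat.Prime (2 ^ q + 1) := rfl
    omega
  have := Nat.nth_lt_of_lt_count h11
  omega

theorem law_nth : ∀ᵐ x : ℝ, 0 < x → Tendsto (fun N : ℕ =>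
    (∑ n ∈ Icc 1 N, (cnt (x * 2 ^ n) (Nat.nth Nat.Prime (n - 1)) : ℝ) / (Nat.nth Nat.Prime (n - 1) : ℝ)) /
      Real.log N) atTop (𝓝 (1 / Real.log 2)) := by
  apply law_pos (fun n => Nat.nth Nat.Prime (n - 1))
  filter_upwards [nth_le_half] with n hn
  refine ⟨?_, hn⟩
  have := Nat.add_two_le_nth_prime (n - 1)
  omega

end Pool.Agent.V8H9.DP
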