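import Mathlib
import Pool.Agent.V8H9.DP.Pb

/-! Overlaps of the intervals `[(p - h)/2^n, p/2^n)`, `p` prime: sieve bounds. -/

set_option autoImplicit false

namespace Pool.Agent.V8H9.DP

open Finset Filter Topology MeasureTheory Pool.Agent.Y851.DK Pool.Agent.R105.GD

/-- pairs of primes `p`, `2^j p - t` -/
lemma pair_t : ∃ C : ℝ, 1 ≤ C ∧ ∀ᶠ Y : ℕ in atTop, ∀ (X j : ℕ) (t : ℤ), t ≠ 0 →
    (((Ioc X (X + Y)).filter (fun p : ℕ => p.Prime ∧ ((2 : ℤ) ^ j * p - t).toNat.Prime)).card : ℝ)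
      ≤ C * Real.exp (C * sg t.natAbs) * (Y / Real.log Y ^ 2) := by
  classical
  obtain ⟨C, hC, hh⟩ := Pool.Agent.Y949.DK.t_SV 2
  refine ⟨2 * C * Real.exp C, by nlinarith [Real.one_le_exp (by linarith : 0 ≤ C)], ?_⟩
  have h2 := (tendsto_natCast_atTop_atTop (R := ℝ)).eventually hh
  filter_upwards [h2, eventually_ge_atTop 2] with Y hY hY2 X j t ht
  set F : Finset (ℤ × ℤ) := {(1, (X : ℤ)), (2 ^ j, 2 ^ j * (X : ℤ) - t)} with hF
  have hne : ((1 : ℤ), (X : ℤ)) ≠ (2 ^ j, 2 ^ j * (X : ℤ) - t) := by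
    intro h0
    have h1 := congrArg Prod.fst h0
    have h2 := congrArg Prod.snd h0
    simp only at h1 h2
    rw [← h1] at h2
    apply ht
    linarith
  have e1 : (1 : ℤ) * (2 ^ j * (X : ℤ) - t) - 2 ^ j * (X : ℤ) = -t := by ring
  have e2 : (2 : ℤ) ^ j * (X : ℤ) - 1 * (2 ^ j * (X : ℤ) - t) = t := by ring
  have h3 := hY F (by rw [hF, card_pair hne]) (by
      intro f hf
      rw [hF, mem_insert, mem_singleton] at hf
      rcases hf with rfl | rfl
      · simp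
      · simp) (by
      intro f hf g hg hfg
      rw [hF, mem_insert, mem_singleton] at hf hg
      rcases hf with rfl | rfl <;> rcases hg with rfl | rfl
      · exact absurd rfl hfg
      · simp only
        rw [e1]
        exact neg_ne_zero.2 ht
      · simp only
        rw [e2]
        exact ht
      · exact absurd rfl hfg)
  rw [Nat.floor_natCast] at h3
  have hs1 : sg 1 = 0 := by unfold sg; simp
  have hs0 : sg 0 = 0 := by unfold sg; simp
  set D : ℕ := t.natAbs with hD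
  have hsum : ∑ f ∈ F, sg f.1.natAbs + ∑ f ∈ F, ∑ g ∈ F,
      sg (f.1 * g.2 - g.1 * f.2).natAbs ≤ 1 + 2 * sg D := by
    rw [hF, sum_pair hne, sum_pair hne, sum_pair hne, sum_pair hne]
    simp only [sub_self, Int.natAbs_zero, hs0]
    rw [e1, e2, Int.natAbs_neg, ← hD, Int.natAbs_one, hs1]
    have e3 : ((2 : ℤ) ^ j).natAbs = 2 ^ j := by rw [Int.natAbs_pow]; rfl
    rw [e3]
    have := sg_two_pow j
    linarith
  have hcard : (((Ioc X (X + Y)).filter (fun p : ℕ => p.Prime ∧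
      ((2 : ℤ) ^ j * p - t).toNat.Prime)).card : ℝ) ≤
      (((Icc 1 Y).filter (fun n : ℕ => ∀ f ∈ F, (f.1 * (n : ℤ) + f.2).toNat.Prime)).card : ℝ) := by
    rw [Nat.cast_le]
    apply card_le_card_of_injOn (fun p => p - X)
    · intro p hp
      rw [mem_coe, mem_filter, mem_Ioc] at hp
      simp only [mem_coe, mem_filter, mem_Icc]
      refine ⟨by omega, fun f hf => ?_⟩
      have h5 : ((p - X : ℕ) : ℤ) = (p : ℤ) - X := by omega
      rw [hF, mem_insert, mem_singleton] at hf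
      rcases hf with rfl | rfl
      · have : ((1 : ℤ) * ((p - X : ℕ) : ℤ) + (X : ℤ)).toNat = p := by omega
        simp only [this]
        exact hp.2.1
      · have : (2 : ℤ) ^ j * ((p - X : ℕ) : ℤ) + (2 ^ j * (X : ℤ) - t) = (2 : ℤ) ^ j * p - t := by
          rw [h5]; ring
        simp only [this]
        exact hp.2.2
    · intro p hp q hq hpq
      rw [mem_coe, mem_filter, mem_Ioc] at hp hq
      simp only at hpq
      omega
  refine hcard.trans (h3.trans ?_)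
  have hY2' : (2 : ℝ) ≤ Y := by exact_mod_cast hY2
  have hlog : 0 < Real.log Y := Real.log_pos (by linarith)
  apply mul_le_mul_of_nonneg_right _ (by positivity)
  have hsg := sg_nonneg D
  have hexpC := Real.one_le_exp (by linarith : 0 ≤ C)
  calc C * Real.exp (C * (∑ f ∈ F, sg f.1.natAbs + ∑ f ∈ F, ∑ g ∈ F,
        sg (f.1 * g.2 - g.1 * f.2).natAbs))
      ≤ C * Real.exp (C * (1 + 2 * sg D)) := by
        apply mul_le_mul_of_nonneg_left _ (by linarith)
        apply Real.exp_le_exp.2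
        exact mul_le_mul_of_nonneg_left hsum (by linarith)
    _ = (C * Real.exp C) * Real.exp (2 * C * sg D) := by
        rw [mul_assoc, ← Real.exp_add]
        congr 2
        ring
    _ ≤ (2 * C * Real.exp C) * Real.exp (2 * C * Real.exp C * sg D) := by
        apply mul_le_mul _ _ (Real.exp_pos _).le (by positivity)
        · have : 0 < C * Real.exp C := by positivity
          linarith
        · apply Real.exp_le_exp.2
          apply mul_le_mul_of_nonneg_right _ hsg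
          nlinarith

/-- the interval of the `x` with `x 2^n < p ≤ x 2^n + h` -/
def iv (n : ℕ) (h : ℝ) (p : ℕ) : Set ℝ := Set.Ico (((p : ℝ) - h) / 2 ^ n) ((p : ℝ) / 2 ^ n)

lemma iv_meas (n : ℕ) (h : ℝ) (p : ℕ) : MeasurableSet (iv n h p) := measurableSet_Ico

lemma iv_vol (n : ℕ) (h : ℝ) (hh : 0 ≤ h) (p : ℕ) : volume.real (iv n h p) = h / 2 ^ n := by
  unfold iv
  rw [Measure.real, Real.volume_Ico, ENNReal.toReal_ofReal]
  · ring
  · rw [← sub_div]
    apply div_nonneg _ (by positivity)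
    linarith

lemma iv_fin (n : ℕ) (h : ℝ) (p : ℕ) : volume (iv n h p) ≠ ⊤ := by
  unfold iv
  rw [Real.volume_Ico]
  exact ENNReal.ofReal_ne_top

/-- overlap of two intervals -/
lemma iv_inter (n j : ℕ) (h h' : ℝ) (hh : 0 ≤ h) (hh' : 0 ≤ h') (p q : ℕ)
    (hne : (2 : ℤ) ^ j * p ≠ q) :
    volume.real (iv n h p ∩ iv (n + j) h' q) ≤
      (if 0 < (2 : ℤ) ^ j * p - q ∧ (((2 : ℤ) ^ j * p - q : ℤ) : ℝ) ≤ 2 ^ j * h then h' / 2 ^ (n + j) else 0) +
      (if 0 < (q : ℤ) - 2 ^ j * p ∧ (((q : ℤ) - 2 ^ j * p : ℤ) : ℝ) ≤ h' then h / 2 ^ n else 0) := by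
  have hn1 : 0 ≤ (if 0 < (2 : ℤ) ^ j * p - q ∧ (((2 : ℤ) ^ j * p - q : ℤ) : ℝ) ≤ 2 ^ j * h
      then h' / 2 ^ (n + j) else 0) := by
    split_ifs
    · positivity
    · exact le_rfl
  have hn2 : 0 ≤ (if 0 < (q : ℤ) - 2 ^ j * p ∧ (((q : ℤ) - 2 ^ j * p : ℤ) : ℝ) ≤ h' then h / 2 ^ n else 0) := by
    split_ifs
    · positivity
    · exact le_rfl
  rcases Set.eq_empty_or_nonempty (iv n h p ∩ iv (n + j) h' q) with he | ⟨x, hx1, hx2⟩
  · rw [he, Measure.real, measure_empty, ENNReal.toReal_zero]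
    exact add_nonneg hn1 hn2
  · unfold iv at hx1 hx2
    have a1 := (div_le_iff₀ (by positivity)).1 hx1.1
    have a2 := (lt_div_iff₀ (by positivity)).1 hx1.2
    have b1 := (div_le_iff₀ (by positivity)).1 hx2.1
    have b2 := (lt_div_iff₀ (by positivity)).1 hx2.2
    have e : x * 2 ^ (n + j) = 2 ^ j * (x * 2 ^ n) := by rw [pow_add]; ring
    rw [e] at b1 b2
    have hj : (0 : ℝ) < 2 ^ j := by positivity
    have c1 : (2 : ℝ) ^ j * ((p : ℝ) - h) ≤ 2 ^ j * (x * 2 ^ n) := mul_le_mul_of_nonneg_left a1 hj.le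
    have c2 : (2 : ℝ) ^ j * (x * 2 ^ n) < 2 ^ j * p := mul_lt_mul_of_pos_left a2 hj
    rcases lt_or_gt_of_ne hne with h1 | h1
    · have h2 : (if 0 < (q : ℤ) - 2 ^ j * p ∧ (((q : ℤ) - 2 ^ j * p : ℤ) : ℝ) ≤ h' then h / 2 ^ n else 0) =
          h / 2 ^ n := by
        rw [if_pos]
        refine ⟨by linarith, ?_⟩
        push_cast
        linarith
      rw [h2]
      have h3 : volume.real (iv n h p ∩ iv (n + j) h' q) ≤ volume.real (iv n h p) :=
        measureReal_mono Set.inter_subset_left (iv_fin n h p)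
      rw [iv_vol n h hh] at h3
      linarith
    · have h2 : (if 0 < (2 : ℤ) ^ j * p - q ∧ (((2 : ℤ) ^ j * p - q : ℤ) : ℝ) ≤ 2 ^ j * h
          then h' / 2 ^ (n + j) else 0) = h' / 2 ^ (n + j) := by
        rw [if_pos]
        refine ⟨by linarith, ?_⟩
        push_cast
        linarith
      rw [h2]
      have h3 : volume.real (iv n h p ∩ iv (n + j) h' q) ≤ volume.real (iv (n + j) h' q) :=
        measureReal_mono Set.inter_subset_right (iv_fin (n + j) h' q)
      rw [iv_vol (n + j) h' hh'] at h3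
      linarith

/-- sum over the differences -/
lemma diff_sum (C C3 V : ℝ) (hC3 : 0 ≤ C3) (hV : 0 ≤ V) (hC : 0 ≤ C)
    (hav : ∀ M : ℕ, ∑ x ∈ Icc 1 M, Real.exp (C * sg x) ≤ C3 * M) (z : ℝ) (hz : 0 ≤ z) :
    ∑ t ∈ Icc 1 ⌊z⌋₊, C * Real.exp (C * sg t) * V ≤ C * C3 * z * V := by
  rw [← sum_mul, ← mul_sum]
  have h1 := hav ⌊z⌋₊
  have h2 : (⌊z⌋₊ : ℝ) ≤ z := Nat.floor_le hz
  have h3 : ∑ x ∈ Icc 1 ⌊z⌋₊, Real.exp (C * sg x) ≤ C3 * z := h1.trans (mul_le_mul_of_nonneg_left h2 hC3)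
  calc C * (∑ x ∈ Icc 1 ⌊z⌋₊, Real.exp (C * sg x)) * V ≤ C * (C3 * z) * V := by gcongr
    _ = _ := by ring

/-- the sum of the overlaps over all pairs of different primes -/
lemma overlap : ∃ C : ℝ, 1 ≤ C ∧ ∀ᶠ Y : ℕ in atTop, ∀ (X n j : ℕ) (h h' : ℝ) (Q : Finset ℕ), 0 ≤ h → 0 ≤ h' →
    (∀ q ∈ Q, q.Prime) →
    ∑ p ∈ (Ioc X (X + Y)).filter Nat.Prime, ∑ q ∈ Q,
      (if (2 : ℤ) ^ j * p ≠ q then volume.real (iv n h p ∩ iv (n + j) h' q) else 0) ≤
      C * h * h' * (Y / Real.log Y ^ 2) / 2 ^ n := by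
  classical
  obtain ⟨C, hC, hp⟩ := pair_t
  obtain ⟨C3, hC3, hav⟩ := exp_avg C (by linarith)
  refine ⟨2 * C * C3, by nlinarith, ?_⟩
  filter_upwards [hp, eventually_ge_atTop 2] with Y hY hY2 X n j h h' Q hh hh' hQ
  have hY2' : (2 : ℝ) ≤ Y := by exact_mod_cast hY2
  have hlog : 0 < Real.log Y := Real.log_pos (by linarith)
  set V : ℝ := Y / Real.log Y ^ 2 with hV
  have hV0 : 0 ≤ V := by rw [hV]; positivity
  set P := (Ioc X (X + Y)).filter Nat.Prime with hP
  -- the two parts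
  have hA : ∑ p ∈ P, ∑ q ∈ Q,
      (if 0 < (2 : ℤ) ^ j * p - q ∧ (((2 : ℤ) ^ j * p - q : ℤ) : ℝ) ≤ 2 ^ j * h then h' / 2 ^ (n + j) else 0) ≤
      C * C3 * (2 ^ j * h) * V * (h' / 2 ^ (n + j)) := by
    have h1 : ∀ p ∈ P, ∑ q ∈ Q, (if 0 < (2 : ℤ) ^ j * p - q ∧
        (((2 : ℤ) ^ j * p - q : ℤ) : ℝ) ≤ 2 ^ j * h then h' / 2 ^ (n + j) else 0) ≤
        ∑ t ∈ Icc 1 ⌊2 ^ j * h⌋₊, (if ((2 : ℤ) ^ j * p - (t : ℤ)).toNat.Prime then h' / 2 ^ (n + j) else 0) := by
      intro p _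
      rw [← sum_filter, ← sum_filter, sum_const, sum_const, nsmul_eq_mul, nsmul_eq_mul]
      apply mul_le_mul_of_nonneg_right _ (by positivity)
      rw [Nat.cast_le]
      apply card_le_card_of_injOn (fun q : ℕ => ((2 : ℤ) ^ j * p - (q : ℤ)).toNat)
      · intro q hq
        rw [mem_coe, mem_filter] at hq
        simp only [mem_coe, mem_filter, mem_Icc]
        have h2 : ((((2 : ℤ) ^ j * p - q).toNat : ℕ) : ℤ) = (2 : ℤ) ^ j * p - q := Int.toNat_of_nonneg hq.2.1.le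
        refine ⟨⟨by omega, ?_⟩, ?_⟩
        · apply Nat.le_floor
          have h3 : ((((2 : ℤ) ^ j * p - q).toNat : ℕ) : ℝ) = (((2 : ℤ) ^ j * p - q : ℤ) : ℝ) :=
            (Int.cast_natCast _).symm.trans (by rw [h2])
          rw [h3]
          exact hq.2.2
        · rw [h2]
          have h3 : ((2 : ℤ) ^ j * p - ((2 : ℤ) ^ j * p - q)).toNat = q := by
            have : (2 : ℤ) ^ j * p - ((2 : ℤ) ^ j * p - q) = q := by ring
            rw [this, Int.toNat_natCast]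
          rw [h3]
          exact hQ q hq.1
      · intro q hq q' hq' hqq
        rw [mem_coe, mem_filter] at hq hq'
        simp only at hqq
        have h2 : ((((2 : ℤ) ^ j * p - q).toNat : ℕ) : ℤ) = (2 : ℤ) ^ j * p - q := Int.toNat_of_nonneg hq.2.1.le
        have h3 : ((((2 : ℤ) ^ j * p - q').toNat : ℕ) : ℤ) = (2 : ℤ) ^ j * p - q' := Int.toNat_of_nonneg hq'.2.1.le
        rw [hqq, h3] at h2
        have : (q : ℤ) = q' := by linarith
        exact_mod_cast this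
    calc _ ≤ ∑ p ∈ P, ∑ t ∈ Icc 1 ⌊2 ^ j * h⌋₊, (if ((2 : ℤ) ^ j * p - (t : ℤ)).toNat.Prime then h' / 2 ^ (n + j) else 0) :=
          sum_le_sum h1
      _ = ∑ t ∈ Icc 1 ⌊2 ^ j * h⌋₊, ((P.filter (fun p : ℕ => ((2 : ℤ) ^ j * (p : ℤ) - (t : ℤ)).toNat.Prime)).card : ℝ) *
            (h' / 2 ^ (n + j)) := by
          rw [sum_comm]
          refine sum_congr rfl fun t _ => ?_
          rw [← sum_filter, sum_const, nsmul_eq_mul]
      _ ≤ ∑ t ∈ Icc 1 ⌊2 ^ j * h⌋₊, (C * Real.exp (C * sg t) * V) * (h' / 2 ^ (n + j)) := by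
          apply sum_le_sum
          intro t ht
          rw [mem_Icc] at ht
          apply mul_le_mul_of_nonneg_right _ (by positivity)
          have h2 := hY X j (t : ℤ) (by omega)
          rw [Int.natAbs_natCast] at h2
          refine le_trans ?_ h2
          rw [hP, filter_filter]
      _ = (∑ t ∈ Icc 1 ⌊2 ^ j * h⌋₊, C * Real.exp (C * sg t) * V) * (h' / 2 ^ (n + j)) := by rw [sum_mul]
      _ ≤ _ := mul_le_mul_of_nonneg_right (diff_sum C C3 V (by linarith) hV0 (by linarith) hav _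
          (by positivity)) (by positivity)
  have hB : ∑ p ∈ P, ∑ q ∈ Q,
      (if 0 < (q : ℤ) - 2 ^ j * p ∧ (((q : ℤ) - 2 ^ j * p : ℤ) : ℝ) ≤ h' then h / 2 ^ n else 0) ≤
      C * C3 * h' * V * (h / 2 ^ n) := by
    have h1 : ∀ p ∈ P, ∑ q ∈ Q, (if 0 < (q : ℤ) - 2 ^ j * p ∧
        (((q : ℤ) - 2 ^ j * p : ℤ) : ℝ) ≤ h' then h / 2 ^ n else 0) ≤
        ∑ t ∈ Icc 1 ⌊h'⌋₊, (if ((2 : ℤ) ^ j * p - (-(t : ℤ))).toNat.Prime then h / 2 ^ n else 0) := by
      intro p _
      rw [← sum_filter, ← sum_filter, sum_const, sum_const, nsmul_eq_mul, nsmul_eq_mul]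
      apply mul_le_mul_of_nonneg_right _ (by positivity)
      rw [Nat.cast_le]
      apply card_le_card_of_injOn (fun q : ℕ => ((q : ℤ) - (2 : ℤ) ^ j * p).toNat)
      · intro q hq
        rw [mem_coe, mem_filter] at hq
        simp only [mem_coe, mem_filter, mem_Icc]
        have h2 : ((((q : ℤ) - (2 : ℤ) ^ j * p).toNat : ℕ) : ℤ) = (q : ℤ) - (2 : ℤ) ^ j * p :=
          Int.toNat_of_nonneg hq.2.1.le
        refine ⟨⟨by omega, ?_⟩, ?_⟩
        · apply Nat.le_floor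
          have h3 : ((((q : ℤ) - (2 : ℤ) ^ j * p).toNat : ℕ) : ℝ) = (((q : ℤ) - (2 : ℤ) ^ j * p : ℤ) : ℝ) :=
            (Int.cast_natCast _).symm.trans (by rw [h2])
          rw [h3]
          exact hq.2.2
        · rw [h2]
          have h3 : ((2 : ℤ) ^ j * p - (-((q : ℤ) - (2 : ℤ) ^ j * p))).toNat = q := by
            have : (2 : ℤ) ^ j * p - (-((q : ℤ) - (2 : ℤ) ^ j * p)) = q := by ring
            rw [this, Int.toNat_natCast]
          rw [h3]
          exact hQ q hq.1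
      · intro q hq q' hq' hqq
        rw [mem_coe, mem_filter] at hq hq'
        simp only at hqq
        have h2 : ((((q : ℤ) - (2 : ℤ) ^ j * p).toNat : ℕ) : ℤ) = (q : ℤ) - (2 : ℤ) ^ j * p :=
          Int.toNat_of_nonneg hq.2.1.le
        have h3 : ((((q' : ℤ) - (2 : ℤ) ^ j * p).toNat : ℕ) : ℤ) = (q' : ℤ) - (2 : ℤ) ^ j * p :=
          Int.toNat_of_nonneg hq'.2.1.le
        rw [hqq, h3] at h2
        have : (q : ℤ) = q' := by linarith
        exact_mod_cast this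
    calc _ ≤ ∑ p ∈ P, ∑ t ∈ Icc 1 ⌊h'⌋₊, (if ((2 : ℤ) ^ j * p - (-(t : ℤ))).toNat.Prime then h / 2 ^ n else 0) :=
          sum_le_sum h1
      _ = ∑ t ∈ Icc 1 ⌊h'⌋₊, ((P.filter (fun p : ℕ => ((2 : ℤ) ^ j * (p : ℤ) - (-(t : ℤ))).toNat.Prime)).card : ℝ) *
            (h / 2 ^ n) := by
          rw [sum_comm]
          refine sum_congr rfl fun t _ => ?_
          rw [← sum_filter, sum_const, nsmul_eq_mul]
      _ ≤ ∑ t ∈ Icc 1 ⌊h'⌋₊, (C * Real.exp (C * sg t) * V) * (h / 2 ^ n) := by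
          apply sum_le_sum
          intro t ht
          rw [mem_Icc] at ht
          apply mul_le_mul_of_nonneg_right _ (by positivity)
          have h2 := hY X j (-(t : ℤ)) (by omega)
          rw [Int.natAbs_neg, Int.natAbs_natCast] at h2
          refine le_trans ?_ h2
          rw [hP, filter_filter]
      _ = (∑ t ∈ Icc 1 ⌊h'⌋₊, C * Real.exp (C * sg t) * V) * (h / 2 ^ n) := by rw [sum_mul]
      _ ≤ _ := mul_le_mul_of_nonneg_right (diff_sum C C3 V (by linarith) hV0 (by linarith) hav _ hh')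
          (by positivity)
  calc _ ≤ ∑ p ∈ P, ∑ q ∈ Q,
        ((if 0 < (2 : ℤ) ^ j * p - q ∧ (((2 : ℤ) ^ j * p - q : ℤ) : ℝ) ≤ 2 ^ j * h then h' / 2 ^ (n + j) else 0) +
        (if 0 < (q : ℤ) - 2 ^ j * p ∧ (((q : ℤ) - 2 ^ j * p : ℤ) : ℝ) ≤ h' then h / 2 ^ n else 0)) := by
        refine sum_le_sum fun p _ => sum_le_sum fun q _ => ?_
        by_cases hne : (2 : ℤ) ^ j * p ≠ q
        · rw [if_pos hne]
          exact iv_inter n j h h' hh hh' p q hne
        · rw [if_neg hne]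
          apply add_nonneg
          · split_ifs
            · positivity
            · exact le_rfl
          · split_ifs
            · positivity
            · exact le_rfl
    _ ≤ C * C3 * (2 ^ j * h) * V * (h' / 2 ^ (n + j)) + C * C3 * h' * V * (h / 2 ^ n) := by
        simp_rw [sum_add_distrib]
        exact add_le_add hA hB
    _ = _ := by
        rw [pow_add]
        field_simp
        ring

end Pool.Agent.V8H9.DP
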