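import Mathlib
import Pool.Agent.V8H9.DP.KhA
import Pool.Agent.V8H9.DP.Main

/-! The events of Khintchine's theorem for the primes just above `x 2^n`, inside a dyadic cell. -/

set_option autoImplicit false

namespace Pool.Agent.V8H9.DP

open Finset Filter Topology MeasureTheory

/-- the primes near the window of the cell -/
def pw (m u n : ℕ) : Finset ℕ :=
  (Ioc (u * 2 ^ (n - m) - 1) (u * 2 ^ (n - m) - 1 + 2 ^ (n - m + 2))).filter Nat.Prime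

lemma cell_bounds {m u n : ℕ} {x : ℝ} (hx : x ∈ cell m u) (hn : m ≤ n) :
    ((u * 2 ^ (n - m) : ℕ) : ℝ) ≤ x * 2 ^ n ∧ x * 2 ^ n < ((u * 2 ^ (n - m) + 2 ^ (n - m) : ℕ) : ℝ) := by
  unfold cell at hx
  have h2 : (2 : ℝ) ^ n = 2 ^ m * 2 ^ (n - m) := by rw [← pow_add]; congr 1; omega
  constructor
  · have := (div_le_iff₀ (by positivity)).1 hx.1
    push_cast
    rw [h2, ← mul_assoc]
    exact mul_le_mul_of_nonneg_right this (by positivity)
  · have := (lt_div_iff₀ (by positivity)).1 hx.2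
    push_cast
    rw [h2, ← mul_assoc]
    have h3 := mul_lt_mul_of_pos_right this (by positivity : (0 : ℝ) < 2 ^ (n - m))
    linarith

lemma mem_pw {m u n : ℕ} {x h : ℝ} (hx : x ∈ cell m u) (hn : m ≤ n) (hu : 1 ≤ u) (hh : h ≤ 2 ^ (n - m))
    {p : ℕ} (hp : p.Prime) (h1 : x * 2 ^ n ≤ p) (h2 : (p : ℝ) ≤ x * 2 ^ n + h) : p ∈ pw m u n := by
  obtain ⟨a1, a2⟩ := cell_bounds hx hn
  unfold pw
  rw [mem_filter, mem_Ioc]
  refine ⟨?_, hp⟩
  have hX : 1 ≤ u * 2 ^ (n - m) := Nat.mul_pos hu (by positivity)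
  have b1 : u * 2 ^ (n - m) ≤ p := by exact_mod_cast a1.trans h1
  have b2 : (p : ℝ) < ((u * 2 ^ (n - m) + 2 ^ (n - m) + 2 ^ (n - m) : ℕ) : ℝ) := by
    push_cast at a2 ⊢
    linarith
  have b3 : p < u * 2 ^ (n - m) + 2 ^ (n - m) + 2 ^ (n - m) := by exact_mod_cast b2
  have e : 2 ^ (n - m + 2) = 4 * 2 ^ (n - m) := by rw [pow_add]; ring
  omega

/-- number of primes near the window -/
lemma pw_card : ∃ C : ℝ, 1 ≤ C ∧ ∀ m : ℕ, ∀ᶠ n : ℕ in atTop, ∀ u : ℕ,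
    ((pw m u n).card : ℝ) ≤ C * (2 ^ (n - m) / n) := by
  obtain ⟨C, hC, h⟩ := single_shift
  refine ⟨12 * C, by linarith, fun m => ?_⟩
  obtain ⟨Y0, hY0⟩ := eventually_atTop.1 h
  filter_upwards [eventually_ge_atTop (2 * m + Y0 + 1)] with n hn u
  have h1 : Y0 ≤ 2 ^ (n - m + 2) := by
    have := (Nat.lt_two_pow_self (n := n - m + 2)).le
    omega
  have h2 := hY0 _ h1 (u * 2 ^ (n - m) - 1)
  rw [← rr_card] at h2
  have h3 := log_dyadic n (n - m + 2) (by omega)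
  have hn0 : (0 : ℝ) < n := by exact_mod_cast (by omega : 0 < n)
  unfold pw
  unfold rr at h2
  refine h2.trans ?_
  have h4 : ((2 ^ (n - m + 2) : ℕ) : ℝ) / Real.log ((2 ^ (n - m + 2) : ℕ) : ℝ) ≤ 12 * (2 ^ (n - m) / n) := by
    have e : ((2 ^ (n - m + 2) : ℕ) : ℝ) = 4 * 2 ^ (n - m) := by push_cast; rw [pow_add]; ring
    calc ((2 ^ (n - m + 2) : ℕ) : ℝ) / Real.log ((2 ^ (n - m + 2) : ℕ) : ℝ)
        ≤ ((2 ^ (n - m + 2) : ℕ) : ℝ) / ((n : ℝ) / 3) :=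
          div_le_div_of_nonneg_left (by positivity) (by positivity) h3
      _ = _ := by rw [e]; field_simp; ring
  calc C * (((2 ^ (n - m + 2) : ℕ) : ℝ) / Real.log ((2 ^ (n - m + 2) : ℕ) : ℝ))
      ≤ C * (12 * (2 ^ (n - m) / n)) := mul_le_mul_of_nonneg_left h4 (by linarith)
    _ = _ := by ring

/-- overlaps inside the cell -/
lemma pw_overlap : ∃ C : ℝ, 1 ≤ C ∧ ∀ m : ℕ, ∀ᶠ n : ℕ in atTop, ∀ (u j : ℕ) (h h' : ℝ) (Q : Finset ℕ),
    0 ≤ h → 0 ≤ h' → (∀ q ∈ Q, q.Prime) →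
    ∑ p ∈ pw m u n, ∑ q ∈ Q,
      (if (2 : ℤ) ^ j * p ≠ q then volume.real (iv n h p ∩ iv (n + j) h' q) else 0) ≤
      C * (1 / 2 ^ m) * (h * h' / (n : ℝ) ^ 2) := by
  obtain ⟨C, hC, h⟩ := overlap
  refine ⟨36 * C, by linarith, fun m => ?_⟩
  obtain ⟨Y0, hY0⟩ := eventually_atTop.1 h
  filter_upwards [eventually_ge_atTop (2 * m + Y0 + 1)] with n hn u j h h' Q hh hh' hQ
  have h1 : Y0 ≤ 2 ^ (n - m + 2) := by
    have := (Nat.lt_two_pow_self (n := n - m + 2)).le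
    omega
  have h2 := hY0 _ h1 (u * 2 ^ (n - m) - 1) n j h h' Q hh hh' hQ
  have h3 := log_dyadic n (n - m + 2) (by omega)
  have hn0 : (0 : ℝ) < n := by exact_mod_cast (by omega : 0 < n)
  unfold pw
  refine h2.trans ?_
  have h4 : ((2 ^ (n - m + 2) : ℕ) : ℝ) / Real.log ((2 ^ (n - m + 2) : ℕ) : ℝ) ^ 2 ≤
      36 * (2 ^ (n - m) / (n : ℝ) ^ 2) := by
    have e : ((2 ^ (n - m + 2) : ℕ) : ℝ) = 4 * 2 ^ (n - m) := by push_cast; rw [pow_add]; ring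
    have h5 : ((n : ℝ) / 3) ^ 2 ≤ Real.log ((2 ^ (n - m + 2) : ℕ) : ℝ) ^ 2 :=
      pow_le_pow_left₀ (by positivity) h3 2
    calc ((2 ^ (n - m + 2) : ℕ) : ℝ) / Real.log ((2 ^ (n - m + 2) : ℕ) : ℝ) ^ 2
        ≤ ((2 ^ (n - m + 2) : ℕ) : ℝ) / ((n : ℝ) / 3) ^ 2 :=
          div_le_div_of_nonneg_left (by positivity) (by positivity) h5
      _ = _ := by rw [e]; field_simp; ring
  have e2 : (2 : ℝ) ^ n = 2 ^ m * 2 ^ (n - m) := by rw [← pow_add]; congr 1; omega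
  calc C * h * h' * (((2 ^ (n - m + 2) : ℕ) : ℝ) / Real.log ((2 ^ (n - m + 2) : ℕ) : ℝ) ^ 2) / 2 ^ n
      ≤ C * h * h' * (36 * (2 ^ (n - m) / (n : ℝ) ^ 2)) / 2 ^ n := by gcongr
    _ = _ := by rw [e2]; field_simp

/-- the event -/
def ev (h : ℕ → ℝ) (n : ℕ) : Set ℝ := ⋃ p ∈ {p : ℕ | p.Prime}, iv n (h n) p

lemma ev_meas (h : ℕ → ℝ) (n : ℕ) : MeasurableSet (ev h n) :=
  MeasurableSet.biUnion (Set.to_countable _) fun p _ => iv_meas n (h n) p

lemma ev_sub {h : ℕ → ℝ} {m u n : ℕ} (hn : m ≤ n) (hu : 1 ≤ u) (hh : h n ≤ 2 ^ (n - m)) :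
    ev h n ∩ cell m u ⊆ ⋃ p ∈ pw m u n, iv n (h n) p := by
  rintro x ⟨hx, hc⟩
  unfold ev at hx
  simp only [Set.mem_iUnion, exists_prop] at hx ⊢
  obtain ⟨p, hp, hxp⟩ := hx
  refine ⟨p, ?_, hxp⟩
  unfold iv at hxp
  have a1 := (div_le_iff₀ (by positivity)).1 hxp.1
  have a2 := (lt_div_iff₀ (by positivity)).1 hxp.2
  exact mem_pw hc hn hu hh hp a2.le (by linarith)

lemma nat_le_pow_half {m n : ℕ} (hn : 4 * m + 16 ≤ n) : (n : ℝ) ≤ 2 ^ (n - m) := by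
  have h1 : n ≤ 2 ^ (n - m) := by
    have h2 : n - m < 2 ^ (n - m - 1 + 1 - 1) + 2 ^ (n - m - 1 + 1 - 1) := by
      have := (Nat.lt_two_pow_self (n := n - m - 1))
      rw [Nat.add_sub_cancel]
      omega
    have h3 : 2 ^ (n - m) = 2 ^ (n - m - 1) * 2 := by rw [← pow_succ]; congr 1; omega
    have h4 : 2 ^ (n - m - 1) = 2 ^ (n - m - 2) * 2 := by rw [← pow_succ]; congr 1; omega
    have h5 := (Nat.lt_two_pow_self (n := n - m - 2))
    omega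
  exact_mod_cast h1

/-- measure of the event: upper bound -/
lemma ev_up : ∃ C : ℝ, 1 ≤ C ∧ ∀ m : ℕ, ∀ᶠ n : ℕ in atTop, ∀ (u : ℕ) (h : ℕ → ℝ), 1 ≤ u → 0 ≤ h n → h n ≤ n →
    (volume (ev h n ∩ cell m u)).toReal ≤ C * (1 / 2 ^ m) * (h n / n) := by
  obtain ⟨C, hC, hc⟩ := pw_card
  refine ⟨C, hC, fun m => ?_⟩
  filter_upwards [hc m, eventually_ge_atTop (4 * m + 16)] with n hn hn2 u h hu h0 h1
  have hle := nat_le_pow_half hn2
  have hsub := ev_sub (h := h) (m := m) (u := u) (n := n) (by omega) hu (h1.trans hle)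
  have h2 : (volume (ev h n ∩ cell m u)).toReal ≤ volume.real (⋃ p ∈ pw m u n, iv n (h n) p) := by
    apply ENNReal.toReal_mono _ (measure_mono hsub)
    exact ((measure_biUnion_finset_le _ _).trans_lt (ENNReal.sum_lt_top.2 fun p _ =>
      (iv_fin n (h n) p).lt_top)).ne
  refine h2.trans ((measureReal_biUnion_finset_le _ _).trans ?_)
  have h3 : ∀ p ∈ pw m u n, volume.real (iv n (h n) p) = h n / 2 ^ n := fun p _ => iv_vol n (h n) h0 p
  rw [sum_congr rfl h3, sum_const, nsmul_eq_mul]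
  have e2 : (2 : ℝ) ^ n = 2 ^ m * 2 ^ (n - m) := by rw [← pow_add]; congr 1; omega
  calc ((pw m u n).card : ℝ) * (h n / 2 ^ n) ≤ (C * (2 ^ (n - m) / n)) * (h n / 2 ^ n) :=
        mul_le_mul_of_nonneg_right (hn u) (by positivity)
    _ = _ := by rw [e2]; field_simp

/-- two events, nearby levels -/
lemma ev_near : ∃ C : ℝ, 1 ≤ C ∧ ∀ m : ℕ, ∀ᶠ n : ℕ in atTop, ∀ (u j : ℕ) (h : ℕ → ℝ), 1 ≤ u → 1 ≤ j →
    0 ≤ h n → h n ≤ n → 0 ≤ h (n + j) → h (n + j) ≤ (n + j : ℕ) → n + j ≤ 3 * n →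
    (volume (ev h n ∩ ev h (n + j) ∩ cell m u)).toReal ≤
      C * (1 / 2 ^ m) * (h n / n) * (h (n + j) / (n + j : ℕ)) := by
  obtain ⟨C, hC, hc⟩ := pw_overlap
  refine ⟨3 * C, by linarith, fun m => ?_⟩
  filter_upwards [hc m, eventually_ge_atTop (4 * m + 16)] with n hn hn2 u j h hu hj h0 h1 h0' h1' hnj
  have hle := nat_le_pow_half hn2
  have hle' := nat_le_pow_half (m := m) (n := n + j) (by omega)
  have hsub := ev_sub (h := h) (m := m) (u := u) (n := n) (by omega) hu (h1.trans hle)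
  have hsub' := ev_sub (h := h) (m := m) (u := u) (n := n + j) (by omega) hu (h1'.trans hle')
  have hsub2 : ev h n ∩ ev h (n + j) ∩ cell m u ⊆
      ⋃ p ∈ pw m u n, ⋃ q ∈ pw m u (n + j), (iv n (h n) p ∩ iv (n + j) (h (n + j)) q) := by
    rintro x ⟨⟨ha, hb⟩, hcx⟩
    have c1 := hsub ⟨ha, hcx⟩
    have c2 := hsub' ⟨hb, hcx⟩
    simp only [Set.mem_iUnion, exists_prop] at c1 c2 ⊢
    obtain ⟨p, hp, hxp⟩ := c1
    obtain ⟨q, hq, hxq⟩ := c2
    exact ⟨p, hp, q, hq, hxp, hxq⟩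
  have hfin : ∀ p q, volume (iv n (h n) p ∩ iv (n + j) (h (n + j)) q) ≠ ⊤ := fun p q =>
    ((measure_mono Set.inter_subset_left).trans_lt (iv_fin n (h n) p).lt_top).ne
  have h2 : (volume (ev h n ∩ ev h (n + j) ∩ cell m u)).toReal ≤
      ∑ p ∈ pw m u n, ∑ q ∈ pw m u (n + j), volume.real (iv n (h n) p ∩ iv (n + j) (h (n + j)) q) := by
    have h3 : volume (ev h n ∩ ev h (n + j) ∩ cell m u) ≤
        ∑ p ∈ pw m u n, ∑ q ∈ pw m u (n + j), volume (iv n (h n) p ∩ iv (n + j) (h (n + j)) q) := by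
      refine (measure_mono hsub2).trans ((measure_biUnion_finset_le _ _).trans ?_)
      exact sum_le_sum fun p _ => measure_biUnion_finset_le _ _
    have h4 := ENNReal.toReal_mono (ENNReal.sum_ne_top.2 fun p _ => ENNReal.sum_ne_top.2 fun q _ => hfin p q) h3
    rw [ENNReal.toReal_sum (fun p _ => ENNReal.sum_ne_top.2 fun q _ => hfin p q)] at h4
    refine h4.trans (le_of_eq (sum_congr rfl fun p _ => ?_))
    rw [ENNReal.toReal_sum (fun q _ => hfin p q)]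
    rfl
  have hprime : ∀ k, ∀ q ∈ pw m u k, q.Prime := by
    intro k q hq
    unfold pw at hq
    exact (mem_filter.1 hq).2
  have h3 := hn u j (h n) (h (n + j)) (pw m u (n + j)) h0 h0' (hprime _)
  have h4 : ∑ p ∈ pw m u n, ∑ q ∈ pw m u (n + j), volume.real (iv n (h n) p ∩ iv (n + j) (h (n + j)) q) =
      ∑ p ∈ pw m u n, ∑ q ∈ pw m u (n + j),
      (if (2 : ℤ) ^ j * p ≠ q then volume.real (iv n (h n) p ∩ iv (n + j) (h (n + j)) q) else 0) := by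
    refine sum_congr rfl fun p hp => sum_congr rfl fun q hq => ?_
    rw [if_pos]
    intro he
    have he' : 2 ^ j * p = q := by exact_mod_cast he
    have h5 := hprime _ q hq
    rw [← he'] at h5
    have h6 : 2 ≤ 2 ^ j := by
      calc 2 = 2 ^ 1 := by norm_num
        _ ≤ 2 ^ j := Nat.pow_le_pow_right (by norm_num) hj
    exact Nat.not_prime_mul (by omega) (hprime _ p hp).one_lt.ne' h5
  rw [h4] at h2
  refine h2.trans (h3.trans ?_)
  have hn0 : (0 : ℝ) < n := by exact_mod_cast (by omega : 0 < n)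
  have hnj0 : (0 : ℝ) < ((n + j : ℕ) : ℝ) := by exact_mod_cast (by omega : 0 < n + j)
  have h5 : h n * h (n + j) / (n : ℝ) ^ 2 ≤ 3 * ((h n / n) * (h (n + j) / (n + j : ℕ))) := by
    have h6 : ((n + j : ℕ) : ℝ) ≤ 3 * n := by exact_mod_cast hnj
    have h7 : h n * h (n + j) / (n : ℝ) ^ 2 = (h n * h (n + j) / n) * (1 / n) := by field_simp
    have h8 : 3 * ((h n / n) * (h (n + j) / ((n + j : ℕ) : ℝ))) = (h n * h (n + j) / n) * (3 / ((n + j : ℕ) : ℝ)) := by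
      field_simp
    rw [h7, h8]
    apply mul_le_mul_of_nonneg_left _ (by positivity)
    rw [div_le_div_iff₀ hn0 hnj0]
    linarith
  calc C * (1 / 2 ^ m) * (h n * h (n + j) / (n : ℝ) ^ 2)
      ≤ C * (1 / 2 ^ m) * (3 * ((h n / n) * (h (n + j) / (n + j : ℕ)))) :=
        mul_le_mul_of_nonneg_left h5 (by positivity)
    _ = _ := by ring

end Pool.Agent.V8H9.DP
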