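import Mathlib
import Pool.Agent.V8H9.DP.KhB
import Pool.Agent.Helper982_KG.Ks

/-! Khintchine's theorem for the primes just above `x 2^n`: far pairs and the lower bound. -/

set_option autoImplicit false

namespace Pool.Agent.V8H9.DP

open Finset Filter Topology MeasureTheory

/-- overlap with a much shorter interval -/
lemma iv_inter_far (n j : ℕ) (h h' : ℝ) (hh' : 0 ≤ h') (p q Z : ℕ) (hq : q.Prime)
    (hZ : 2 ^ j * h ≤ Z) (hZ' : h' ≤ Z) :
    volume.real (iv n h p ∩ iv (n + j) h' q) ≤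
      if q ∈ Ioc (2 ^ j * p - (Z + 1)) (2 ^ j * p - (Z + 1) + 2 * (Z + 1)) then h' / 2 ^ (n + j) else 0 := by
  rcases Set.eq_empty_or_nonempty (iv n h p ∩ iv (n + j) h' q) with he | ⟨x, hx1, hx2⟩
  · rw [he, Measure.real, measure_empty, ENNReal.toReal_zero]
    split_ifs
    · positivity
    · exact le_rfl
  · unfold iv at hx1 hx2
    have a1 := (div_le_iff₀ (by positivity)).1 hx1.1
    have a2 := (lt_div_iff₀ (by positivity)).1 hx1.2
    have b1 := (div_le_iff₀ (by positivity)).1 hx2.1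
    have b2 := (lt_div_iff₀ (by positivity)).1 hx2.2
    have e : x * 2 ^ (n + j) = 2 ^ j * (x * 2 ^ n) := by rw [pow_add]; ring
    rw [e] at b1 b2
    have hj : (0 : ℝ) < 2 ^ j := by positivity
    have c1 : (2 : ℝ) ^ j * ((p : ℝ) - h) ≤ 2 ^ j * (x * 2 ^ n) := mul_le_mul_of_nonneg_left a1 hj.le
    have c2 : (2 : ℝ) ^ j * (x * 2 ^ n) < 2 ^ j * p := mul_lt_mul_of_pos_left a2 hj
    have d1 : ((2 ^ j * p : ℕ) : ℝ) < q + Z := by push_cast; linarith
    have d2 : (q : ℝ) < ((2 ^ j * p : ℕ) : ℝ) + Z := by push_cast; linarith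
    have d1' : 2 ^ j * p < q + Z := by exact_mod_cast d1
    have d2' : q < 2 ^ j * p + Z := by exact_mod_cast d2
    have hq1 := hq.pos
    rw [if_pos]
    · have h3 : volume.real (iv n h p ∩ iv (n + j) h' q) ≤ volume.real (iv (n + j) h' q) :=
        measureReal_mono Set.inter_subset_right (iv_fin (n + j) h' q)
      rw [iv_vol (n + j) h' hh'] at h3
      exact h3
    · rw [mem_Ioc]
      omega

lemma pw_prime {m u n q : ℕ} (hq : q ∈ pw m u n) : q.Prime := by
  unfold pw at hq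
  exact (mem_filter.1 hq).2

/-- two events, distant levels -/
lemma ev_far : ∃ C : ℝ, 1 ≤ C ∧ ∀ m : ℕ, ∀ᶠ n : ℕ in atTop, ∀ (u j : ℕ) (h : ℕ → ℝ), 1 ≤ u → 3 * n < n + j →
    1 / 2 ^ (n / 2) ≤ h n → h n ≤ n → 0 ≤ h (n + j) → h (n + j) ≤ (n + j : ℕ) →
    (volume (ev h n ∩ ev h (n + j) ∩ cell m u)).toReal ≤
      C * (1 / 2 ^ m) * (h n / n) * (h (n + j) / (n + j : ℕ)) := by
  classical
  obtain ⟨C, hC, hc⟩ := pw_card
  obtain ⟨C1, hC1, hs⟩ := single_shift
  obtain ⟨Y0, hY0⟩ := eventually_atTop.1 hs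
  refine ⟨18 * C * C1, by nlinarith, fun m => ?_⟩
  filter_upwards [hc m, eventually_ge_atTop (4 * m + Y0 + 16)] with n hn hn2 u j h hu hj h00 h1 h0' h1'
  have h0 : 0 ≤ h n := le_trans (by positivity) h00
  have hle := nat_le_pow_half (m := m) (n := n) (by omega)
  have hle' := nat_le_pow_half (m := m) (n := n + j) (by omega)
  have hsub := ev_sub (h := h) (m := m) (u := u) (n := n) (by omega) hu (h1.trans hle)
  have hsub' := ev_sub (h := h) (m := m) (u := u) (n := n + j) (by omega) hu (h1'.trans hle')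
  have hsub2 : ev h n ∩ ev h (n + j) ∩ cell m u ⊆
      ⋃ p ∈ pw m u n, ⋃ q ∈ pw m u (n + j), (iv n (h n) p ∩ iv (n + j) (h (n + j)) q) := by
    rintro x ⟨⟨ha, hb⟩, hcx⟩
    have c1 := hsub ⟨ha, hcx⟩
    have c2 := hsub' ⟨hb, hcx⟩
    simp only [Set.mem_iUnion, exists_prop] at c1 c2 ⊢
    obtain ⟨p, hp, hxp⟩ := c1
    obtain ⟨q, hq, hxq⟩ := c2
    exact ⟨p, hp, q, hq, hxp, hxq⟩
  have hfin : ∀ p q, volume (iv n (h n) p ∩ iv (n + j) (h (n + j)) q) ≠ ⊤ := fun p q =>
    ((measure_mono Set.inter_subset_left).trans_lt (iv_fin n (h n) p).lt_top).ne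
  have h2 : (volume (ev h n ∩ ev h (n + j) ∩ cell m u)).toReal ≤
      ∑ p ∈ pw m u n, ∑ q ∈ pw m u (n + j), volume.real (iv n (h n) p ∩ iv (n + j) (h (n + j)) q) := by
    have h3 : volume (ev h n ∩ ev h (n + j) ∩ cell m u) ≤
        ∑ p ∈ pw m u n, ∑ q ∈ pw m u (n + j), volume (iv n (h n) p ∩ iv (n + j) (h (n + j)) q) := by
      refine (measure_mono hsub2).trans ((measure_biUnion_finset_le _ _).trans ?_)
      exact sum_le_sum fun p _ => measure_biUnion_finset_le _ _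
    have h4 := ENNReal.toReal_mono (ENNReal.sum_ne_top.2 fun p _ => ENNReal.sum_ne_top.2 fun q _ => hfin p q) h3
    rw [ENNReal.toReal_sum (fun p _ => ENNReal.sum_ne_top.2 fun q _ => hfin p q)] at h4
    refine h4.trans (le_of_eq (sum_congr rfl fun p _ => ?_))
    rw [ENNReal.toReal_sum (fun q _ => hfin p q)]
    rfl
  have hn0 : (0 : ℝ) < n := by exact_mod_cast (by omega : 0 < n)
  have hnj0 : (0 : ℝ) < ((n + j : ℕ) : ℝ) := by exact_mod_cast (by omega : 0 < n + j)
  -- the length `z = 2^j h`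
  set z : ℝ := 2 ^ j * h n with hz
  set g := j - n / 2 with hg
  have hg2 : n + j ≤ 2 * g := by omega
  have hzg : (2 : ℝ) ^ g ≤ z := by
    have e : (2 : ℝ) ^ j = 2 ^ g * 2 ^ (n / 2) := by rw [← pow_add]; congr 1; omega
    rw [hz, e, mul_assoc]
    have h5 : 1 ≤ (2 : ℝ) ^ (n / 2) * h n := by
      have := mul_le_mul_of_nonneg_left h00 (by positivity : (0 : ℝ) ≤ 2 ^ (n / 2))
      rwa [mul_one_div_cancel (by positivity)] at this
    have h6 : (0 : ℝ) < 2 ^ g := by positivity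
    nlinarith
  have hz1 : 1 ≤ z := le_trans (one_le_pow₀ (by norm_num)) hzg
  set Z := ⌈z⌉₊ with hZ
  have hzZ : z ≤ Z := Nat.le_ceil _
  have hZz : (Z : ℝ) < z + 1 := Nat.ceil_lt_add_one (by linarith)
  have hgZ : 2 ^ g ≤ Z := by exact_mod_cast hzg.trans hzZ
  have hnjZ : n + j ≤ Z := by
    refine le_trans ?_ hgZ
    obtain ⟨g', hg'⟩ : ∃ g', g = g' + 1 := ⟨g - 1, by omega⟩
    have h5 := Nat.lt_two_pow_self (n := g')
    have h6 : 2 ^ g = 2 * 2 ^ g' := by rw [hg', pow_succ]; ring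
    omega
  have hcount : ∀ p, ((((pw m u (n + j)).filter (fun q => q ∈ Ioc (2 ^ j * p - (Z + 1))
      (2 ^ j * p - (Z + 1) + 2 * (Z + 1)))).card : ℕ) : ℝ) ≤ 18 * C1 * (z / (n + j : ℕ)) := by
    intro p
    set b := 2 ^ j * p - (Z + 1) with hb
    have h5 : ((pw m u (n + j)).filter (fun q => q ∈ Ioc b (b + 2 * (Z + 1)))).card ≤ rr (2 * (Z + 1)) b := by
      unfold rr
      apply card_le_card
      intro q hq
      rw [mem_filter] at hq
      rw [mem_filter]
      exact ⟨hq.2, pw_prime hq.1⟩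
    have h6 : Y0 ≤ 2 * (Z + 1) := by omega
    have h7 := hY0 (2 * (Z + 1)) h6 b
    rw [← rr_card] at h7
    have h8 : ((((pw m u (n + j)).filter (fun q => q ∈ Ioc b (b + 2 * (Z + 1)))).card : ℕ) : ℝ) ≤
        (rr (2 * (Z + 1)) b : ℝ) := by exact_mod_cast h5
    refine h8.trans (h7.trans ?_)
    have h9 : ((n + j : ℕ) : ℝ) / 3 ≤ Real.log ((2 * (Z + 1) : ℕ) : ℝ) := by
      refine (log_dyadic (n + j) g hg2).trans ?_
      apply Real.log_le_log
      · positivity
      · exact_mod_cast (by omega : 2 ^ g ≤ 2 * (Z + 1))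
    have h10 : ((2 * (Z + 1) : ℕ) : ℝ) ≤ 6 * z := by push_cast; linarith
    calc C1 * (((2 * (Z + 1) : ℕ) : ℝ) / Real.log ((2 * (Z + 1) : ℕ) : ℝ))
        ≤ C1 * (6 * z / (((n + j : ℕ) : ℝ) / 3)) := by
          apply mul_le_mul_of_nonneg_left _ (by linarith)
          exact div_le_div₀ (by linarith) h10 (by positivity) h9
      _ = _ := by field_simp; ring
  have h3 : ∀ p ∈ pw m u n, ∑ q ∈ pw m u (n + j), volume.real (iv n (h n) p ∩ iv (n + j) (h (n + j)) q) ≤
      18 * C1 * (z / (n + j : ℕ)) * (h (n + j) / 2 ^ (n + j)) := by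
    intro p _
    calc _ ≤ ∑ q ∈ pw m u (n + j), (if q ∈ Ioc (2 ^ j * p - (Z + 1)) (2 ^ j * p - (Z + 1) + 2 * (Z + 1))
          then h (n + j) / 2 ^ (n + j) else 0) := by
          apply sum_le_sum
          intro q hq
          apply iv_inter_far n j (h n) (h (n + j)) h0' p q Z (pw_prime hq) hzZ
          refine h1'.trans ?_
          exact_mod_cast hnjZ
      _ = ((((pw m u (n + j)).filter (fun q => q ∈ Ioc (2 ^ j * p - (Z + 1))
          (2 ^ j * p - (Z + 1) + 2 * (Z + 1)))).card : ℕ) : ℝ) * (h (n + j) / 2 ^ (n + j)) := by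
          rw [← sum_filter, sum_const, nsmul_eq_mul]
      _ ≤ _ := mul_le_mul_of_nonneg_right (hcount p) (by positivity)
  refine h2.trans ((sum_le_sum h3).trans ?_)
  rw [sum_const, nsmul_eq_mul]
  have e2 : (2 : ℝ) ^ n = 2 ^ m * 2 ^ (n - m) := by rw [← pow_add]; congr 1; omega
  calc ((pw m u n).card : ℝ) * (18 * C1 * (z / (n + j : ℕ)) * (h (n + j) / 2 ^ (n + j)))
      ≤ (C * (2 ^ (n - m) / n)) * (18 * C1 * (z / (n + j : ℕ)) * (h (n + j) / 2 ^ (n + j))) :=
        mul_le_mul_of_nonneg_right (hn u) (by positivity)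
    _ = _ := by rw [hz, pow_add, e2]; field_simp

/-- enough primes in the cell -/
lemma L_card : ∃ c : ℝ, 0 < c ∧ ∀ m u : ℕ, 1 ≤ u → ∀ᶠ n : ℕ in atTop, c * (2 ^ (n - m) / n) ≤
    (((Ioc (u * 2 ^ (n - m) + n) (u * 2 ^ (n - m) + 2 ^ (n - m))).filter Nat.Prime).card : ℝ) := by
  obtain ⟨δ, η, hδ, hδ1, hη, X0, hX0, hH⟩ := Pool.Agent.H295R3.D.hoheisel
  refine ⟨η / 2, by positivity, fun m u hu => ?_⟩
  have t0 : Tendsto (fun n : ℕ => ((2 ^ (n - m) : ℕ) : ℝ)) atTop atTop := by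
    apply tendsto_natCast_atTop_atTop.comp
    apply tendsto_atTop_mono (fun n => (Nat.lt_two_pow_self (n := n - m)).le)
    exact tendsto_sub_atTop_nat m
  have t1 : ∀ᶠ n : ℕ in atTop, 4 * (u : ℝ) ≤ ((2 ^ (n - m) : ℕ) : ℝ) ^ δ :=
    ((tendsto_rpow_atTop hδ).comp t0).eventually (eventually_ge_atTop _)
  filter_upwards [t1, eventually_ge_atTop (8 * m + 3 * (u + 1) + X0 + 32)] with n hn1 hn2
  set Y := 2 ^ (n - m) with hY
  have hnY : 2 * n ≤ Y := by
    obtain ⟨g', hg'⟩ : ∃ g', n - m = g' + 2 := ⟨n - m - 2, by omega⟩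
    have h5 := Nat.lt_two_pow_self (n := g')
    have h6 : Y = 4 * 2 ^ g' := by rw [hY, hg', pow_add]; ring
    omega
  have hYpos : 0 < Y := by omega
  have hYr : (0 : ℝ) < Y := by exact_mod_cast hYpos
  have hn0 : (0 : ℝ) < n := by exact_mod_cast (by omega : 0 < n)
  have huY : Y ≤ u * Y := Nat.le_mul_of_pos_left _ hu
  set X' := u * Y + n with hX'
  have hX'le : X' ≤ 2 * u * Y := by
    have : 2 * u * Y = u * Y + u * Y := by ring
    omega
  have hX'r : (X' : ℝ) ≤ 2 * u * Y := by exact_mod_cast hX'le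
  have hur : (1 : ℝ) ≤ u := by exact_mod_cast hu
  have hX'1 : 1 ≤ X' := by omega
  have hpow : (X' : ℝ) ^ (1 - δ) ≤ ((Y - n : ℕ) : ℝ) := by
    have h1 : (X' : ℝ) ^ (1 - δ) ≤ (2 * u) * (Y : ℝ) ^ (1 - δ) := by
      calc (X' : ℝ) ^ (1 - δ) ≤ (2 * u * Y) ^ (1 - δ) :=
            Real.rpow_le_rpow (Nat.cast_nonneg _) hX'r (by linarith)
        _ = (2 * u) ^ (1 - δ) * (Y : ℝ) ^ (1 - δ) := by rw [Real.mul_rpow (by positivity) hYr.le]
        _ ≤ (2 * u) * (Y : ℝ) ^ (1 - δ) := by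
            apply mul_le_mul_of_nonneg_right _ (by positivity)
            calc (2 * (u : ℝ)) ^ (1 - δ) ≤ (2 * (u : ℝ)) ^ (1 : ℝ) :=
                  Real.rpow_le_rpow_of_exponent_le (by linarith) (by linarith)
              _ = _ := Real.rpow_one _
    have h2 : (Y : ℝ) ^ (1 - δ) * (Y : ℝ) ^ δ = Y := by
      rw [← Real.rpow_add hYr]
      simp
    have h3 : (2 * (u : ℝ)) * (Y : ℝ) ^ (1 - δ) ≤ Y / 2 := by
      have h4 : 0 ≤ (Y : ℝ) ^ (1 - δ) := by positivity
      have h5 : (4 * (u : ℝ)) * (Y : ℝ) ^ (1 - δ) ≤ (Y : ℝ) ^ δ * (Y : ℝ) ^ (1 - δ) :=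
        mul_le_mul_of_nonneg_right hn1 h4
      rw [mul_comm ((Y : ℝ) ^ δ), h2] at h5
      linarith
    have h6 : (Y : ℝ) / 2 ≤ ((Y - n : ℕ) : ℝ) := by
      rw [Nat.cast_sub (by omega)]
      have : (2 : ℝ) * n ≤ Y := by exact_mod_cast hnY
      linarith
    linarith
  have h1 := hH X' (Y - n) (by omega) hpow (by omega)
  have e : X' + (Y - n) = u * Y + Y := by omega
  rw [e] at h1
  refine le_trans ?_ h1
  have hlog : Real.log (X' : ℝ) ≤ n := by
    apply log_upper n (u + 1) _ (by omega) _ hX'1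
    calc X' ≤ 2 * u * Y := hX'le
      _ ≤ 2 ^ (u + 1) * 2 ^ n := by
          apply Nat.mul_le_mul
          · have := (Nat.lt_two_pow_self (n := u)).le
            rw [pow_succ]
            omega
          · rw [hY]
            exact Nat.pow_le_pow_right (by norm_num) (by omega)
      _ = 2 ^ (n + (u + 1)) := by rw [← pow_add]; congr 1; ring
  have hlog0 : 0 < Real.log (X' : ℝ) := by
    apply Real.log_pos
    have : 2 ≤ X' := by omega
    have : (2 : ℝ) ≤ X' := by exact_mod_cast this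
    linarith
  have h6 : (Y : ℝ) / 2 ≤ ((Y - n : ℕ) : ℝ) := by
    rw [Nat.cast_sub (by omega)]
    have : (2 : ℝ) * n ≤ Y := by exact_mod_cast hnY
    linarith
  calc η / 2 * (2 ^ (n - m) / n) = η * (Y / 2) / n := by rw [hY]; push_cast; ring
    _ ≤ η * ((Y - n : ℕ) : ℝ) / n := by gcongr
    _ ≤ _ := div_le_div_of_nonneg_left (by positivity) hlog0 hlog

/-- measure of the event: lower bound -/
lemma ev_low : ∃ c : ℝ, 0 < c ∧ ∀ m u : ℕ, 1 ≤ u → ∀ᶠ n : ℕ in atTop, ∀ h : ℕ → ℝ, 0 ≤ h n → h n ≤ n →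
    c * (1 / 2 ^ m) * (h n / n) ≤ (volume (ev h n ∩ cell m u)).toReal := by
  obtain ⟨c, hc, hL⟩ := L_card
  obtain ⟨C, hC, hcard⟩ := pw_card
  obtain ⟨C2, hC2, hov⟩ := pw_overlap
  refine ⟨c ^ 2 / (C + C2), by positivity, fun m u hu => ?_⟩
  filter_upwards [hL m u hu, hcard m, hov m, eventually_ge_atTop (4 * m + 16)] with n hL1 hcd hov1 hn2 h h0 h1
  have hn0 : (0 : ℝ) < n := by exact_mod_cast (by omega : 0 < n)
  have hle := nat_le_pow_half hn2
  rcases h0.eq_or_lt with hz | hpos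
  · rw [← hz]
    simp
  set L := (Ioc (u * 2 ^ (n - m) + n) (u * 2 ^ (n - m) + 2 ^ (n - m))).filter Nat.Prime with hLdef
  have hLp : ∀ p ∈ L, p.Prime := fun p hp => (mem_filter.1 hp).2
  have e2 : (2 : ℝ) ^ n = 2 ^ m * 2 ^ (n - m) := by rw [← pow_add]; congr 1; omega
  have hsubc : ∀ p ∈ L, iv n (h n) p ⊆ cell m u := by
    intro p hp x hx
    rw [hLdef, mem_filter, mem_Ioc] at hp
    have a1 : ((u * 2 ^ (n - m) + n : ℕ) : ℝ) < p := by exact_mod_cast hp.1.1
    have a2 : (p : ℝ) ≤ ((u * 2 ^ (n - m) + 2 ^ (n - m) : ℕ) : ℝ) := by exact_mod_cast hp.1.2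
    push_cast at a1 a2
    unfold iv at hx
    have b1 := (div_le_iff₀ (by positivity)).1 hx.1
    have b2 := (lt_div_iff₀ (by positivity)).1 hx.2
    unfold cell
    constructor
    · rw [div_le_iff₀ (by positivity)]
      have : (u : ℝ) * 2 ^ (n - m) ≤ (x * 2 ^ m) * 2 ^ (n - m) := by
        rw [mul_assoc, ← e2]
        linarith
      exact le_of_mul_le_mul_right this (by positivity)
    · rw [lt_div_iff₀ (by positivity)]
      have : (x * 2 ^ m) * 2 ^ (n - m) < ((u : ℝ) + 1) * 2 ^ (n - m) := by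
        rw [mul_assoc, ← e2]
        linarith
      exact lt_of_mul_lt_mul_right this (by positivity)
  have hsubp : L ⊆ pw m u n := by
    intro p hp
    rw [hLdef, mem_filter, mem_Ioc] at hp
    unfold pw
    rw [mem_filter, mem_Ioc]
    refine ⟨?_, hp.2⟩
    have e : 2 ^ (n - m + 2) = 4 * 2 ^ (n - m) := by rw [pow_add]; ring
    have hX : 1 ≤ u * 2 ^ (n - m) := Nat.mul_pos hu (by positivity)
    omega
  set μ : Measure ℝ := volume.restrict (cell m u) with hμ
  have hcellm : MeasurableSet (cell m u) := measurableSet_Ico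
  have hfinc : volume (cell m u) ≠ ⊤ := by
    unfold cell
    rw [Real.volume_Ico]
    exact ENNReal.ofReal_ne_top
  have : IsFiniteMeasure μ := ⟨by rw [hμ, Measure.restrict_apply_univ]; exact hfinc.lt_top⟩
  have hch := Pool.Agent.Helper982_KG.Ks.ks_chung (μ := μ) L (fun p => iv n (h n) p)
    (fun p _ => iv_meas n (h n) p)
  have hs1 : ∀ p ∈ L, μ.real (iv n (h n) p) = h n / 2 ^ n := by
    intro p hp
    rw [Measure.real, hμ, Measure.restrict_apply (iv_meas n (h n) p), Set.inter_eq_left.2 (hsubc p hp)]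
    exact iv_vol n (h n) h0 p
  have hs2 : ∀ p q, μ.real (iv n (h n) p ∩ iv n (h n) q) ≤ volume.real (iv n (h n) p ∩ iv n (h n) q) := by
    intro p q
    apply ENNReal.toReal_mono
    · exact ((measure_mono Set.inter_subset_left).trans_lt (iv_fin n (h n) p).lt_top).ne
    · exact Measure.restrict_apply_le _ _
  rw [sum_congr rfl hs1, sum_const, nsmul_eq_mul] at hch
  set S : ℝ := (L.card : ℝ) * (h n / 2 ^ n) with hS
  have hSlow : c * (1 / 2 ^ m) * (h n / n) ≤ S := by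
    calc c * (1 / 2 ^ m) * (h n / n) = (c * (2 ^ (n - m) / n)) * (h n / 2 ^ n) := by
          rw [e2]; field_simp
      _ ≤ S := mul_le_mul_of_nonneg_right hL1 (by positivity)
  have hSup : S ≤ C * (1 / 2 ^ m) * (h n / n) := by
    calc S ≤ ((pw m u n).card : ℝ) * (h n / 2 ^ n) := by
          apply mul_le_mul_of_nonneg_right _ (by positivity)
          exact_mod_cast card_le_card hsubp
      _ ≤ (C * (2 ^ (n - m) / n)) * (h n / 2 ^ n) := mul_le_mul_of_nonneg_right (hcd u) (by positivity)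
      _ = _ := by rw [e2]; field_simp
  -- the second moment
  have hQ : ∑ p ∈ L, ∑ q ∈ L, μ.real (iv n (h n) p ∩ iv n (h n) q) ≤ (C + C2) * (1 / 2 ^ m) * (h n / n) := by
    have h2 : ∑ p ∈ L, ∑ q ∈ L, μ.real (iv n (h n) p ∩ iv n (h n) q) ≤
        ∑ p ∈ L, (h n / 2 ^ n + ∑ q ∈ L, (if (2 : ℤ) ^ 0 * p ≠ q then
          volume.real (iv n (h n) p ∩ iv (n + 0) (h n) q) else 0)) := by
      apply sum_le_sum
      intro p hp
      have h3 : ∀ q ∈ L, μ.real (iv n (h n) p ∩ iv n (h n) q) ≤ (if p = q then h n / 2 ^ n else 0) +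
          (if (2 : ℤ) ^ 0 * p ≠ q then volume.real (iv n (h n) p ∩ iv (n + 0) (h n) q) else 0) := by
        intro q hq
        by_cases hpq : p = q
        · subst hpq
          have e5 : ¬ ((2 : ℤ) ^ 0 * p ≠ p) := by simp
          rw [if_pos rfl, if_neg e5, add_zero, Set.inter_self, hs1 p hp]
        · have e5 : (2 : ℤ) ^ 0 * p ≠ q := by
            rw [pow_zero, one_mul]
            exact_mod_cast hpq
          rw [if_neg hpq, if_pos e5, zero_add]
          exact hs2 p q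
      refine (sum_le_sum h3).trans ?_
      rw [sum_add_distrib, sum_ite_eq, if_pos hp]
    refine h2.trans ?_
    rw [sum_add_distrib, sum_const, nsmul_eq_mul]
    have h4 := hov1 u 0 (h n) (h n) L h0 h0 hLp
    have h5 : ∑ p ∈ L, ∑ q ∈ L, (if (2 : ℤ) ^ 0 * p ≠ q then
          volume.real (iv n (h n) p ∩ iv (n + 0) (h n) q) else 0) ≤
        ∑ p ∈ pw m u n, ∑ q ∈ L, (if (2 : ℤ) ^ 0 * p ≠ q then
          volume.real (iv n (h n) p ∩ iv (n + 0) (h n) q) else 0) := by
      apply sum_le_sum_of_subset_of_nonneg hsubp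
      intro p _ _
      apply sum_nonneg
      intro q _
      split_ifs
      · exact measureReal_nonneg
      · exact le_rfl
    have h6 : C2 * (1 / 2 ^ m) * (h n * h n / (n : ℝ) ^ 2) ≤ C2 * (1 / 2 ^ m) * (h n / n) := by
      apply mul_le_mul_of_nonneg_left _ (by positivity)
      rw [div_le_div_iff₀ (by positivity) hn0]
      have h7 : h n * n * h n ≤ h n * n * n := mul_le_mul_of_nonneg_left h1 (by positivity)
      nlinarith
    have h7 : (L.card : ℝ) * (h n / 2 ^ n) = S := hS.symm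
    rw [h7]
    calc S + ∑ p ∈ L, ∑ q ∈ L, (if (2 : ℤ) ^ 0 * p ≠ q then
          volume.real (iv n (h n) p ∩ iv (n + 0) (h n) q) else 0)
        ≤ C * (1 / 2 ^ m) * (h n / n) + C2 * (1 / 2 ^ m) * (h n / n) :=
          add_le_add hSup (h5.trans (h4.trans h6))
      _ = _ := by ring
  have hU : μ.real (⋃ p ∈ L, iv n (h n) p) ≤ (volume (ev h n ∩ cell m u)).toReal := by
    rw [Measure.real, hμ, Measure.restrict_apply (Finset.measurableSet_biUnion _ fun p _ => iv_meas n (h n) p)]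
    apply ENNReal.toReal_mono
    · exact ((measure_mono Set.inter_subset_right).trans_lt hfinc.lt_top).ne
    · apply measure_mono
      apply Set.inter_subset_inter_left
      intro x hx
      simp only [Set.mem_iUnion, exists_prop] at hx
      obtain ⟨p, hp, hxp⟩ := hx
      unfold ev
      simp only [Set.mem_iUnion, exists_prop]
      exact ⟨p, hLp p hp, hxp⟩
  set W : ℝ := (1 / 2 ^ m) * (h n / n) with hW
  have hWpos : 0 < W := by rw [hW]; positivity
  have h8 : (c * W) ^ 2 ≤ ((C + C2) * W) * (volume (ev h n ∩ cell m u)).toReal := by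
    calc (c * W) ^ 2 ≤ S ^ 2 := by
          apply pow_le_pow_left₀ (by positivity)
          rw [hW, ← mul_assoc]
          exact hSlow
      _ ≤ _ := hch
      _ ≤ ((C + C2) * W) * μ.real (⋃ p ∈ L, iv n (h n) p) := by
          apply mul_le_mul_of_nonneg_right _ measureReal_nonneg
          rw [hW, ← mul_assoc]
          exact hQ
      _ ≤ _ := mul_le_mul_of_nonneg_left hU (by positivity)
  have h9 : c ^ 2 / (C + C2) * (1 / 2 ^ m) * (h n / n) = (c * W) ^ 2 / ((C + C2) * W) := by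
    rw [hW]
    field_simp
  rw [h9, div_le_iff₀ (by positivity), mul_comm _ ((C + C2) * W)]
  exact h8

end Pool.Agent.V8H9.DP
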