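import Mathlib
import Pool.Agent.V8H9.DP.KhC
import Pool.Agent.V8H9.DP.Fin

/-! Khintchine's theorem for the primes just above `x 2^n`: assembly. -/

set_option autoImplicit false

namespace Pool.Agent.V8H9.DP

open Finset Filter Topology MeasureTheory

lemma ev_pq (C : ℕ) : ∀ᶠ n : ℕ in atTop, (n : ℝ) ^ C ≤ (2 : ℝ) ^ ((n : ℝ) / 4) := by
  have h1 : (1 : ℝ) < (2 : ℝ) ^ ((1 : ℝ) / 4) := Real.one_lt_rpow (by norm_num) (by norm_num)
  have h2 := tendsto_pow_const_div_const_pow_of_one_lt C h1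
  filter_upwards [h2.eventually (gt_mem_nhds (zero_lt_one' ℝ))] with n hn
  rw [div_lt_one (by positivity)] at hn
  refine hn.le.trans (le_of_eq ?_)
  rw [← Real.rpow_natCast, ← Real.rpow_mul (by norm_num)]; congr 1; ring

/-- the weights of the good indices diverge -/
lemma good_div (h : ℕ → ℝ) (h0 : ∀ n, 0 ≤ h n) (hns : ¬ Summable (fun n : ℕ => h n / n)) (n0 : ℕ) :
    ∀ (k₀ : ℕ) (M : ℝ), ∃ T : Finset ℕ, (∀ i ∈ T, (n0 ≤ i ∧ 1 / 2 ^ (i / 2) ≤ h i) ∧ k₀ ≤ i) ∧
      M ≤ ∑ i ∈ T, h i / i := by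
  classical
  intro k₀ M
  set g : ℕ → ℝ := fun n => if ((n0 ≤ n ∧ 1 / 2 ^ (n / 2) ≤ h n) ∧ k₀ ≤ n) then h n / n else 0 with hg
  have hg0 : ∀ n, 0 ≤ g n := by
    intro n
    simp only [hg]
    split_ifs
    · exact div_nonneg (h0 n) (Nat.cast_nonneg n)
    · exact le_rfl
  have hgns : ¬ Summable g := by
    intro hs
    apply hns
    have h2 : Summable (fun n : ℕ => 1 / (n : ℝ) ^ 2) := Real.summable_one_div_nat_pow.2 (by norm_num)
    have h3 := hs.add h2
    apply Summable.of_norm_bounded_eventually_nat h3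
    filter_upwards [ev_pq 2, eventually_ge_atTop (n0 + k₀ + 2)] with n hn1 hn2
    have hn0 : (1 : ℝ) ≤ n := by exact_mod_cast (by omega : 1 ≤ n)
    rw [Real.norm_of_nonneg (div_nonneg (h0 n) (Nat.cast_nonneg n))]
    by_cases hgood : 1 / 2 ^ (n / 2) ≤ h n
    · have e : g n = h n / n := by
        simp only [hg]
        rw [if_pos ⟨⟨by omega, hgood⟩, by omega⟩]
      rw [e]
      have : 0 ≤ 1 / (n : ℝ) ^ 2 := by positivity
      linarith
    · push Not at hgood
      have h4 : (n : ℝ) ^ 2 ≤ 2 ^ (n / 2) := by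
        refine hn1.trans ?_
        rw [← Real.rpow_natCast]
        apply Real.rpow_le_rpow_of_exponent_le (by norm_num)
        have h5 : n ≤ 4 * (n / 2) := by omega
        have h6 : (n : ℝ) ≤ 4 * ((n / 2 : ℕ) : ℝ) := by exact_mod_cast h5
        linarith
      have h7 : 1 / (2 : ℝ) ^ (n / 2) ≤ 1 / (n : ℝ) ^ 2 := one_div_le_one_div_of_le (by positivity) h4
      have h8 : h n / n ≤ h n := div_le_self (h0 n) hn0
      have := hg0 n
      linarith
  have h5 := (not_summable_iff_tendsto_nat_atTop_of_nonneg hg0).1 hgns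
  obtain ⟨N, hN⟩ := (h5.eventually (eventually_ge_atTop M)).exists
  refine ⟨(range N).filter (fun n => (n0 ≤ n ∧ 1 / 2 ^ (n / 2) ≤ h n) ∧ k₀ ≤ n), ?_, ?_⟩
  · intro i hi
    exact (mem_filter.1 hi).2
  · refine hN.trans (le_of_eq ?_)
    simp only [hg]
    rw [sum_filter]

/-- the limsup set has a positive proportion of every cell -/
lemma limsup_cell : ∃ c : ℝ, 0 < c ∧ ∀ h : ℕ → ℝ, (∀ n, 0 ≤ h n) → (∀ n : ℕ, h n ≤ n) →
    ¬ Summable (fun n : ℕ => h n / n) → ∀ m u : ℕ, 1 ≤ u →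
    c * (1 / 2 ^ m) ≤ (volume ({x | ∃ᶠ n in atTop, x ∈ ev h n} ∩ cell m u)).toReal := by
  obtain ⟨c, hc, hlow⟩ := ev_low
  obtain ⟨C1, hC1, hup⟩ := ev_up
  obtain ⟨C2, hC2, hnear⟩ := ev_near
  obtain ⟨C3, hC3, hfar⟩ := ev_far
  set C := C1 + C2 + C3 with hC
  have hCpos : 0 < C := by linarith
  refine ⟨c ^ 2 / (2 * C), by positivity, fun h h0 h1 hns m u hu => ?_⟩
  obtain ⟨n0, hn0⟩ := eventually_atTop.1 (((hlow m u hu).and (hup m)).and ((hnear m).and (hfar m)))
  set μ : Measure ℝ := volume.restrict (cell m u) with hμ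
  have hcellm : MeasurableSet (cell m u) := measurableSet_Ico
  have hfinc : volume (cell m u) ≠ ⊤ := by
    unfold cell
    rw [Real.volume_Ico]
    exact ENNReal.ofReal_ne_top
  have : IsFiniteMeasure μ := ⟨by rw [hμ, Measure.restrict_apply_univ]; exact hfinc.lt_top⟩
  have hμE : ∀ n, μ (ev h n) = volume (ev h n ∩ cell m u) := fun n => by
    rw [hμ, Measure.restrict_apply (ev_meas h n)]
  have hμE2 : ∀ n n', μ (ev h n ∩ ev h n') = volume (ev h n ∩ ev h n' ∩ cell m u) := fun n n' => by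
    rw [hμ, Measure.restrict_apply ((ev_meas h n).inter (ev_meas h n'))]
  have hw0 : ∀ n : ℕ, 0 ≤ h n / n := fun n => div_nonneg (h0 n) (Nat.cast_nonneg n)
  have hpair : ∀ i j : ℕ, (n0 ≤ i ∧ 1 / 2 ^ (i / 2) ≤ h i) → (n0 ≤ j ∧ 1 / 2 ^ (j / 2) ≤ h j) → i < j →
      (μ (ev h i ∩ ev h j)).toReal ≤ C * (1 / 2 ^ m) * (h i / i) * (h j / j) := by
    intro i j hi hj hij
    obtain ⟨k, rfl⟩ : ∃ k, j = i + k := ⟨j - i, by omega⟩
    rw [hμE2]
    have hww : 0 ≤ (1 / 2 ^ m) * (h i / i) * (h (i + k) / ((i + k : ℕ) : ℝ)) :=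
      mul_nonneg (mul_nonneg (by positivity) (hw0 i)) (hw0 (i + k))
    by_cases hcase : i + k ≤ 3 * i
    · have h2 := (hn0 i hi.1).2.1 u k h hu (by omega) (h0 i) (h1 i) (h0 (i + k)) (h1 (i + k)) hcase
      nlinarith
    · have h2 := (hn0 i hi.1).2.2 u k h hu (by omega) hi.2 (h1 i) (h0 (i + k)) (h1 (i + k))
      nlinarith
  have key := Pool.Agent.Helper982_KG.Ks.limsup_lower μ (fun n : ℕ => n)
    (fun n => n0 ≤ n ∧ 1 / 2 ^ (n / 2) ≤ h n) (ev h) (fun n => h n / n) c C (1 / 2 ^ m) hc hCpos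
    (by positivity) (fun n _ => hw0 n) (fun n _ => ev_meas h n)
    (fun n hn => by
      rw [hμE]
      exact (hn0 n hn.1).1.1 h (h0 n) (h1 n))
    (fun n hn => by
      rw [hμE]
      have h2 := (hn0 n hn.1).1.2 u h hu (h0 n) (h1 n)
      have h3 : 0 ≤ (1 / 2 ^ m) * (h n / n) := mul_nonneg (by positivity) (hw0 n)
      nlinarith)
    (fun i j hi hj hij => by
      rcases lt_or_gt_of_ne hij with h2 | h2
      · exact hpair i j hi hj h2
      · rw [Set.inter_comm]
        have h3 := hpair j i hj hi h2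
        linarith)
    (good_div h h0 hns n0)
  refine key.trans ?_
  have hmeas : MeasurableSet {x | ∃ᶠ n in atTop, x ∈ ev h n} := by
    have e : {x | ∃ᶠ n in atTop, x ∈ ev h n} = limsup (ev h) atTop := by
      rw [limsup_eq_iInf_iSup_of_nat]
      ext x
      simp only [Set.mem_ofPred_eq, frequently_atTop, Set.iInf_eq_iInter, Set.iSup_eq_iUnion, Set.mem_iInter,
        Set.mem_iUnion, exists_prop]
    rw [e]
    exact MeasurableSet.measurableSet_limsup (ev_meas h)
  have hle : μ {x | ∀ k₀ : ℕ, ∃ i, (n0 ≤ i ∧ 1 / 2 ^ (i / 2) ≤ h i) ∧ k₀ ≤ i ∧ x ∈ ev h i} ≤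
      volume ({x | ∃ᶠ n in atTop, x ∈ ev h n} ∩ cell m u) := by
    rw [← Measure.restrict_apply hmeas, ← hμ]
    apply measure_mono
    intro x hx
    simp only [Set.mem_ofPred_eq, frequently_atTop] at hx ⊢
    intro k
    obtain ⟨i, _, h2, h3⟩ := hx k
    exact ⟨i, h2, h3⟩
  apply ENNReal.toReal_mono _ hle
  exact ((measure_mono Set.inter_subset_right).trans_lt hfinc.lt_top).ne

lemma ls_meas (h : ℕ → ℝ) : MeasurableSet {x | ∃ᶠ n in atTop, x ∈ ev h n} := by
  have e : {x | ∃ᶠ n in atTop, x ∈ ev h n} = limsup (ev h) atTop := by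
    rw [limsup_eq_iInf_iSup_of_nat]
    ext x
    simp only [Set.mem_ofPred_eq, frequently_atTop, Set.iInf_eq_iInter, Set.iSup_eq_iUnion, Set.mem_iInter,
      Set.mem_iUnion, exists_prop]
  rw [e]
  exact MeasurableSet.measurableSet_limsup (ev_meas h)

/-- divergence part -/
theorem kh_div (h : ℕ → ℝ) (h0 : ∀ n, 0 ≤ h n) (h1 : ∀ n : ℕ, h n ≤ n)
    (hns : ¬ Summable (fun n : ℕ => h n / n)) : ∀ᵐ x : ℝ, 0 < x → ∃ᶠ n in atTop, x ∈ ev h n := by
  obtain ⟨c, hc, hcell⟩ := limsup_cell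
  set W := {x | ∃ᶠ n in atTop, x ∈ ev h n} with hW
  have h2 := Besicovitch.ae_tendsto_measure_inter_div_of_measurableSet (volume : Measure ℝ) (ls_meas h)
  rw [← hW] at h2
  filter_upwards [h2] with x hx hx0
  by_contra hnW
  have hnW' : x ∉ W := hnW
  rw [Set.indicator_of_notMem hnW'] at hx
  have h3 : ∀ᶠ r in nhdsWithin (0 : ℝ) (Set.Ioi 0), ENNReal.ofReal (c / 4) ≤
      volume (W ∩ Metric.closedBall x r) / volume (Metric.closedBall x r) := by
    filter_upwards [Ioo_mem_nhdsGT (show (0 : ℝ) < min (x / 2) (1 / 2) by positivity)] with r hr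
    have hr0 : 0 < r := hr.1
    have hrx : r < x / 2 := hr.2.trans_le (min_le_left _ _)
    have hr2 : r < 1 / 2 := hr.2.trans_le (min_le_right _ _)
    -- the scale
    obtain ⟨m, hm1, hm2⟩ : ∃ m : ℕ, (1 : ℝ) / 2 ^ m ≤ r ∧ r < 2 / 2 ^ m := by
      have hex : ∃ m : ℕ, (1 : ℝ) / 2 ^ m ≤ r := by
        obtain ⟨m, hm⟩ := pow_unbounded_of_one_lt (1 / r) (by norm_num : (1 : ℝ) < 2)
        refine ⟨m, ?_⟩
        rw [div_le_iff₀ (by positivity)]
        rw [div_lt_iff₀ hr0] at hm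
        linarith
      classical
      refine ⟨Nat.find hex, Nat.find_spec hex, ?_⟩
      have hpos : Nat.find hex ≠ 0 := by
        intro h0
        have := Nat.find_spec hex
        rw [h0] at this
        norm_num at this
        linarith
      obtain ⟨k, hk⟩ := Nat.exists_eq_succ_of_ne_zero hpos
      have h4 := Nat.find_min hex (m := k) (by omega)
      push Not at h4
      rw [hk, Nat.succ_eq_add_one, pow_succ]
      calc r < 1 / 2 ^ k := h4
        _ = 2 / (2 ^ k * 2) := by field_simp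
    set u := ⌊x * 2 ^ m⌋₊ with hu
    have h2m : (0 : ℝ) < 2 ^ m := by positivity
    have hx1 : 1 ≤ x * 2 ^ m := by
      have := (div_le_iff₀ h2m).1 hm1
      nlinarith
    have hu1 : 1 ≤ u := (Nat.one_le_floor_iff _).2 hx1
    have hf1 := Nat.floor_le (by positivity : 0 ≤ x * 2 ^ m)
    have hf2 := Nat.lt_floor_add_one (x * 2 ^ m)
    rw [← hu] at hf1 hf2
    have hsub : cell m u ⊆ Metric.closedBall x r := by
      intro y hy
      unfold cell at hy
      have b1 := (div_le_iff₀ h2m).1 hy.1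
      have b2 := (lt_div_iff₀ h2m).1 hy.2
      rw [Metric.mem_closedBall, Real.dist_eq, abs_le]
      have hm1' := (div_le_iff₀ h2m).1 hm1
      constructor
      · have : -r * 2 ^ m ≤ (y - x) * 2 ^ m := by nlinarith
        exact le_of_mul_le_mul_right this h2m
      · have : (y - x) * 2 ^ m ≤ r * 2 ^ m := by nlinarith
        exact le_of_mul_le_mul_right this h2m
    have h4 := hcell h h0 h1 hns m u hu1
    rw [← hW] at h4
    have h5 : ENNReal.ofReal (c * (1 / 2 ^ m)) ≤ volume (W ∩ Metric.closedBall x r) := by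
      refine (ENNReal.ofReal_le_of_le_toReal h4).trans ?_
      exact measure_mono (Set.inter_subset_inter_right W hsub)
    rw [ENNReal.le_div_iff_mul_le]
    · refine le_trans ?_ h5
      rw [Real.volume_closedBall, ← ENNReal.ofReal_mul (by positivity)]
      apply ENNReal.ofReal_le_ofReal
      have : c / 4 * (2 * r) ≤ c / 4 * (2 * (2 / 2 ^ m)) := by gcongr
      refine this.trans (le_of_eq ?_)
      ring
    · left
      exact (Metric.measure_closedBall_pos volume x hr0).ne'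
    · left
      exact measure_closedBall_lt_top.ne
  have h6 := ge_of_tendsto hx h3
  rw [nonpos_iff_eq_zero, ENNReal.ofReal_eq_zero] at h6
  linarith

/-- convergence part -/
theorem kh_conv (h : ℕ → ℝ) (h0 : ∀ n, 0 ≤ h n) (hs : Summable (fun n : ℕ => min (h n / n) 1)) :
    ∀ᵐ x : ℝ, 0 < x → ∀ᶠ n : ℕ in atTop, ¬ ∃ p : ℕ, p.Prime ∧ x * 2 ^ n ≤ p ∧ (p : ℝ) ≤ x * 2 ^ n + h n := by
  obtain ⟨C, hC, hcard⟩ := pw_card
  apply ae_pos
  intro m u hu
  have hev1 : ∀ᶠ n : ℕ in atTop, min (h n / n) 1 < 1 :=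
    hs.tendsto_atTop_zero.eventually (gt_mem_nhds one_pos)
  obtain ⟨n0, hn0⟩ := eventually_atTop.1 ((hcard m).and hev1)
  set n1 := max n0 (4 * m + 16) with hn1
  have hn10 : n0 ≤ n1 := le_max_left _ _
  have hn11 : 4 * m + 16 ≤ n1 := le_max_right _ _
  set B : ℕ → Set ℝ := fun n => if n1 ≤ n then
    ⋃ p ∈ pw m u n, Set.Icc (((p : ℝ) - h n) / 2 ^ n) ((p : ℝ) / 2 ^ n) else ∅ with hB
  have hvol : ∀ n, volume (B n) ≤ ENNReal.ofReal (C * min (h n / n) 1) := by
    intro n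
    simp only [hB]
    split_ifs with hn
    · obtain ⟨hcd, hlt⟩ := hn0 n (hn10.trans hn)
      have hn00 : (0 : ℝ) < n := by exact_mod_cast (by omega : 0 < n)
      have hmin : min (h n / n) 1 = h n / n := by
        rcases min_choice (h n / n) 1 with h2 | h2
        · exact h2
        · rw [h2] at hlt
          exact absurd hlt (lt_irrefl _)
      rw [hmin]
      refine (measure_biUnion_finset_le _ _).trans ?_
      have h3 : ∀ p ∈ pw m u n, volume (Set.Icc (((p : ℝ) - h n) / 2 ^ n) ((p : ℝ) / 2 ^ n)) =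
          ENNReal.ofReal (h n / 2 ^ n) := by
        intro p _
        rw [Real.volume_Icc]
        congr 1
        ring
      rw [sum_congr rfl h3, sum_const, nsmul_eq_mul, ← ENNReal.ofReal_natCast,
        ← ENNReal.ofReal_mul (Nat.cast_nonneg _)]
      apply ENNReal.ofReal_le_ofReal
      have e2 : (2 : ℝ) ^ n = 2 ^ m * 2 ^ (n - m) := by rw [← pow_add]; congr 1; omega
      have h2m : (1 : ℝ) ≤ 2 ^ m := one_le_pow₀ (by norm_num)
      calc ((pw m u n).card : ℝ) * (h n / 2 ^ n) ≤ (C * (2 ^ (n - m) / n)) * (h n / 2 ^ n) :=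
            mul_le_mul_of_nonneg_right (hcd u) (div_nonneg (h0 n) (by positivity))
        _ = C * (h n / n) * (1 / 2 ^ m) := by rw [e2]; field_simp
        _ ≤ C * (h n / n) * 1 := by
            apply mul_le_mul_of_nonneg_left _ (mul_nonneg (by linarith) (div_nonneg (h0 n) hn00.le))
            rw [div_le_one (by positivity)]
            exact h2m
        _ = _ := mul_one _
    · simp
  have hsum : ∑' n, volume (B n) ≠ ⊤ := by
    refine ne_top_of_le_ne_top ?_ (ENNReal.tsum_le_tsum hvol)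
    exact (hs.mul_left C).tsum_ofReal_ne_top
  have hae := ae_eventually_notMem hsum
  filter_upwards [hae] with x hx hxc
  filter_upwards [hx, eventually_ge_atTop n1] with n hn hnn
  rintro ⟨p, hp, h2, h3⟩
  apply hn
  simp only [hB]
  rw [if_pos hnn]
  obtain ⟨_, hlt⟩ := hn0 n (hn10.trans hnn)
  have hn00 : (0 : ℝ) < n := by exact_mod_cast (by omega : 0 < n)
  have hhn : h n ≤ n := by
    rcases min_choice (h n / n) 1 with h4 | h4
    · rw [h4, div_lt_one hn00] at hlt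
      exact hlt.le
    · rw [h4] at hlt
      exact absurd hlt (lt_irrefl _)
  have hle := nat_le_pow_half (m := m) (n := n) (by omega)
  simp only [Set.mem_iUnion, exists_prop]
  refine ⟨p, mem_pw hxc (by omega) hu (hhn.trans hle) hp h2 h3, ?_, ?_⟩
  · rw [div_le_iff₀ (by positivity)]
    linarith
  · rw [le_div_iff₀ (by positivity)]
    exact h2

/-- Khintchine's theorem for the primes just above `x 2^n` -/
theorem khintchine (h : ℕ → ℝ) (h0 : ∀ n, 0 ≤ h n) :
    (Summable (fun n : ℕ => min (h n / n) 1) → ∀ᵐ x : ℝ, 0 < x → ∀ᶠ n : ℕ in atTop,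
      ¬ ∃ p : ℕ, p.Prime ∧ x * 2 ^ n ≤ p ∧ (p : ℝ) ≤ x * 2 ^ n + h n) ∧
    (¬ Summable (fun n : ℕ => min (h n / n) 1) → ∀ᵐ x : ℝ, 0 < x → ∃ᶠ n : ℕ in atTop,
      ∃ p : ℕ, p.Prime ∧ x * 2 ^ n ≤ p ∧ (p : ℝ) ≤ x * 2 ^ n + h n) := by
  refine ⟨kh_conv h h0, fun hns => ?_⟩
  set g : ℕ → ℝ := fun n => min (h n) n with hg
  have hg0 : ∀ n, 0 ≤ g n := fun n => le_min (h0 n) (Nat.cast_nonneg n)
  have hg1 : ∀ n : ℕ, g n ≤ n := fun n => min_le_right _ _
  have hgs : ¬ Summable (fun n : ℕ => g n / n) := by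
    have e : (fun n : ℕ => g n / n) = fun n : ℕ => min (h n / n) 1 := by
      funext n
      rcases Nat.eq_zero_or_pos n with hn | hn
      · subst hn
        simp
      · have hn0 : (0 : ℝ) < n := by exact_mod_cast hn
        simp only [hg]
        rw [← min_div_div_right hn0.le, div_self hn0.ne']
    rw [e]
    exact hns
  filter_upwards [kh_div g hg0 hg1 hgs] with x hx hx0
  refine (hx hx0).mono fun n hn => ?_
  unfold ev at hn
  simp only [Set.mem_iUnion, exists_prop] at hn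
  obtain ⟨p, hp, hxp⟩ := hn
  unfold iv at hxp
  have a1 := (div_le_iff₀ (by positivity)).1 hxp.1
  have a2 := (lt_div_iff₀ (by positivity)).1 hxp.2
  refine ⟨p, hp, a2.le, ?_⟩
  have : g n ≤ h n := min_le_left _ _
  linarith

end Pool.Agent.V8H9.DP
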